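import Pool.Agent.Helper51.RT.A
import Pool.Agent.Helper71.RZ2.R8

/-! # RT-B: flat patches with explicit constants (copy of the proof of Helper71/RZ2/R8) -/

set_option autoImplicit false

open MeasureTheory Set Metric Filter Topology
open scoped ENNReal

namespace Pool.Agent.Helper51.RT

open Pool.Agent.Helper42.RZ Pool.Agent.Helper42.RZ2 Pool.Agent.Helper32.RZ Pool.Agent.Helper71.RZ2

private theorem flat_aux {η κ : ℝ} (hη : 0 < η) (hη1 : η < 1) (hκ : 0 < κ) (hκ1 : κ < 1) :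
    ∀ A : ℝ, 1 ≤ A → ∀ ρ : ℝ, 0 < ρ → ρ * A ≤ η * κ ^ 2 / 200 →
    ∃ (n₁ n₂ : ℕ) (P I : Fin n₁ × Fin n₂ → Set E3) (D : Fin n₁ × Fin n₂ → Set ℂ)
      (S : Fin n₁ × Fin n₂ → ℂ → E3),
      (∀ k, MeasurableSet (P k)) ∧ (∀ k, MeasurableSet (D k)) ∧ (∀ k, MeasurableSet (I k)) ∧
      (∀ k, Measurable (S k)) ∧ (∀ k k', k ≠ k' → Disjoint (P k) (P k')) ∧
      (∀ k, P k ⊆ sphere 0 1) ∧ (∀ k, Bornology.IsBounded (D k)) ∧
      (∀ k, MapsTo (S k) (D k) (P k)) ∧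
      (∀ k, ∀ y ∈ D k, ∀ y' ∈ D k, (1 - η) / A * ‖y - y'‖ ≤ ‖S k y - S k y'‖) ∧
      (∀ k (B : Set E3), MeasurableSet B →
        (4 * Real.pi)⁻¹ * (volume : Measure ℂ).real (D k ∩ S k ⁻¹' B) =
          A ^ 2 * sig.real (B ∩ P k)) ∧
      (∀ k, I k ⊆ P k) ∧ (∀ k, ∀ x ∈ I k, ∀ y, ‖y‖ = 1 → ‖x - y‖ < ρ → y ∈ P k) ∧
      1 - κ ≤ ∑ k, sig.real (I k) := by
  have hπ := Real.pi_pos
  -- the constants
  obtain ⟨Z, hZ0, hZ1, hZκ, hZe⟩ : ∃ Z : ℝ, 1 / 2 ≤ Z ∧ Z < 1 ∧ 1 - Z ≤ κ / 3 ∧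
      Z = 1 - κ / 3 := by
    refine ⟨1 - κ / 3, ?_, ?_, ?_, rfl⟩
    · linarith
    · linarith
    · linarith
  set m := Real.sqrt (1 - Z ^ 2) with hmdef
  have hm0 : 0 < m := Real.sqrt_pos.2 (by nlinarith)
  have hm2 : m ^ 2 = 1 - Z ^ 2 := Real.sq_sqrt (by nlinarith only [hZ1, hη, hη1, hZ0])
  have hm1 : m < 1 := by nlinarith only [hZ0, hm2, hη, hη1, hm0]
  set ε := η / 4 * m / 2 with hεdef
  have hε0 : 0 < ε := by positivity
  have hεm : ε ≤ η / 8 := by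
    rw [hεdef]; nlinarith only [hη, hm1]
  have hε1 : ε ≤ 1 / 8 := by linarith
  have hε2 : ε ^ 2 ≤ η / 4 := by nlinarith only [hεdef, hη, hη1, hε0, hm1, hεm]
  set C := Real.pi / (2 * m) with hC
  have hC0 : 0 < C := by positivity
  intro A hA ρ hρ hρA0
  have hρA : ρ * A ≤ (2 * κ / 3) / (2 * C / ε + 2 / (ε * m)) := by
    refine hρA0.trans (const_aux hη hκ hκ1 hm0 ?_ hεdef hC)
    rw [hm2, hZe]
    nlinarith only [hκ, hκ1]
  have hA0 : 0 < A := by linarith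
  -- the grid
  have hX1 : 1 ≤ Real.pi * A / ε := by
    rw [le_div_iff₀ hε0]
    have : 1 * 1 ≤ Real.pi * A := mul_le_mul (by linarith only [hη1, hε0, hεm, Real.pi_gt_three]) hA zero_le_one hπ.le
    linarith only [hη1, hε0, hεm, this]
  have hX2 : 1 ≤ Z * A / (ε * m) := by
    rw [le_div_iff₀ (by positivity)]
    nlinarith only [hm2, hA, hη1, hη, hZ0, hZ1, hm0, hεdef]
  obtain ⟨hn1, hn2, hn3⟩ := ceil_bounds hX1
  obtain ⟨hk1, hk2, hk3⟩ := ceil_bounds hX2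
  set n₁ := ⌈Real.pi * A / ε⌉₊
  set n₂ := ⌈Z * A / (ε * m)⌉₊
  have hn₁ : (0 : ℝ) < n₁ := by exact_mod_cast hn1
  have hn₂ : (0 : ℝ) < n₂ := by exact_mod_cast hk1
  set v := Real.pi / n₁ with hv
  set w := Z / n₂ with hw
  have hv0 : 0 < v := by positivity
  have hw0 : 0 < w := by positivity
  have hvA : A * v ≤ ε := by
    rw [div_le_iff₀ hε0] at hn2
    rw [hv, mul_div_assoc', div_le_iff₀ hn₁]
    linarith only [hn2]
  have hwA : A * w ≤ ε * m := by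
    rw [div_le_iff₀ (by positivity)] at hk2
    rw [hw, mul_div_assoc', div_le_iff₀ hn₂]
    linarith only [hk2]
  have hn₁v : n₁ * v = Real.pi := by rw [hv]; field_simp
  have hn₂w : n₂ * w = Z := by rw [hw]; field_simp
  have hvε : v ≤ ε := le_trans (by nlinarith only [hA, hv0]) hvA
  have hwε : w ≤ ε * m := le_trans (by nlinarith only [hη1, hε0, hεm, hA, hw0]) hwA
  -- centres
  let a : ℕ → ℝ := fun j => -Real.pi + (2 * j + 1) * v
  let z : ℕ → ℝ := fun k => -Z + (2 * k + 1) * w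
  have ha : ∀ j : ℕ, j < n₁ → -Real.pi ≤ a j - v ∧ a j + v ≤ Real.pi := by
    intro j hj
    have h1 : (j : ℝ) + 1 ≤ n₁ := by exact_mod_cast hj
    have h2 : (0 : ℝ) ≤ j := Nat.cast_nonneg j
    constructor
    · simp only [a]; nlinarith only [hv0]
    · have : ((j : ℝ) + 1) * v ≤ n₁ * v := mul_le_mul_of_nonneg_right h1 hv0.le
      simp only [a]; linarith only [hn₁v, this]
  have hz : ∀ k : ℕ, k < n₂ → -Z ≤ z k - w ∧ z k + w ≤ Z := by
    intro j hj
    have h1 : (j : ℝ) + 1 ≤ n₂ := by exact_mod_cast hj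
    have h2 : (0 : ℝ) ≤ j := Nat.cast_nonneg j
    constructor
    · simp only [z]; nlinarith only [hw0]
    · have : ((j : ℝ) + 1) * w ≤ n₂ * w := mul_le_mul_of_nonneg_right h1 hw0.le
      simp only [z]; linarith only [hn₂w, this]
  have hRQ : ∀ j k : ℕ, j < n₁ → k < n₂ → Rect (a j) (z k) v w ⊆ Q0 := by
    rintro j k hj hk ⟨p, q⟩ ⟨⟨h1, h2⟩, h3, h4⟩
    have h5 := ha j hj
    have h6 := hz k hk
    simp only at h1 h2 h3 h4
    exact ⟨⟨by linarith only [h1, h5], by linarith only [h2, h5]⟩, ⟨by linarith only [hZ1, h3, h6], by linarith only [hZ1, h4, h6]⟩⟩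
  have hmz : ∀ k : ℕ, k < n₂ → ∀ t, |t - z k| ≤ w → m ^ 2 ≤ 1 - t ^ 2 := by
    intro k hk t ht
    have h1 := hz k hk
    have h2 := abs_le.1 ht
    rw [hm2]
    have : |t| ≤ Z := abs_le.2 ⟨by linarith only [h1, h2], by linarith only [h1, h2]⟩
    have h3 : t ^ 2 ≤ Z ^ 2 := by
      rw [← sq_abs t]; exact pow_le_pow_left₀ (abs_nonneg _) this 2
    linarith only [h3]
  let c : ℕ → ℝ := fun k => Real.sqrt (1 - z k ^ 2)
  have hcm : ∀ k : ℕ, k < n₂ → m ≤ c k ∧ c k ^ 2 = 1 - z k ^ 2 ∧ c k ≤ 1 := by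
    intro k hk
    have h1 := hmz k hk (z k) (by simpa using hw0.le)
    have h2 : c k ^ 2 = 1 - z k ^ 2 := Real.sq_sqrt (by linarith only [h1, sq_nonneg m])
    refine ⟨Real.le_sqrt_of_sq_le h1, h2, ?_⟩
    have h3 : 0 ≤ c k := Real.sqrt_nonneg _
    nlinarith only [h2, hη1, hε0, hεm, h3, sq_nonneg (z k)]
  have hc0 : ∀ k : ℕ, k < n₂ → 0 < c k := fun k hk => hm0.trans_le (hcm k hk).1
  have hbv : ∀ k : ℕ, k < n₂ → A * c k * v ≤ ε := by
    intro k hk
    have h1 := (hcm k hk).2.2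
    have h2 := hc0 k hk
    have h3 : A * c k * v = c k * (A * v) := by ring
    rw [h3]
    have h4 : c k * (A * v) ≤ 1 * (A * v) := mul_le_mul_of_nonneg_right h1 (by positivity)
    linarith only [hvA, h4]
  have hbw : ∀ k : ℕ, k < n₂ → A * w / c k ≤ ε := by
    intro k hk
    have h1 := (hcm k hk).1
    have h2 := hc0 k hk
    rw [div_le_iff₀ h2]
    have : ε * m ≤ ε * c k := mul_le_mul_of_nonneg_left h1 hε0.le
    linarith only [hwA, this]
  have hRQ' : ∀ k : ℕ, k < n₂ → Rect 0 0 (A * c k * v) (A * w / c k) ⊆ Q0 := by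
    rintro k hk ⟨p, q⟩ ⟨⟨h1, h2⟩, h3, h4⟩
    have h5 := hbv k hk
    have h6 := hbw k hk
    simp only at h1 h2 h3 h4
    have h7 := Real.pi_gt_three
    exact ⟨⟨by linarith only [hη1, hε0, hεm, h1, h5, h7], by linarith only [hη1, hε0, hεm, h2, h5, h7]⟩, ⟨by linarith only [hη1, hε0, hεm, h3, h6], by linarith only [hη1, hε0, hεm, h4, h6]⟩⟩
  refine ⟨n₁, n₂, fun k => pc (Rect (a k.1) (z k.2) v w),
    fun k => pc (RectI (a k.1) (z k.2) v w (C * ρ) ρ),
    fun k => fl ⁻¹' (Rect 0 0 (A * c k.2 * v) (A * w / c k.2)),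
    fun k y => pt (T (a k.1) (z k.2) (A * c k.2)⁻¹ (c k.2 / A) (fl y)),
    fun k => measurableSet_pc (measurableSet_Rect _ _ _ _),
    fun k => measurable_fl (measurableSet_Rect _ _ _ _),
    fun k => measurableSet_pc (measurableSet_RectI _ _ _ _ _ _),
    fun k => measurable_pt.comp ((measurable_T _ _ _ _).comp measurable_fl), ?_,
    fun k => pc_subset _, fun k => isBounded_fl, ?_, ?_, ?_, ?_, ?_, ?_⟩
  · -- disjointness
    rintro ⟨i, j⟩ ⟨i', j'⟩ hne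
    rw [Set.disjoint_left]
    rintro x ⟨-, hx1, hx2⟩ ⟨-, hy1, hy2⟩
    apply hne
    have e1 : (i : ℕ) = i' := grid_disj hv0 hx1 hy1
    have e2 : (j : ℕ) = j' := grid_disj hw0 hx2 hy2
    rw [Fin.ext e1, Fin.ext e2]
  · -- the maps
    rintro ⟨i, j⟩ y hy
    refine pt_mem_pc (hRQ i j i.2 j.2) ?_
    rw [← mem_preimage, preimage_T hA0 (hc0 j j.2)]
    exact hy
  · -- distances
    rintro ⟨i, j⟩ y hy y' hy'
    exact flat_dist hA0 (hc0 j j.2) (hcm j j.2).2.1 hη hη1 (hRQ i j i.2 j.2)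
      (by
        have h2 := (hcm j j.2).1
        have h3 : m * m ≤ c j ^ 2 := by nlinarith only [hm0, h2]
        have h4 : 2 * w ≤ η / 4 * (m * m) := by
          have : 2 * (ε * m) = η / 4 * (m * m) := by rw [hεdef]; ring
          linarith only [hwε, this]
        have h5 : η / 4 * (m * m) ≤ η / 4 * c j ^ 2 := mul_le_mul_of_nonneg_left h3 (by linarith only [hε0, hεm])
        linarith only [h4, h5])
      (by nlinarith only [hεm, hA, hη, hη1, hvε, hε0, hv0, hvA]) hy hy'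
  · -- areas
    rintro ⟨i, j⟩ B hB
    exact flat_area hA0 (hc0 j j.2) (hRQ i j i.2 j.2) hB
  · rintro ⟨i, j⟩ x ⟨h0, ⟨h1, h2⟩, h3, h4⟩
    have hb : 0 < C * ρ := by positivity
    simp only at h1 h2 h3 h4
    exact ⟨h0, ⟨by linarith only [h1, hb], by linarith only [h2, hb]⟩, ⟨by linarith only [hρ, h3], by linarith only [hρ, h4]⟩⟩
  · rintro ⟨i, j⟩ x hx y hy hxy
    exact interior_patch hm0 hρ (hRQ i j i.2 j.2) (by have := hz j j.2; linarith only [hZ1, this]) (hmz j j.2)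
      hx hy hxy
  · -- total area
    have h1 : ∀ k : Fin n₁ × Fin n₂,
        (4 * Real.pi)⁻¹ * (4 * (v * w) - 4 * (w * (C * ρ)) - 4 * (v * ρ)) ≤
          sig.real (pc (RectI (a k.1) (z k.2) v w (C * ρ) ρ)) := by
      rintro ⟨i, j⟩
      exact sig_RectI (hRQ i j i.2 j.2) hv0.le hw0.le (by positivity) hρ
    refine le_trans ?_ (Finset.sum_le_sum fun k _ => h1 k)
    rw [Finset.sum_const, Finset.card_univ, Fintype.card_prod, Fintype.card_fin, Fintype.card_fin,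
      nsmul_eq_mul, Nat.cast_mul]
    have h2 : (n₁ : ℝ) * n₂ * ((4 * Real.pi)⁻¹ *
        (4 * (v * w) - 4 * (w * (C * ρ)) - 4 * (v * ρ))) =
        Z - n₁ * Z * (C * ρ) / Real.pi - n₂ * ρ := by
      have : (n₁ : ℝ) * n₂ * ((4 * Real.pi)⁻¹ *
        (4 * (v * w) - 4 * (w * (C * ρ)) - 4 * (v * ρ))) =
        Real.pi⁻¹ * ((n₁ * v) * (n₂ * w) - n₁ * (n₂ * w) * (C * ρ) - (n₁ * v) * (n₂ * ρ)) := by
        field_simp
      rw [this, hn₁v, hn₂w]
      field_simp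
    rw [h2]
    have h3 : n₁ * Z * (C * ρ) / Real.pi ≤ ρ * A * (2 * C / ε) := by
      have h31 : (n₁ : ℝ) * Z ≤ 2 * (Real.pi * A / ε) * 1 :=
        mul_le_mul hn3 hZ1.le (by linarith only [hη1, hZ0, hε0, hεm]) (by positivity)
      rw [div_le_iff₀ hπ]
      calc (n₁ : ℝ) * Z * (C * ρ) ≤ 2 * (Real.pi * A / ε) * 1 * (C * ρ) :=
            mul_le_mul_of_nonneg_right h31 (by positivity)
        _ = ρ * A * (2 * C / ε) * Real.pi := by field_simp
    have h4 : n₂ * ρ ≤ ρ * A * (2 / (ε * m)) := by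
      calc (n₂ : ℝ) * ρ ≤ 2 * (Z * A / (ε * m)) * ρ := mul_le_mul_of_nonneg_right hk3 hρ.le
        _ ≤ 2 * (1 * A / (ε * m)) * ρ := by gcongr
        _ = _ := by field_simp
    have h5 : ρ * A * (2 * C / ε + 2 / (ε * m)) ≤ 2 * κ / 3 := by
      rwa [le_div_iff₀ (by positivity)] at hρA
    linarith only [hZκ, h3, h4, h5]

/-- Disjoint patches `P k` covering most of the sphere, images of bounded plane sets `D k` with the
same area, under maps `S k` which contract distances at most by the factor `1 - η`. -/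
theorem flatOK {η κ : ℝ} (hη : 0 < η) (hη1 : η < 1) (hκ : 0 < κ) (hκ1 : κ < 1) :
    FlatOK η κ (η * κ ^ 2 / 200) := by
  intro ρ hρ hρA
  obtain ⟨n₁, n₂, P, I, D, S, c1, c2, c3, c4, c5, c6, c7, c8, c9, c10, c11, c12, c13⟩ :=
    flat_aux hη hη1 hκ hκ1 1 le_rfl ρ hρ (by rwa [mul_one])
  refine ⟨n₁ * n₂, fun k => P (finProdFinEquiv.symm k), fun k => I (finProdFinEquiv.symm k),
    fun k => D (finProdFinEquiv.symm k), fun k => S (finProdFinEquiv.symm k),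
    fun k => c1 _, fun k => c2 _, fun k => c3 _, fun k => c4 _,
    fun k k' hk => c5 _ _ fun e => hk (finProdFinEquiv.symm.injective e),
    fun k => c6 _, fun k => c7 _, fun k => c8 _, fun k y hy y' hy' => ?_, fun k B hB => ?_,
    fun k => c11 _, fun k => c12 _, ?_⟩
  · have := c9 (finProdFinEquiv.symm k) y hy y' hy'
    rwa [div_one] at this
  · have := c10 (finProdFinEquiv.symm k) B hB
    rwa [one_pow, one_mul] at this
  · rw [Equiv.sum_comp finProdFinEquiv.symm (fun k => sig.real (I k))]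
    exact c13

end Pool.Agent.Helper51.RT
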