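import Pool.Agent.Helper51.RT.Defs
import Pool.Agent.Helper42.RZ.S11

/-! # RT-C: upper bound by pasting (copy of the proof of `Helper42.RZ.upper_M`), explicit -/

set_option autoImplicit false

open MeasureTheory Set Metric Filter Topology
open scoped ENNReal

namespace Pool.Agent.Helper51.RT

open Pool.Agent.Helper42.RZ Pool.Agent.Helper42.RZ.S11

theorem upM {s : ℝ} (h0 : 0 < s) (h2 : s < 2) {η κ ε₀ : ℝ} (hη : 0 < η) (hη1 : η < 1)
    (hε2 : ε₀ ≤ 2) (hpatch : PatchOK η κ ε₀) : ∀ (N₀ N₁ : ℕ), 1 ≤ N₀ → N₀ ≤ N₁ → ∀ ρ : ℝ,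
    0 < ρ → ρ * Real.sqrt (N₁ / N₀) ≤ ε₀ → ∀ x : Fin N₀ → E3, Conf x → ∀ (M : ℕ) (β : ℝ),
    (∀ N' : ℕ, β ≤ minE s N' - 2 * N₁ * Cc s * N' + Cc s * (N₁ : ℝ) ^ 2) →
    β ≤ (N₁ : ℝ) / N₀ * PS x (fun r => K s ((1 - η) * Real.sqrt (N₀ / N₁) * r) *
        (1 - (1 - η) * Real.sqrt (N₀ / N₁) * r / 4) ^ M) -
      (N₁ : ℝ) ^ 2 * ((1 - κ) * ∫ r in (0 : ℝ)..ρ, K s r * (1 - r / 4) ^ M * (r / 2)) := by
  classical
  intro N₀ N₁ hN₀ hN ρ hρ hρA x hx M β hβ
  have hN₁ : 1 ≤ N₁ := hN₀.trans hN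
  have hN₀' : (0 : ℝ) < N₀ := by exact_mod_cast hN₀
  have hN₁' : (0 : ℝ) < N₁ := by exact_mod_cast hN₁
  have hNR : (N₀ : ℝ) ≤ N₁ := by exact_mod_cast hN
  set A : ℝ := Real.sqrt (N₁ / N₀) with hAdef
  have hA : 1 ≤ A := by
    rw [hAdef, Real.one_le_sqrt, le_div_iff₀ hN₀', one_mul]
    exact hNR
  have hA0 : 0 < A := by linarith
  have hA2 : A ^ 2 = N₁ / N₀ := Real.sq_sqrt (by positivity)
  have hAN : (N₀ : ℝ) * A ^ 2 = N₁ := by rw [hA2]; field_simp
  have hρ2 : ρ ≤ 2 := by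
    have h3 := hρA.trans hε2
    nlinarith
  have hbA : (1 - η) / A = (1 - η) * Real.sqrt (N₀ / N₁) := by
    rw [hAdef, div_eq_mul_inv, ← Real.sqrt_inv, inv_div]
  obtain ⟨n, P, D, I, S, hP, hD, hI, hS, hPd, hPs, -, hSm, hSd, hSa, hIP, hρI, hIκ⟩ :=
    hpatch A hA ρ hρ hρA
  obtain ⟨Q, u, hQ, hu, hQd, hun, hua⟩ := exists_sectors N₁ hN₁
  obtain ⟨Γ, _, γ, _, g, hg, hgs⟩ := exists_rot
  have key := fun ω : Fin M → E3 × ℝ => pointwise h0 h2 (η := η) hη1 hA hN₀ hN₁ hAN hP hD hI hS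
    hPd hPs hSm hSd hSa hIP hρI hQ hu hQd hun hua γ hg hgs x hx ω β hβ
  have hga : ∀ (x : E3) (B : Set E3), ‖x‖ = 1 → MeasurableSet B →
      γ.real {θ | g θ x ∈ B} = sig.real B := by
    intro x B h1 hB
    rw [Measure.real, Measure.real, ← hgs x h1, Measure.map_apply (hg x) hB]
    rfl
  have hb : 0 < (1 - η) / A := div_pos (by linarith) hA0
  -- the averages
  have hW : ∀ k, ∀ p ∈ (Finset.univ : Finset (Fin N₀)).offDiag, _ := fun k p hp =>
    W_avg h0 γ (fun θ => S k (g θ (x p.1))) (fun θ => S k (g θ (x p.2)))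
      ((hS k).comp (hg (x p.1))) ((hS k).comp (hg (x p.2)))
      ({θ | g θ (x p.1) ∈ D k} ∩ {θ | g θ (x p.2) ∈ D k})
      ((hg _ (hD k)).inter (hg _ (hD k)))
      (fun θ hθ => ⟨mem_sphere_zero_iff_norm.1 (hPs k (hSm k hθ.1)),
        mem_sphere_zero_iff_norm.1 (hPs k (hSm k hθ.2))⟩)
      (d := (1 - η) / A * ‖x p.1 - x p.2‖)
      (mul_pos hb (by
        rw [norm_pos_iff, sub_ne_zero]
        exact fun h1 => (Finset.mem_offDiag.1 hp).2.2 (hx.1 h1)))
      (fun θ hθ => by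
        have h3 := hSd k _ hθ.1 _ hθ.2
        rwa [← map_sub, LinearIsometryEquiv.norm_map] at h3) M
  have hU := fun k => U_avg h2 (I k) (hI k) hρ hρ2 M
  have h1 : β = ∫ _ω : Fin M → E3 × ℝ, β ∂(Pl M) := by
    rw [integral_const, probReal_univ, one_smul]
  have hiW : ∀ k, Integrable (fun ω : Fin M → E3 × ℝ =>
      ∑ p ∈ (Finset.univ : Finset (Fin N₀)).offDiag,
        ∫ θ, ({θ | g θ (x p.1) ∈ D k} ∩ {θ | g θ (x p.2) ∈ D k} ∩
          {θ | Same ω (S k (g θ (x p.1))) (S k (g θ (x p.2)))}).indicator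
          (fun θ => K s ‖S k (g θ (x p.1)) - S k (g θ (x p.2))‖) θ ∂γ) (Pl M) := fun k =>
    integrable_finsetSum _ fun p hp => (hW k p hp).1
  have h3 : β ≤ ∫ ω : Fin M → E3 × ℝ,
      (∑ k, ∑ p ∈ (Finset.univ : Finset (Fin N₀)).offDiag,
        ∫ θ, ({θ | g θ (x p.1) ∈ D k} ∩ {θ | g θ (x p.2) ∈ D k} ∩
          {θ | Same ω (S k (g θ (x p.1))) (S k (g θ (x p.2)))}).indicator
          (fun θ => K s ‖S k (g θ (x p.1)) - S k (g θ (x p.2))‖) θ ∂γ -
      (N₁ : ℝ) ^ 2 * ∑ k, ∫ q, {q : E3 × E3 | q.1 ∈ I k ∧ ‖q.1 - q.2‖ < ρ ∧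
        Same ω q.1 q.2}.indicator (fun q => K s ‖q.1 - q.2‖) q ∂(sig.prod sig)) ∂(Pl M) := by
    conv_lhs => rw [h1]
    refine integral_mono (integrable_const _) ?_ key
    exact (integrable_finsetSum _ fun k _ => hiW k).sub
      ((integrable_finsetSum _ fun k _ => (hU k).1).const_mul _)
  rw [integral_sub (integrable_finsetSum _ fun k _ => hiW k)
      ((integrable_finsetSum _ fun k _ => (hU k).1).const_mul _), integral_const_mul,
    integral_finsetSum _ (fun k _ => hiW k), integral_finsetSum _ (fun k _ => (hU k).1)] at h3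
  refine h3.trans (sub_le_sub ?_ (mul_le_mul_of_nonneg_left ?_ (by positivity)))
  · have hk : ∀ k, ∫ ω : Fin M → E3 × ℝ, ∑ p ∈ (Finset.univ : Finset (Fin N₀)).offDiag,
        ∫ θ, ({θ | g θ (x p.1) ∈ D k} ∩ {θ | g θ (x p.2) ∈ D k} ∩
          {θ | Same ω (S k (g θ (x p.1))) (S k (g θ (x p.2)))}).indicator
          (fun θ => K s ‖S k (g θ (x p.1)) - S k (g θ (x p.2))‖) θ ∂γ ∂(Pl M) ≤
        A ^ 2 * sig.real (P k) * PS x (fun r => K s ((1 - η) / A * r) *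
          (1 - (1 - η) / A * r / 4) ^ M) := by
      intro k
      rw [integral_finsetSum _ (fun p hp => (hW k p hp).1), PS, Finset.mul_sum]
      refine Finset.sum_le_sum fun p hp => (hW k p hp).2.trans ?_
      refine mul_le_mul_of_nonneg_right ?_ ?_
      · have h4 := hSa k univ MeasurableSet.univ
        rw [preimage_univ, inter_univ, univ_inter] at h4
        rw [← h4, ← hga _ _ (hx.2 p.1) (hD k)]
        exact measureReal_mono inter_subset_left
      · refine mul_nonneg (K_nonneg (by positivity)) (pow_nonneg ?_ M)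
        have h5 : ‖x p.1 - x p.2‖ ≤ 2 := by
          calc ‖x p.1 - x p.2‖ ≤ ‖x p.1‖ + ‖x p.2‖ := norm_sub_le _ _
            _ = 2 := by rw [hx.2, hx.2]; norm_num
        have h6 : (1 - η) / A ≤ 1 := by
          rw [div_le_one hA0]; linarith
        have h7 := mul_le_mul h6 h5 (norm_nonneg _) zero_le_one
        linarith
    refine (Finset.sum_le_sum fun k _ => hk k).trans ?_
    rw [← Finset.sum_mul, ← Finset.mul_sum]
    have h8 : ∑ k, sig.real (P k) ≤ 1 := by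
      rw [← measureReal_iUnion_fintype (fun j j' h => hPd j j' h) hP]
      exact measureReal_le_one
    rw [← hA2, ← hbA]
    have h9 : 0 ≤ PS x (fun r => K s ((1 - η) / A * r) * (1 - (1 - η) / A * r / 4) ^ M) := by
      refine Finset.sum_nonneg fun p _ => ?_
      refine mul_nonneg (K_nonneg (by positivity)) (pow_nonneg ?_ M)
      have h5 : ‖x p.1 - x p.2‖ ≤ 2 := by
        calc ‖x p.1 - x p.2‖ ≤ ‖x p.1‖ + ‖x p.2‖ := norm_sub_le _ _
          _ = 2 := by rw [hx.2, hx.2]; norm_num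
      have h6 : (1 - η) / A ≤ 1 := by
        rw [div_le_one hA0]; linarith
      have h7 := mul_le_mul h6 h5 (norm_nonneg _) zero_le_one
      linarith
    refine mul_le_mul_of_nonneg_right ?_ h9
    have h10 : (0 : ℝ) ≤ A ^ 2 := by positivity
    nlinarith
  · rw [Finset.sum_congr rfl fun k _ => (hU k).2, ← Finset.sum_mul]
    refine mul_le_mul_of_nonneg_right hIκ ?_
    refine intervalIntegral.integral_nonneg hρ.le fun r hr => ?_
    refine mul_nonneg (mul_nonneg (K_nonneg hr.1) (pow_nonneg ?_ M)) ?_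
    · linarith [hr.2]
    · linarith [hr.1]

end Pool.Agent.Helper51.RT
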