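import Pool.Agent.Helper51.RT.Defs
import Pool.Agent.Helper42.RZ2.R9

/-! # RT-D: upper bound from periodic configurations (copy of `Helper42.RZ2.flat_M`), explicit -/

set_option autoImplicit false

open MeasureTheory Set Metric Filter Topology
open scoped ENNReal

namespace Pool.Agent.Helper51.RT

open Pool.Agent.Helper42.RZ Pool.Agent.Helper42.RZ2 Pool.Agent.Helper42.RZ.S11
  Pool.Agent.Helper42.RZ2.R9

theorem flM {s : ℝ} (h0 : 0 < s) (h2 : s < 2) {η κ ε₀ : ℝ} (hη1 : η < 1)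
    (hε2 : ε₀ ≤ 2) (hpatch : FlatOK η κ ε₀) : ∀ ρ : ℝ, 0 < ρ → ρ ≤ ε₀ →
    ∀ (m : ℕ) (a b : ℂ) (y : Fin m → ℂ) (N₁ : ℕ), 1 ≤ m → 1 ≤ N₁ →
    |dt a b| * N₁ = 4 * Real.pi * m →
    (∀ i j, ∀ k : ℤ × ℤ, y i - y j + lv a b k = 0 → i = j ∧ k = 0) →
    ∀ T : Finset (Fin m × Fin m × (ℤ × ℤ)),
    (∀ q, q ∈ T ↔ (1 - η) * ‖y q.1 - y q.2.1 + lv a b q.2.2‖ ≤ 2) → ∀ (M : ℕ) (β : ℝ),
    (∀ N' : ℕ, β ≤ minE s N' - 2 * N₁ * Cc s * N' + Cc s * (N₁ : ℝ) ^ 2) →
    β ≤ (N₁ : ℝ) / m * ∑ q ∈ T, K s ((1 - η) * ‖y q.1 - y q.2.1 + lv a b q.2.2‖) *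
        (1 - (1 - η) * ‖y q.1 - y q.2.1 + lv a b q.2.2‖ / 4) ^ M -
      (N₁ : ℝ) ^ 2 * ((1 - κ) * ∫ r in (0 : ℝ)..ρ, K s r * (1 - r / 4) ^ M * (r / 2)) := by
  classical
  intro ρ hρ hρε m a b y N₁ hm hN₁ hV hY T hT M β hβ
  have hρ2 : ρ ≤ 2 := hρε.trans hε2
  have hN₁' : (0 : ℝ) < N₁ := by exact_mod_cast hN₁
  have hm' : (0 : ℝ) < m := by exact_mod_cast hm
  have hb : 0 < 1 - η := by linarith
  have hdt : dt a b ≠ 0 := by
    intro h
    rw [h, abs_zero, zero_mul] at hV
    have : 0 < 4 * Real.pi * m := by positivity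
    linarith
  have hdt' : 0 < |dt a b| := abs_pos.2 hdt
  obtain ⟨n, P, I, D, S, hP, hD, hI, hS, hPd, hPs, hDb, hSm, hSd, hSa, hIP, hρI, hIκ⟩ :=
    hpatch ρ hρ hρε
  obtain ⟨Q, u, hQ, hu, hQd, hun, hua⟩ := exists_sectors N₁ hN₁
  -- the points
  have hDD : Bornology.IsBounded ((⋃ k, D k) ∪ ball (0 : ℂ) 1) :=
    (Bornology.isBounded_iUnion.2 hDb).union isBounded_ball
  obtain ⟨n', c, hc, hcB⟩ := shift_points hdt y hDD
  have hmass : ∀ (B : Set ℂ), MeasurableSet B → B ⊆ (⋃ k, D k) ∪ ball (0 : ℂ) 1 → ∀ i : Fin m,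
      (∑ j, if (c j).1 = i then Pm.real {ω | pos a b y (c j) ω.1 ∈ B} else 0) =
        |dt a b|⁻¹ * (volume : Measure ℂ).real B := by
    intro B hB hBD i
    rw [← hcB i B hB hBD]
    refine Finset.sum_congr rfl fun j _ => ?_
    have h1 := Pm_fst (measurable_pos a b y (c j) hB)
    by_cases hj : (c j).1 = i
    · rw [if_pos hj, if_pos hj]
      refine h1.trans ?_
      congr 1
      ext v
      simp only [mem_preimage, Set.mem_ofPred_eq, pos, hj]
    · rw [if_neg hj, if_neg hj]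
  have hn' : 1 ≤ n' := by
    by_contra hn
    have hn0 : n' = 0 := by omega
    subst hn0
    have h1 := hmass (ball (0 : ℂ) 1) measurableSet_ball subset_union_right ⟨0, hm⟩
    rw [Finset.univ_eq_empty, Finset.sum_empty] at h1
    have h3 : 0 < (volume : Measure ℂ).real (ball (0 : ℂ) 1) := by
      rw [Measure.real]
      exact ENNReal.toReal_pos (measure_ball_pos _ _ one_pos).ne' measure_ball_lt_top.ne
    have : 0 < |dt a b|⁻¹ * (volume : Measure ℂ).real (ball (0 : ℂ) 1) := by positivity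
    linarith
  have hDsub : ∀ k, D k ⊆ (⋃ k, D k) ∪ ball (0 : ℂ) 1 := fun k =>
    (subset_iUnion D k).trans subset_union_left
  have hcst : ∀ x : ℝ, |dt a b|⁻¹ * (4 * Real.pi * x) = N₁ / m * x := by
    intro x
    have : |dt a b|⁻¹ = N₁ / (4 * Real.pi * m) := by
      rw [← hV]; field_simp
    rw [this]
    field_simp
  have hfib : ∀ k (B : Set E3), MeasurableSet B → ∀ i : Fin m,
      (∑ j, if (c j).1 = i then Pm.real {ω | pos a b y (c j) ω.1 ∈ D k ∩ S k ⁻¹' B} else 0) =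
        N₁ / m * sig.real (B ∩ P k) := by
    intro k B hB i
    rw [hmass _ ((hD k).inter (hS k hB)) (inter_subset_left.trans (hDsub k)) i, ← hcst,
      ← hSa k B hB]
    congr 1
    field_simp
  have hSa' : ∀ k (B : Set E3), MeasurableSet B →
      ∑ i, Pm.real {ω | pos a b y (c i) ω.1 ∈ D k ∩ S k ⁻¹' B} = N₁ * sig.real (B ∩ P k) := by
    intro k B hB
    rw [sum_fiber (fun i => (c i).1), Finset.sum_congr rfl fun i _ => hfib k B hB i,
      Finset.sum_const, Finset.card_univ, Fintype.card_fin, nsmul_eq_mul]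
    field_simp
  have key := fun pl : Fin M → E3 × ℝ => pointwise h0 h2 (η := η) (ρ := ρ) hη1 hN₁ hn' hY hc hP hD
    hI hS hPd hPs hSm hSd hSa' hIP hρI hQ hu hQd hun hua pl β hβ
  -- the averages
  obtain ⟨δ, hδ, hδx⟩ := exists_sep_fin hY hc
  have hpm : ∀ i, Measurable fun ω : (ℝ × ℝ) × E3 => pos a b y (c i) ω.1 := fun i =>
    (measurable_pos a b y (c i)).comp measurable_fst
  have hSg : ∀ k i, Measurable fun ω : (ℝ × ℝ) × E3 => S k (pos a b y (c i) ω.1) := fun k i =>
    (hS k).comp (hpm i)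
  have hsepk : ∀ k i i', ∀ ω : (ℝ × ℝ) × E3, pos a b y (c i) ω.1 ∈ D k →
      pos a b y (c i') ω.1 ∈ D k → (1 - η) * ‖df a b y (c i) (c i')‖ ≤
        ‖S k (pos a b y (c i) ω.1) - S k (pos a b y (c i') ω.1)‖ := by
    intro k i i' ω h1 h3
    have h4 := hSd k _ h1 _ h3
    rwa [pos_sub] at h4
  have hW : ∀ k, ∀ p ∈ (Finset.univ : Finset (Fin n')).offDiag, _ := fun k p hp =>
    W_avg h0 Pm (fun ω => S k (pos a b y (c p.1) ω.1)) (fun ω => S k (pos a b y (c p.2) ω.1))
      (hSg k p.1) (hSg k p.2)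
      ({ω : (ℝ × ℝ) × E3 | pos a b y (c p.1) ω.1 ∈ D k} ∩
        {ω : (ℝ × ℝ) × E3 | pos a b y (c p.2) ω.1 ∈ D k})
      ((hpm _ (hD k)).inter (hpm _ (hD k)))
      (fun ω hω => ⟨mem_sphere_zero_iff_norm.1 (hPs k (hSm k hω.1)),
        mem_sphere_zero_iff_norm.1 (hPs k (hSm k hω.2))⟩)
      (d := (1 - η) * ‖df a b y (c p.1) (c p.2)‖)
      (mul_pos hb (hδ.trans_le (hδx _ _ (Finset.mem_offDiag.1 hp).2.2)))
      (fun ω hω => hsepk k _ _ ω hω.1 hω.2) M
  have hU := fun k => U_avg h2 (I k) (hI k) hρ hρ2 M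
  have h1 : β = ∫ _pl : Fin M → E3 × ℝ, β ∂(Pl M) := by
    rw [integral_const, probReal_univ, one_smul]
  have hiW : ∀ k, Integrable (fun pl : Fin M → E3 × ℝ =>
      ∑ p ∈ (Finset.univ : Finset (Fin n')).offDiag,
        ∫ ω, ({ω : (ℝ × ℝ) × E3 | pos a b y (c p.1) ω.1 ∈ D k} ∩
            {ω : (ℝ × ℝ) × E3 | pos a b y (c p.2) ω.1 ∈ D k} ∩
          {ω : (ℝ × ℝ) × E3 | Same pl (S k (pos a b y (c p.1) ω.1))
            (S k (pos a b y (c p.2) ω.1))}).indicator
          (fun ω => K s ‖S k (pos a b y (c p.1) ω.1) - S k (pos a b y (c p.2) ω.1)‖) ω ∂Pm)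
      (Pl M) := fun k => integrable_finsetSum _ fun p hp => (hW k p hp).1
  have h3 : β ≤ ∫ pl : Fin M → E3 × ℝ,
      (∑ k, ∑ p ∈ (Finset.univ : Finset (Fin n')).offDiag,
        ∫ ω, ({ω : (ℝ × ℝ) × E3 | pos a b y (c p.1) ω.1 ∈ D k} ∩
            {ω : (ℝ × ℝ) × E3 | pos a b y (c p.2) ω.1 ∈ D k} ∩
          {ω : (ℝ × ℝ) × E3 | Same pl (S k (pos a b y (c p.1) ω.1))
            (S k (pos a b y (c p.2) ω.1))}).indicator
          (fun ω => K s ‖S k (pos a b y (c p.1) ω.1) - S k (pos a b y (c p.2) ω.1)‖) ω ∂Pm -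
      (N₁ : ℝ) ^ 2 * ∑ k, ∫ q, {q : E3 × E3 | q.1 ∈ I k ∧ ‖q.1 - q.2‖ < ρ ∧
        Same pl q.1 q.2}.indicator (fun q => K s ‖q.1 - q.2‖) q ∂(sig.prod sig)) ∂(Pl M) := by
    conv_lhs => rw [h1]
    refine integral_mono (integrable_const _) ?_ key
    exact (integrable_finsetSum _ fun k _ => hiW k).sub
      ((integrable_finsetSum _ fun k _ => (hU k).1).const_mul _)
  rw [integral_sub (integrable_finsetSum _ fun k _ => hiW k)
      ((integrable_finsetSum _ fun k _ => (hU k).1).const_mul _), integral_const_mul,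
    integral_finsetSum _ (fun k _ => hiW k), integral_finsetSum _ (fun k _ => (hU k).1)] at h3
  refine h3.trans (sub_le_sub ?_ (mul_le_mul_of_nonneg_left ?_ (by positivity)))
  · -- the kernel at a difference
    set g : ℝ → ℝ := fun r => K s ((1 - η) * r) * (1 - (1 - η) * r / 4) ^ M with hg
    have hg0 : ∀ r, 0 ≤ r → (1 - η) * r ≤ 2 → 0 ≤ g r := fun r hr hr2 =>
      mul_nonneg (K_nonneg (by positivity)) (pow_nonneg (by linarith) M)
    set Θ : Fin m → ℝ := fun i => ∑ q ∈ T, if q.1 = i then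
      g ‖y q.1 - y q.2.1 + lv a b q.2.2‖ else 0 with hΘ
    have hgT : ∀ q ∈ T, 0 ≤ g ‖y q.1 - y q.2.1 + lv a b q.2.2‖ := fun q hq =>
      hg0 _ (norm_nonneg _) ((hT q).1 hq)
    have hk : ∀ k, ∫ pl : Fin M → E3 × ℝ, ∑ p ∈ (Finset.univ : Finset (Fin n')).offDiag,
        ∫ ω, ({ω : (ℝ × ℝ) × E3 | pos a b y (c p.1) ω.1 ∈ D k} ∩
            {ω : (ℝ × ℝ) × E3 | pos a b y (c p.2) ω.1 ∈ D k} ∩
          {ω : (ℝ × ℝ) × E3 | Same pl (S k (pos a b y (c p.1) ω.1))
            (S k (pos a b y (c p.2) ω.1))}).indicator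
          (fun ω => K s ‖S k (pos a b y (c p.1) ω.1) - S k (pos a b y (c p.2) ω.1)‖) ω ∂Pm
          ∂(Pl M) ≤ N₁ / m * sig.real (P k) * ∑ i, Θ i := by
      intro k
      rw [integral_finsetSum _ (fun p hp => (hW k p hp).1)]
      -- drop the second event
      set π : Fin n' → ℝ := fun i => Pm.real {ω | pos a b y (c i) ω.1 ∈ D k} with hπ
      have step1 : ∀ p ∈ (Finset.univ : Finset (Fin n')).offDiag, _ ≤
          π p.1 * (if (1 - η) * ‖df a b y (c p.1) (c p.2)‖ ≤ 2 then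
            g ‖df a b y (c p.1) (c p.2)‖ else 0) := fun p hp => (hW k p hp).2.trans (by
        by_cases hle : (1 - η) * ‖df a b y (c p.1) (c p.2)‖ ≤ 2
        · rw [if_pos hle]
          exact mul_le_mul_of_nonneg_right (measureReal_mono inter_subset_left)
            (hg0 _ (norm_nonneg _) hle)
        · rw [if_neg hle, mul_zero]
          have hemp : {ω : (ℝ × ℝ) × E3 | pos a b y (c p.1) ω.1 ∈ D k} ∩
              {ω : (ℝ × ℝ) × E3 | pos a b y (c p.2) ω.1 ∈ D k} = ∅ := by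
            ext ω
            simp only [mem_inter_iff, Set.mem_ofPred_eq, mem_empty_iff_false, iff_false, not_and]
            intro hω1 hω2
            refine hle ((hsepk k _ _ ω hω1 hω2).trans ?_)
            have e1 := mem_sphere_zero_iff_norm.1 (hPs k (hSm k hω1))
            have e2 := mem_sphere_zero_iff_norm.1 (hPs k (hSm k hω2))
            calc _ ≤ ‖S k (pos a b y (c p.1) ω.1)‖ + ‖S k (pos a b y (c p.2) ω.1)‖ :=
                  norm_sub_le _ _
              _ = 2 := by rw [e1, e2]; norm_num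
          rw [hemp, measureReal_empty, zero_mul])
      refine (Finset.sum_le_sum step1).trans ?_
      have hinner : ∀ i : Fin n', ∑ j ∈ Finset.univ.erase i,
          (if (1 - η) * ‖df a b y (c i) (c j)‖ ≤ 2 then g ‖df a b y (c i) (c j)‖ else 0) ≤
          Θ (c i).1 := by
        intro i
        rw [hΘ]
        simp only
        rw [← Finset.sum_filter, ← Finset.sum_filter]
        set F : Fin n' → Fin m × Fin m × (ℤ × ℤ) :=
          fun j => ((c i).1, (c j).1, (c i).2 - (c j).2) with hF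
        have hFinj : Function.Injective F := by
          intro j j' hjj
          simp only [hF, Prod.mk.injEq, true_and] at hjj
          exact hc (Prod.ext hjj.1 (sub_right_injective hjj.2))
        have himg : ∀ j ∈ (Finset.univ.erase i).filter
            (fun j => (1 - η) * ‖df a b y (c i) (c j)‖ ≤ 2), F j ∈ T.filter
            (fun q => q.1 = (c i).1) := by
          intro j hj
          rw [Finset.mem_filter] at hj ⊢
          exact ⟨(hT _).2 hj.2, rfl⟩
        calc ∑ j ∈ (Finset.univ.erase i).filter (fun j => (1 - η) * ‖df a b y (c i) (c j)‖ ≤ 2),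
              g ‖df a b y (c i) (c j)‖ =
            ∑ q ∈ ((Finset.univ.erase i).filter
              (fun j => (1 - η) * ‖df a b y (c i) (c j)‖ ≤ 2)).image F,
              g ‖y q.1 - y q.2.1 + lv a b q.2.2‖ := by
              rw [Finset.sum_image (fun _ _ _ _ h => hFinj h)]
              rfl
          _ ≤ _ := by
              refine Finset.sum_le_sum_of_subset_of_nonneg ?_ ?_
              · intro q hq
                obtain ⟨j, hj, rfl⟩ := Finset.mem_image.1 hq
                exact himg j hj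
              · intro q hq _
                exact hgT q (Finset.mem_filter.1 hq).1
      have hoff : ∑ p ∈ (Finset.univ : Finset (Fin n')).offDiag,
          π p.1 * (if (1 - η) * ‖df a b y (c p.1) (c p.2)‖ ≤ 2 then
            g ‖df a b y (c p.1) (c p.2)‖ else 0) =
          ∑ i, π i * ∑ j ∈ Finset.univ.erase i,
          (if (1 - η) * ‖df a b y (c i) (c j)‖ ≤ 2 then g ‖df a b y (c i) (c j)‖ else 0) := by
        simp only [Finset.mul_sum]
        rw [Finset.sum_sigma']
        refine Finset.sum_bij' (fun p _ => ⟨p.1, p.2⟩) (fun q _ => (q.1, q.2)) ?_ ?_ ?_ ?_ ?_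
        · intro p hp
          simp only [Finset.mem_sigma, Finset.mem_univ, Finset.mem_erase, true_and, and_true]
          exact (Finset.mem_offDiag.1 hp).2.2.symm
        · intro q hq
          simp only [Finset.mem_sigma, Finset.mem_univ, Finset.mem_erase, true_and, and_true] at hq
          simp only [Finset.mem_offDiag, Finset.mem_univ, true_and]
          exact hq.symm
        · intro p _; rfl
        · intro q _; rfl
        · intro p _; rfl
      rw [hoff]
      have hπ0 : ∀ i, 0 ≤ π i := fun i => measureReal_nonneg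
      refine (Finset.sum_le_sum fun i _ => mul_le_mul_of_nonneg_left (hinner i) (hπ0 i)).trans ?_
      rw [sum_fiber (fun i => (c i).1), Finset.mul_sum]
      refine Finset.sum_le_sum fun i _ => le_of_eq ?_
      have h5 : ∀ j, (if (c j).1 = i then π j * Θ (c j).1 else 0) =
          (if (c j).1 = i then Pm.real {ω | pos a b y (c j) ω.1 ∈ D k ∩ S k ⁻¹' univ} else 0) *
            Θ i := by
        intro j
        by_cases hj : (c j).1 = i
        · rw [if_pos hj, if_pos hj, hj, preimage_univ, inter_univ]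
        · rw [if_neg hj, if_neg hj, zero_mul]
      rw [Finset.sum_congr rfl fun j _ => h5 j, ← Finset.sum_mul, hfib k univ MeasurableSet.univ i,
        univ_inter]
    refine (Finset.sum_le_sum fun k _ => hk k).trans ?_
    rw [← Finset.sum_mul, ← Finset.mul_sum]
    have h8 : ∑ k, sig.real (P k) ≤ 1 := by
      rw [← measureReal_iUnion_fintype (fun j j' h => hPd j j' h) hP]
      exact measureReal_le_one
    have hΘsum : ∑ i, Θ i = ∑ q ∈ T, g ‖y q.1 - y q.2.1 + lv a b q.2.2‖ := by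
      rw [hΘ, Finset.sum_comm]
      refine Finset.sum_congr rfl fun q _ => ?_
      rw [Finset.sum_ite_eq]
      simp
    rw [hΘsum]
    have h9 : 0 ≤ ∑ q ∈ T, g ‖y q.1 - y q.2.1 + lv a b q.2.2‖ := Finset.sum_nonneg hgT
    refine mul_le_mul_of_nonneg_right ?_ h9
    have h10 : (0 : ℝ) ≤ N₁ / m := by positivity
    nlinarith
  · rw [Finset.sum_congr rfl fun k _ => (hU k).2, ← Finset.sum_mul]
    refine mul_le_mul_of_nonneg_right hIκ ?_
    refine intervalIntegral.integral_nonneg hρ.le fun r hr => ?_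
    refine mul_nonneg (mul_nonneg (K_nonneg hr.1) (pow_nonneg ?_ M)) ?_
    · linarith [hr.2]
    · linarith [hr.1]

end Pool.Agent.Helper51.RT
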