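import Pool.Agent.Helper42.RZ.Basic
import Pool.Agent.Helper42.RZ2.Basic

/-!
# Project RT (MP_e739cf_an): the rate of convergence of the second order term, `1 ≤ s < 2`

THEOREM. For `1 ≤ s < 2` there are `c < 0` and `A` with
`|minE s N - Cc s N² - c N ^ (1 + s / 2)| ≤ A N ^ (1 + s / 2 - (2 - s) / 16)` for all `N ≥ 1`.

`K s r = r ^ (-s)`, `PS x k = ∑_{i ≠ j} k |x i - x j|`, `Conf x` = distinct points of the unit
sphere, `minE s N` the minimal energy, `Cc s` the continuous energy, `bg k` the mean of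
`k |x - y|` (all in `Helper42/RZ/Defs.lean`); `ph s w r = r ^ (-s) exp (-w r)`, `Per m a b y`
periodic configuration of density one, `AS s w a b y` its damped energy with the background `bk s w`
subtracted (`Helper42/RZ2/Defs.lean`).

The constants in the geometric lemmas of Helper42, Helper32 and Helper71 are made explicit
(`ε₀ = η κ ^ 2 / 200`); for `s ≥ 1` the damping `exp (-w r)` costs only `O(w)`.
-/

set_option autoImplicit false

open MeasureTheory Set Metric Filter Topology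
open scoped ENNReal

namespace Pool.Agent.Helper51.RT

open Pool.Agent.Helper42.RZ Pool.Agent.Helper42.RZ2

/-- Patches of the sphere which are images of patches of the sphere (RZ-S10), explicit. -/
def PatchOK (η κ ε₀ : ℝ) : Prop :=
    ∀ A : ℝ, 1 ≤ A → ∀ ρ : ℝ, 0 < ρ → ρ * A ≤ ε₀ →
    ∃ (n : ℕ) (P D I : Fin n → Set E3) (S : Fin n → E3 → E3),
      (∀ k, MeasurableSet (P k)) ∧ (∀ k, MeasurableSet (D k)) ∧ (∀ k, MeasurableSet (I k)) ∧
      (∀ k, Measurable (S k)) ∧ (∀ k k', k ≠ k' → Disjoint (P k) (P k')) ∧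
      (∀ k, P k ⊆ sphere 0 1) ∧ (∀ k, D k ⊆ sphere 0 1) ∧ (∀ k, MapsTo (S k) (D k) (P k)) ∧
      (∀ k, ∀ y ∈ D k, ∀ y' ∈ D k, (1 - η) / A * ‖y - y'‖ ≤ ‖S k y - S k y'‖) ∧
      (∀ k (B : Set E3), MeasurableSet B →
        sig.real (D k ∩ S k ⁻¹' B) = A ^ 2 * sig.real (B ∩ P k)) ∧
      (∀ k, I k ⊆ P k) ∧ (∀ k, ∀ x ∈ I k, ∀ y, ‖y‖ = 1 → ‖x - y‖ < ρ → y ∈ P k) ∧
      1 - κ ≤ ∑ k, sig.real (I k)

/-- Patches of the sphere which are images of flat patches (RZ2-R8), explicit. -/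
def FlatOK (η κ ε₀ : ℝ) : Prop :=
    ∀ ρ : ℝ, 0 < ρ → ρ ≤ ε₀ →
    ∃ (n : ℕ) (P I : Fin n → Set E3) (D : Fin n → Set ℂ) (S : Fin n → ℂ → E3),
      (∀ k, MeasurableSet (P k)) ∧ (∀ k, MeasurableSet (D k)) ∧ (∀ k, MeasurableSet (I k)) ∧
      (∀ k, Measurable (S k)) ∧ (∀ k k', k ≠ k' → Disjoint (P k) (P k')) ∧
      (∀ k, P k ⊆ sphere 0 1) ∧ (∀ k, Bornology.IsBounded (D k)) ∧
      (∀ k, MapsTo (S k) (D k) (P k)) ∧
      (∀ k, ∀ y ∈ D k, ∀ y' ∈ D k, (1 - η) * ‖y - y'‖ ≤ ‖S k y - S k y'‖) ∧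
      (∀ k (B : Set E3), MeasurableSet B →
        (4 * Real.pi)⁻¹ * (volume : Measure ℂ).real (D k ∩ S k ⁻¹' B) = sig.real (B ∩ P k)) ∧
      (∀ k, I k ⊆ P k) ∧ (∀ k, ∀ x ∈ I k, ∀ y, ‖y‖ = 1 → ‖x - y‖ < ρ → y ∈ P k) ∧
      1 - κ ≤ ∑ k, sig.real (I k)

/-- the normalised second order term -/
noncomputable def fN (s : ℝ) (N : ℕ) : ℝ :=
  (minE s N - Cc s * (N : ℝ) ^ 2) / (N : ℝ) ^ (1 + s / 2)

end Pool.Agent.Helper51.RT
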