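import Pool.Agent.Helper51.RT.Defs
import Pool.Agent.Helper42.RZ.St.S13

/-! # RT-E: extraction of a configuration with the right number of points, explicit

Copy of the proof of `Helper51.RZ.extraction` with an explicit bound for the number of points. -/

set_option autoImplicit false

open MeasureTheory Set Metric Filter Topology
open scoped ENNReal

namespace Pool.Agent.Helper51.RT

open Pool.Agent.Helper42.RZ Pool.Agent.Helper51.RZ

theorem extraction_core {s : ℝ} (h0 : 0 < s) (h2 : s < 2) {c : ℝ} (hc : 0 < c)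
    (hm : ∀ N : ℕ, -(c * (N : ℝ) ^ (1 + s / 2)) ≤ minE s N - Cc s * (N : ℝ) ^ 2)
    {δ : ℝ} (hδ : 0 < δ) (hδ1 : δ < 1 / 4) (N₁ : ℕ) (h4N : (4 : ℝ) ≤ N₁)
    (hT : ∀ t : ℝ, (N₁ : ℝ) ≤ t → c * t ^ (1 + s / 2) ≤ Cc s * (δ / (1 + δ)) ^ 2 * t ^ 2)
    (N : ℕ) (hN : (1 - 2 * δ) * N₁ ≤ N) (hN' : (N : ℝ) ≤ (1 - δ) * N₁) (N' : ℕ) :
    ((1 + δ) / (1 - 2 * δ)) ^ 4 * (minE s N - Cc s * (N : ℝ) ^ 2) ≤
        minE s N' - 2 * N₁ * Cc s * N' + Cc s * (N₁ : ℝ) ^ 2 := by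
  have hC := Cc_pos h2
  set κ : ℝ := Cc s * (δ / (1 + δ)) ^ 2 with hκ
  have hκ0 : 0 < κ := by positivity
  have h12 : (0 : ℝ) < 1 - 2 * δ := by linarith
  have hN2 : (2 : ℝ) ≤ N := by
    have : (1 - 2 * δ) * 4 ≤ (1 - 2 * δ) * N₁ := mul_le_mul_of_nonneg_left (by linarith) h12.le
    nlinarith
  have hN2' : 2 ≤ N := by exact_mod_cast hN2
  set q : ℝ := (1 + δ) / (1 - 2 * δ) with hq
  have hq1 : 1 ≤ q := by
    rw [hq, le_div_iff₀ h12]
    linarith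
  have hmN : minE s N - Cc s * (N : ℝ) ^ 2 ≤ 0 := by
    have h1 := minE_le h0 h2 N
    have h3 : 0 ≤ Cc s * N := by positivity
    nlinarith
  have hA : q ^ 4 * (minE s N - Cc s * (N : ℝ) ^ 2) ≤ 0 :=
    mul_nonpos_of_nonneg_of_nonpos (by positivity) hmN
  have hrw : minE s N' - 2 * N₁ * Cc s * N' + Cc s * (N₁ : ℝ) ^ 2 =
      (minE s N' - Cc s * (N' : ℝ) ^ 2) + Cc s * ((N' : ℝ) - N₁) ^ 2 := by ring
  rw [hrw]
  have hm' := hm N'
  rcases lt_or_ge N' N with h | h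
  · -- few points
    have h1 : (N' : ℝ) ≤ N := by exact_mod_cast h.le
    have h3 : c * (N' : ℝ) ^ (1 + s / 2) ≤ c * (N₁ : ℝ) ^ (1 + s / 2) := by
      refine mul_le_mul_of_nonneg_left ?_ hc.le
      refine Real.rpow_le_rpow (by positivity) ?_ (by linarith)
      have : (1 - δ) * N₁ ≤ N₁ := by nlinarith
      linarith
    have h4 := hT N₁ le_rfl
    have h5 : κ * (N₁ : ℝ) ^ 2 ≤ Cc s * ((N' : ℝ) - N₁) ^ 2 := by
      have h6 : δ / (1 + δ) * N₁ ≤ N₁ - N' := by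
        have h7 : δ / (1 + δ) ≤ δ := div_le_self hδ.le (by linarith)
        have h8 : δ / (1 + δ) * N₁ ≤ δ * N₁ := mul_le_mul_of_nonneg_right h7 (by positivity)
        linarith
      have h9 : (δ / (1 + δ) * N₁) ^ 2 ≤ (N₁ - N') ^ 2 := pow_le_pow_left₀ (by positivity) h6 2
      calc κ * (N₁ : ℝ) ^ 2 = Cc s * (δ / (1 + δ) * N₁) ^ 2 := by rw [hκ]; ring
        _ ≤ Cc s * (N₁ - N') ^ 2 := mul_le_mul_of_nonneg_left h9 hC.le
        _ = _ := by ring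
    linarith
  · rcases le_or_gt (N' : ℝ) ((1 + δ) * N₁) with h' | h'
    · -- comparable number of points
      have h1 : (N : ℝ) ≤ N' := by exact_mod_cast h
      have hmono := minE_mono (s := s) hN2' h
      have hpos : 0 < (N : ℝ) * (N - 1) := mul_pos (by linarith) (by linarith)
      have hpos' : 0 < (N' : ℝ) * (N' - 1) := mul_pos (by linarith) (by linarith)
      rw [div_le_div_iff₀ hpos hpos'] at hmono
      -- `m(N) * N' (N' - 1) ≤ m(N') * N (N - 1)`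
      have h3 : (minE s N - Cc s * (N : ℝ) ^ 2) * ((N' : ℝ) * (N' - 1)) ≤
          (minE s N' - Cc s * (N' : ℝ) ^ 2) * ((N : ℝ) * (N - 1)) := by
        have h4 : Cc s * (N' : ℝ) ^ 2 * ((N : ℝ) * (N - 1)) ≤
            Cc s * (N : ℝ) ^ 2 * ((N' : ℝ) * (N' - 1)) := by
          have h5 : (N' : ℝ) ^ 2 * ((N : ℝ) * (N - 1)) ≤ (N : ℝ) ^ 2 * ((N' : ℝ) * (N' - 1)) := by
            have h6 : (N : ℝ) ^ 2 * ((N' : ℝ) * (N' - 1)) - (N' : ℝ) ^ 2 * ((N : ℝ) * (N - 1)) =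
                N * N' * (N' - N) := by ring
            have h7 : 0 ≤ (N : ℝ) * N' * (N' - N) := by
              have : (0 : ℝ) ≤ N' - N := by linarith
              positivity
            linarith
          have := mul_le_mul_of_nonneg_left h5 hC.le
          linarith
        linarith
      -- `N' (N' - 1) ≤ q ^ 4 * N (N - 1)`
      have h8 : (N' : ℝ) ≤ q * N := by
        have h9 : (1 + δ) * N₁ = q * ((1 - 2 * δ) * N₁) := by
          rw [hq, div_mul_eq_mul_div, eq_div_iff h12.ne']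
          ring
        rw [h9] at h'
        exact h'.trans (mul_le_mul_of_nonneg_left hN (by linarith))
      have h10 : (N' : ℝ) - 1 ≤ q ^ 2 * (N - 1) := by
        have h15 : 1 ≤ q * ((N : ℝ) - 1) := one_le_mul_of_one_le_of_one_le hq1 (by linarith)
        nlinarith [mul_nonneg (sub_nonneg.2 hq1) (by linarith : (0 : ℝ) ≤ q * ((N : ℝ) - 1) - 1)]
      have h11 : (N' : ℝ) * (N' - 1) ≤ q ^ 4 * ((N : ℝ) * (N - 1)) := by
        calc (N' : ℝ) * (N' - 1) ≤ (q * N) * (q ^ 2 * (N - 1)) :=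
              mul_le_mul h8 h10 (by linarith) (by positivity)
          _ = q ^ 3 * (N * (N - 1)) := by ring
          _ ≤ q ^ 4 * (N * (N - 1)) :=
              mul_le_mul_of_nonneg_right (pow_le_pow_right₀ hq1 (by norm_num)) hpos.le
      have h12' : q ^ 4 * (minE s N - Cc s * (N : ℝ) ^ 2) * ((N : ℝ) * (N - 1)) ≤
          (minE s N' - Cc s * (N' : ℝ) ^ 2) * ((N : ℝ) * (N - 1)) := by
        have := mul_le_mul_of_nonpos_left h11 hmN
        linarith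
      have h13 := le_of_mul_le_mul_right h12' hpos
      have h14 : 0 ≤ Cc s * ((N' : ℝ) - N₁) ^ 2 := by positivity
      linarith
    · -- many points
      have hN'0 : (N₁ : ℝ) ≤ (N' : ℝ) := by
        have : (N₁ : ℝ) ≤ (1 + δ) * N₁ := by nlinarith
        linarith
      have h4 := hT N' hN'0
      have h5 : κ * (N' : ℝ) ^ 2 ≤ Cc s * ((N' : ℝ) - N₁) ^ 2 := by
        have h6 : δ / (1 + δ) * N' ≤ N' - N₁ := by
          have h7 : (N₁ : ℝ) ≤ N' / (1 + δ) := by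
            rw [le_div_iff₀ (by linarith)]
            linarith
          have h8 : δ / (1 + δ) * N' = N' - N' / (1 + δ) := by
            field_simp
            ring
          linarith
        have h9 : (δ / (1 + δ) * N') ^ 2 ≤ ((N' : ℝ) - N₁) ^ 2 :=
          pow_le_pow_left₀ (by positivity) h6 2
        calc κ * (N' : ℝ) ^ 2 = Cc s * (δ / (1 + δ) * N') ^ 2 := by rw [hκ]; ring
          _ ≤ Cc s * ((N' : ℝ) - N₁) ^ 2 := mul_le_mul_of_nonneg_left h9 hC.le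
      linarith


/-- explicit extraction -/
theorem extraction_ex {s : ℝ} (h0 : 0 < s) (h2 : s < 2) : ∃ A : ℝ, 1 ≤ A ∧ ∀ δ : ℝ, 0 < δ →
    δ < 1 / 4 → ∀ N₁ : ℕ, 1 ≤ N₁ → A ≤ δ * (N₁ : ℝ) ^ ((2 - s) / 4) →
    ∀ N : ℕ, (1 - 2 * δ) * N₁ ≤ N → (N : ℝ) ≤ (1 - δ) * N₁ → ∀ N' : ℕ,
    ((1 + δ) / (1 - 2 * δ)) ^ 4 * (minE s N - Cc s * (N : ℝ) ^ 2) ≤
        minE s N' - 2 * N₁ * Cc s * N' + Cc s * (N₁ : ℝ) ^ 2 := by
  obtain ⟨c, hc, hm⟩ := m_lower h0 h2
  have hC := Cc_pos h2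
  refine ⟨1 + 4 * (c / Cc s), by
    have : 0 < c / Cc s := by positivity
    linarith, fun δ hδ hδ1 N₁ hN₁ hA N hN hN' N' => ?_⟩
  have hN₁' : (1 : ℝ) ≤ N₁ := by exact_mod_cast hN₁
  have hq : 0 < c / Cc s := by positivity
  have hx1 : (1 : ℝ) ≤ (N₁ : ℝ) ^ ((2 - s) / 4) :=
    Real.one_le_rpow hN₁' (by linarith)
  set X : ℝ := (N₁ : ℝ) ^ ((2 - s) / 4) with hX
  have hX1 : 1 ≤ δ * X := by linarith
  have h4N : (4 : ℝ) ≤ N₁ := by
    have h5 : X ≤ (N₁ : ℝ) ^ (1 : ℝ) := Real.rpow_le_rpow_of_exponent_le hN₁' (by linarith)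
    rw [Real.rpow_one] at h5
    nlinarith
  refine extraction_core h0 h2 hc hm hδ hδ1 N₁ h4N ?_ N hN hN' N'
  intro t ht
  have ht1 : 1 ≤ t := hN₁'.trans ht
  have ht0 : 0 < t := by linarith
  have h5 : X ≤ t ^ ((2 - s) / 4) := Real.rpow_le_rpow (by linarith) ht (by linarith)
  have h6 : 1 + 4 * (c / Cc s) ≤ (δ * t ^ ((2 - s) / 4)) := by
    have := mul_le_mul_of_nonneg_left h5 hδ.le
    linarith
  have h7 : 4 * (c / Cc s) ≤ (δ * t ^ ((2 - s) / 4)) ^ 2 := by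
    have h8 : 1 + 4 * (c / Cc s) ≤ (δ * t ^ ((2 - s) / 4)) ^ 2 := by
      nlinarith
    linarith
  have h8 : (t ^ ((2 - s) / 4)) ^ 2 * t ^ (1 + s / 2) = t ^ 2 := by
    rw [← Real.rpow_natCast (t ^ ((2 - s) / 4)) 2, ← Real.rpow_mul ht0.le, ← Real.rpow_add ht0,
      ← Real.rpow_natCast t 2]
    congr 1
    push_cast
    ring
  have h9 : δ ^ 2 / 4 ≤ (δ / (1 + δ)) ^ 2 := by
    rw [div_pow]
    refine div_le_div_of_nonneg_left (by positivity) (by positivity) ?_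
    nlinarith
  have h10 : 0 < t ^ (1 + s / 2) := Real.rpow_pos_of_pos ht0 _
  have h11 : c ≤ Cc s * (δ ^ 2 / 4) * (t ^ ((2 - s) / 4)) ^ 2 := by
    have h12 : 4 * (c / Cc s) * (Cc s / 4) ≤ (δ * t ^ ((2 - s) / 4)) ^ 2 * (Cc s / 4) :=
      mul_le_mul_of_nonneg_right h7 (by positivity)
    have h13 : 4 * (c / Cc s) * (Cc s / 4) = c := by field_simp
    rw [h13] at h12
    refine h12.trans (le_of_eq ?_)
    ring
  calc c * t ^ (1 + s / 2) ≤ (Cc s * (δ ^ 2 / 4) * (t ^ ((2 - s) / 4)) ^ 2) * t ^ (1 + s / 2) :=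
        mul_le_mul_of_nonneg_right h11 h10.le
    _ = Cc s * (δ ^ 2 / 4) * t ^ 2 := by rw [mul_assoc, h8]
    _ ≤ Cc s * (δ / (1 + δ)) ^ 2 * t ^ 2 :=
        mul_le_mul_of_nonneg_right (mul_le_mul_of_nonneg_left h9 hC.le) (by positivity)

end Pool.Agent.Helper51.RT
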