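import Pool.Agent.Helper51.RT.Defs
import Pool.Agent.Helper46.RZ.S6b
import Pool.Agent.Helper42.RZ.St.S12

/-! # RT-F: the damping costs only `O(w)` on the sphere for `s ≥ 1` -/

set_option autoImplicit false

open MeasureTheory Set Metric Filter Topology
open scoped ENNReal

namespace Pool.Agent.Helper51.RT

open Pool.Agent.Helper42.RZ
open Pool.Agent.Helper46.RZ (gam gam_integral gam_integrable intOn_min)
open Pool.Agent.Helper81.RZ (K_mul_integrable)

/-- positive version of the identity -/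
noncomputable def pv (v : ℝ) : ℝ := if 0 < v then v else 1

theorem pv_meas : Measurable pv := Measurable.ite measurableSet_Ioi measurable_id measurable_const

theorem pv_pos (v : ℝ) : 0 < pv v := by
  unfold pv
  split_ifs with h
  · exact h
  · exact one_pos

theorem pv_eq {v : ℝ} (h : 0 < v) : pv v = v := if_pos h

theorem int_exp {w₀ : ℝ} (hw : 0 < w₀) {r : ℝ} (hr : 0 < r) :
    ∫ v, Real.exp (-pv v * r) ∂((volume : Measure ℝ).restrict (Ioc 0 w₀)) =
      (1 - Real.exp (-w₀ * r)) / r := by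
  have h1 : ∫ v in Ioc (0 : ℝ) w₀, Real.exp (-pv v * r) = ∫ v in (0 : ℝ)..w₀, Real.exp (-r * v) := by
    rw [intervalIntegral.integral_of_le hw.le]
    refine setIntegral_congr_fun measurableSet_Ioc fun v hv => ?_
    simp only [pv_eq hv.1]
    congr 1
    ring
  rw [h1]
  have h2 : ∀ v ∈ uIcc (0 : ℝ) w₀, HasDerivAt (fun v => -(Real.exp (-r * v) / r))
      (Real.exp (-r * v)) v := by
    intro v _
    have h3 : HasDerivAt (fun v => -r * v) (-r) v := by
      simpa using (hasDerivAt_id v).const_mul (-r)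
    have h4 := (h3.exp.div_const r).neg
    refine h4.congr_deriv ?_
    field_simp
  rw [intervalIntegral.integral_eq_sub_of_hasDerivAt h2
    ((by fun_prop : Continuous fun v : ℝ => Real.exp (-r * v)).intervalIntegrable _ _)]
  have h5 : -r * w₀ = -w₀ * r := by ring
  rw [h5, mul_zero, Real.exp_zero]
  ring

theorem F_gen {Ω : Type} [MeasurableSpace Ω] (μ : Measure Ω) [SigmaFinite μ] (W₁ : Ω → ℝ)
    (hW : Measurable W₁) (hW0 : ∀ u, 0 ≤ W₁ u) {w₀ : ℝ} (hw₀ : 0 < w₀) (A : Ω → ℝ)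
    (hA : Integrable A μ) (hA1 : ∀ u, ∀ v : ℝ, 0 < v → min 1 ((W₁ u + v) ^ 2)⁻¹ ≤ A u)
    {N : ℕ} (x : Fin N → E3) (hx : Conf x) (k : ℝ → ℝ)
    (hk : ∀ r, 0 < r → k r = (∫ u, Real.exp (-W₁ u * r) ∂μ) * ((1 - Real.exp (-w₀ * r)) / r))
    (B : Ω → ℝ) (hB : Integrable B μ)
    (hB1 : ∀ u, ∀ v : ℝ, 0 < v → min (N : ℝ) ((N : ℝ) ^ 2 / (2 * (W₁ u + v) ^ 2)) ≤ B u) :
    (N : ℝ) ^ 2 * bg k - PS x k ≤ w₀ * ∫ u, B u ∂μ := by
  set ν : Measure ℝ := (volume : Measure ℝ).restrict (Ioc 0 w₀) with hν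
  have hWm : Measurable fun z : Ω × ℝ => W₁ z.1 + pv z.2 :=
    (hW.comp measurable_fst).add (pv_meas.comp measurable_snd)
  have hpos : ∀ z : Ω × ℝ, 0 < W₁ z.1 + pv z.2 := fun z =>
    add_pos_of_nonneg_of_pos (hW0 z.1) (pv_pos z.2)
  have hA0 : ∀ u, 0 ≤ A u := fun u => le_trans (by positivity) (hA1 u 1 one_pos)
  have hint : Integrable (fun z : Ω × ℝ => min 1 ((W₁ z.1 + pv z.2) ^ 2)⁻¹) (μ.prod ν) := by
    refine (hA.comp_fst ν).mono' (Measurable.aestronglyMeasurable (by fun_prop))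
      (Eventually.of_forall fun z => ?_)
    have h1 := hpos z
    rw [Real.norm_eq_abs, abs_of_nonneg (by positivity)]
    exact hA1 z.1 (pv z.2) (pv_pos z.2)
  have key := lb_general (μ.prod ν) (fun z => W₁ z.1 + pv z.2) hWm hpos hint x hx
  have hker : ∀ r : ℝ, 0 < r →
      ∫ z, Real.exp (-(W₁ z.1 + pv z.2) * r) ∂(μ.prod ν) = k r := by
    intro r hr
    have h1 : ∀ z : Ω × ℝ, Real.exp (-(W₁ z.1 + pv z.2) * r) =
        Real.exp (-W₁ z.1 * r) * Real.exp (-pv z.2 * r) := by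
      intro z
      rw [← Real.exp_add]
      congr 1
      ring
    simp only [h1]
    rw [integral_prod_mul (fun u => Real.exp (-W₁ u * r)) (fun v => Real.exp (-pv v * r)),
      hk r hr, hν, int_exp hw₀ hr]
  have hbg : bg (fun r => ∫ z, Real.exp (-(W₁ z.1 + pv z.2) * r) ∂(μ.prod ν)) = bg k := by
    unfold bg
    refine intervalIntegral.integral_congr_ae ?_
    refine Filter.Eventually.of_forall fun r hr => ?_
    rw [uIoc_of_le (by norm_num)] at hr
    simp only [hker r hr.1]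
  have hPS : PS x (fun r => ∫ z, Real.exp (-(W₁ z.1 + pv z.2) * r) ∂(μ.prod ν)) = PS x k := by
    unfold PS
    refine Finset.sum_congr rfl fun p hp => ?_
    have hne : p.1 ≠ p.2 := (Finset.mem_offDiag.1 hp).2.2
    refine hker _ ?_
    rw [norm_pos_iff, sub_ne_zero]
    exact fun h => hne (hx.1 h)
  rw [hbg, hPS] at key
  refine key.trans ?_
  have h2 : ∫ z, min (N : ℝ) ((N : ℝ) ^ 2 / (2 * (W₁ z.1 + pv z.2) ^ 2)) ∂(μ.prod ν) ≤
      ∫ z : Ω × ℝ, B z.1 ∂(μ.prod ν) := by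
    refine integral_mono ?_ (hB.comp_fst ν) fun z => hB1 z.1 (pv z.2) (pv_pos z.2)
    refine (hB.comp_fst ν).mono' (Measurable.aestronglyMeasurable (by fun_prop))
      (Eventually.of_forall fun z => ?_)
    have h1 := hpos z
    rw [Real.norm_eq_abs, abs_of_nonneg (by positivity)]
    exact hB1 z.1 (pv z.2) (pv_pos z.2)
  refine h2.trans (le_of_eq ?_)
  have h3 := integral_prod_mul (μ := μ) (ν := ν) B (fun _ => (1 : ℝ))
  simp only [mul_one] at h3
  rw [h3, hν]
  simp [hw₀.le]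
  ring

/-- the self-energy integral -/
theorem gam_min {s : ℝ} (h0 : 0 < s) (h2 : s < 2) : ∃ c : ℝ, 0 ≤ c ∧ ∀ N : ℕ, 1 ≤ N →
    Integrable (fun w => min (N : ℝ) ((N : ℝ) ^ 2 / (2 * (pv w) ^ 2))) (gam s) ∧
    ∫ w, min (N : ℝ) ((N : ℝ) ^ 2 / (2 * (pv w) ^ 2)) ∂(gam s) ≤ c * (N : ℝ) ^ (1 + s / 2) := by
  have hG : 0 < Real.Gamma s := Real.Gamma_pos_of_pos h0
  set I : ℝ := ∫ w in Ioi (0 : ℝ), w ^ (s - 1) * min 1 ((2 * w ^ 2)⁻¹) with hI
  have hI0 : 0 ≤ I := by
    refine setIntegral_nonneg measurableSet_Ioi fun w hw => ?_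
    have hw0 : (0 : ℝ) < w := hw
    positivity
  refine ⟨I / Real.Gamma s, by positivity, fun N hN => ?_⟩
  have hN0 : (0 : ℝ) < N := by exact_mod_cast hN
  have hint : Integrable (fun w => min 1 ((pv w) ^ 2)⁻¹) (gam s) := by
    refine gam_integrable h0 _ ?_
    have h : IntegrableOn (fun w : ℝ => (Real.Gamma s)⁻¹ * (w ^ (s - 1) * min 1 ((w ^ 2)⁻¹)))
        (Ioi (0 : ℝ)) := (intOn_min h0 h2).const_mul ((Real.Gamma s)⁻¹)
    refine h.congr_fun (fun w hw => ?_) measurableSet_Ioi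
    have hw0 : (0 : ℝ) < w := hw
    simp only [pv_eq hw0]
    rw [div_eq_mul_inv]
    ring
  have hpm := pv_meas
  constructor
  · refine (hint.const_mul (max (N : ℝ) ((N : ℝ) ^ 2))).mono'
      (Measurable.aestronglyMeasurable (by fun_prop))
      (Eventually.of_forall fun w => ?_)
    have hw := pv_pos w
    rw [Real.norm_eq_abs, abs_of_nonneg (by positivity)]
    have h3 : 0 < (pv w ^ 2)⁻¹ := by positivity
    rcases le_total 1 ((pv w) ^ 2)⁻¹ with h | h
    · rw [min_eq_left h, mul_one]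
      exact (min_le_left _ _).trans (le_max_left _ _)
    · rw [min_eq_right h]
      refine (min_le_right _ _).trans ?_
      have h4 : (N : ℝ) ^ 2 / (2 * pv w ^ 2) ≤ (N : ℝ) ^ 2 * (pv w ^ 2)⁻¹ := by
        rw [← div_eq_mul_inv]
        apply div_le_div_of_nonneg_left (by positivity) (by positivity)
        nlinarith [sq_nonneg (pv w)]
      exact h4.trans (mul_le_mul_of_nonneg_right (le_max_right _ _) h3.le)
  · rw [gam_integral h0]
    apply le_of_eq
    set b : ℝ := Real.sqrt N with hb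
    have hb0 : 0 < b := Real.sqrt_pos.2 hN0
    have hb2 : b ^ 2 = N := Real.sq_sqrt hN0.le
    set g : ℝ → ℝ := fun w => (w ^ (s - 1) / Real.Gamma s) *
      min (N : ℝ) ((N : ℝ) ^ 2 / (2 * w ^ 2)) with hg
    have e1 : ∫ w in Ioi (0 : ℝ), (w ^ (s - 1) / Real.Gamma s) *
        min (N : ℝ) ((N : ℝ) ^ 2 / (2 * (pv w) ^ 2)) = ∫ w in Ioi (0 : ℝ), g w := by
      refine setIntegral_congr_fun measurableSet_Ioi fun w hw => ?_
      have hw0 : (0 : ℝ) < w := hw
      simp only [pv_eq hw0, hg]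
    have e2 := integral_comp_mul_left_Ioi g 0 hb0
    rw [mul_zero, smul_eq_mul] at e2
    have e3 : ∫ w in Ioi (0 : ℝ), g w = b * ∫ w in Ioi (0 : ℝ), g (b * w) := by
      rw [e2]
      field_simp
    have e4 : ∫ w in Ioi (0 : ℝ), g (b * w) =
        ∫ w in Ioi (0 : ℝ), (b ^ (s - 1) * N / Real.Gamma s) *
          (w ^ (s - 1) * min 1 ((2 * w ^ 2)⁻¹)) := by
      refine setIntegral_congr_fun measurableSet_Ioi fun w hw => ?_
      have hw0 : (0 : ℝ) < w := hw
      simp only [hg]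
      have e5 : (N : ℝ) ^ 2 / (2 * (b * w) ^ 2) = N * (2 * w ^ 2)⁻¹ := by
        rw [mul_pow, hb2]
        field_simp
      have e6 : min (N : ℝ) (N * (2 * w ^ 2)⁻¹) = N * min 1 ((2 * w ^ 2)⁻¹) := by
        rw [mul_min_of_nonneg _ _ hN0.le, mul_one]
      rw [e5, e6, Real.mul_rpow hb0.le hw0.le]
      ring
    rw [e1, e3, e4, integral_const_mul, ← hI]
    have e7 : (N : ℝ) ^ (1 + s / 2) = N * b ^ s := by
      rw [Real.rpow_add hN0, Real.rpow_one, hb, Real.sqrt_eq_rpow, ← Real.rpow_mul hN0.le]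
      congr 2
      ring
    have e8 : b * b ^ (s - 1) = b ^ s := by
      rw [Real.rpow_sub_one hb0.ne']
      field_simp
    rw [e7]
    calc b * (b ^ (s - 1) * N / Real.Gamma s * I)
        = (b * b ^ (s - 1)) * N / Real.Gamma s * I := by ring
      _ = I / Real.Gamma s * (N * b ^ s) := by rw [e8]; ring

theorem gam_K {s : ℝ} (h0 : 0 < s) {r : ℝ} (hr : 0 < r) :
    ∫ w, Real.exp (-pv w * r) ∂(gam s) = K s r := by
  rw [gam_integral h0]
  have e1 : ∫ w in Ioi (0 : ℝ), (w ^ (s - 1) / Real.Gamma s) * Real.exp (-pv w * r) =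
      ∫ w in Ioi (0 : ℝ), (Real.Gamma s)⁻¹ * (w ^ (s - 1) * Real.exp (-(r * w))) := by
    refine setIntegral_congr_fun measurableSet_Ioi fun w hw => ?_
    have hw0 : (0 : ℝ) < w := hw
    simp only [pv_eq hw0]
    rw [show -w * r = -(r * w) by ring]
    rw [div_eq_mul_inv]
    ring
  have hG : 0 < Real.Gamma s := Real.Gamma_pos_of_pos h0
  rw [e1, integral_const_mul, Real.integral_rpow_mul_exp_neg_mul_Ioi h0 hr, K]
  rw [one_div, Real.inv_rpow hr.le, Real.rpow_neg hr.le]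
  field_simp

theorem F_diff {s : ℝ} (h1 : 1 ≤ s) (h2 : s < 2) : ∃ c : ℝ, 0 < c ∧ ∀ (N : ℕ) (x : Fin N → E3),
    1 ≤ N → Conf x → ∀ w₀ : ℝ, 0 < w₀ →
      (N : ℝ) ^ 2 * bg (fun r => K s r * (1 - Real.exp (-w₀ * r))) -
        PS x (fun r => K s r * (1 - Real.exp (-w₀ * r))) ≤
      c * (w₀ * (N : ℝ) ^ (1 + (s - 1) / 2)) := by
  rcases eq_or_lt_of_le h1 with h | h
  · -- `s = 1`
    subst h
    refine ⟨1, one_pos, fun N x hN hx w₀ hw₀ => ?_⟩
    have hN0 : (0 : ℝ) < N := by exact_mod_cast hN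
    have key := F_gen (Measure.dirac (0 : ℝ)) (fun _ => (0 : ℝ)) measurable_const
      (fun _ => le_rfl) hw₀ (fun _ => (1 : ℝ)) (integrable_const _)
      (fun _ v _ => min_le_left _ _) x hx (fun r => K 1 r * (1 - Real.exp (-w₀ * r)))
      (fun r hr => by
        simp only [neg_zero, zero_mul, Real.exp_zero, integral_const, smul_eq_mul, mul_one,
          probReal_univ, one_mul]
        rw [K, Real.rpow_neg_one]
        field_simp)
      (fun _ => (N : ℝ)) (integrable_const _) (fun _ v _ => min_le_left _ _)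
    refine key.trans (le_of_eq ?_)
    simp
  · obtain ⟨c, hc, hcN⟩ := gam_min (s := s - 1) (by linarith) (by linarith)
    refine ⟨c + 1, by linarith, fun N x hN hx w₀ hw₀ => ?_⟩
    have hN0 : (0 : ℝ) < N := by exact_mod_cast hN
    obtain ⟨hi1, hi2⟩ := hcN N hN
    obtain ⟨hi3, -⟩ := hcN 2 (by norm_num)
    have hs1 : (0 : ℝ) < s - 1 := by linarith
    have key := F_gen (gam (s - 1)) pv pv_meas (fun u => (pv_pos u).le) hw₀
      (fun w => min ((2 : ℕ) : ℝ) (((2 : ℕ) : ℝ) ^ 2 / (2 * (pv w) ^ 2))) hi3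
      (fun u v hv => by
        have h3 := pv_pos u
        refine min_le_min (by norm_num) ?_
        rw [inv_eq_one_div]
        push_cast
        rw [div_le_div_iff₀ (by positivity) (by positivity)]
        nlinarith) x hx (fun r => K s r * (1 - Real.exp (-w₀ * r)))
      (fun r hr => by
        rw [gam_K hs1 hr]
        have h4 : K (s - 1) r = K s r * r := by
          rw [K, K, show -(s - 1) = -s + 1 by ring, Real.rpow_add_one hr.ne']
        rw [h4]
        field_simp)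
      (fun w => min (N : ℝ) ((N : ℝ) ^ 2 / (2 * (pv w) ^ 2))) hi1
      (fun u v hv => by
        have h3 := pv_pos u
        refine min_le_min le_rfl ?_
        refine div_le_div_of_nonneg_left (by positivity) (by positivity) ?_
        nlinarith)
    refine key.trans ?_
    have hP : 0 ≤ (N : ℝ) ^ (1 + (s - 1) / 2) := by positivity
    calc w₀ * ∫ w, min (N : ℝ) ((N : ℝ) ^ 2 / (2 * (pv w) ^ 2)) ∂(gam (s - 1)) ≤
        w₀ * (c * (N : ℝ) ^ (1 + (s - 1) / 2)) := mul_le_mul_of_nonneg_left hi2 hw₀.le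
      _ ≤ (c + 1) * (w₀ * (N : ℝ) ^ (1 + (s - 1) / 2)) := by
        have := mul_nonneg hw₀.le hP
        linarith

/-- **Damping on the sphere.** -/
theorem sphere_F {s : ℝ} (h1 : 1 ≤ s) (h2 : s < 2) : ∃ c : ℝ, 0 < c ∧ ∀ (N : ℕ)
    (x : Fin N → E3), 1 ≤ N → Conf x → ∀ w : ℝ, 0 < w →
      PS x (fun r => K s r * Real.exp (-(w * Real.sqrt N) * r)) -
        (N : ℝ) ^ 2 * bg (fun r => K s r * Real.exp (-(w * Real.sqrt N) * r)) ≤
      PS x (K s) - Cc s * (N : ℝ) ^ 2 + c * w * (N : ℝ) ^ (1 + s / 2) := by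
  obtain ⟨c, hc, H⟩ := F_diff h1 h2
  refine ⟨c, hc, fun N x hN hx w hw => ?_⟩
  have hN0 : (0 : ℝ) < N := by exact_mod_cast hN
  have hs0 : 0 < Real.sqrt N := Real.sqrt_pos.2 hN0
  set w₀ : ℝ := w * Real.sqrt N with hw₀
  have hw0 : 0 < w₀ := by positivity
  have key := H N x hN hx w₀ hw0
  have e1 : PS x (fun r => K s r * (1 - Real.exp (-w₀ * r))) =
      PS x (K s) - PS x (fun r => K s r * Real.exp (-w₀ * r)) := by
    rw [PS, PS, PS, ← Finset.sum_sub_distrib]
    refine Finset.sum_congr rfl fun p _ => ?_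
    ring
  have e2 : bg (fun r => K s r * (1 - Real.exp (-w₀ * r))) =
      bg (K s) - bg (fun r => K s r * Real.exp (-w₀ * r)) := by
    unfold bg
    have hi := K_mul_integrable (s := s) h2 (show (0 : ℝ) ≤ 2 by norm_num)
    have hi2 : IntervalIntegrable (fun r => K s r * Real.exp (-w₀ * r) * (r / 2)) volume 0 2 := by
      have h5 := hi.mul_continuousOn (g := fun r => Real.exp (-w₀ * r))
        (by fun_prop : Continuous fun r : ℝ => Real.exp (-w₀ * r)).continuousOn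
      refine h5.congr fun r _ => ?_
      ring
    rw [← intervalIntegral.integral_sub hi hi2]
    refine intervalIntegral.integral_congr fun r _ => ?_
    ring
  have e3 : w₀ * (N : ℝ) ^ (1 + (s - 1) / 2) = w * (N : ℝ) ^ (1 + s / 2) := by
    rw [hw₀, Real.sqrt_eq_rpow, mul_assoc, ← Real.rpow_add hN0]
    congr 2
    ring
  rw [e1, e2, bg_K (by linarith) h2, e3] at key
  linarith

end Pool.Agent.Helper51.RT
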