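import Pool.Agent.Helper51.RT.Defs

/-! # RT-G0: the incomplete Gamma function -/

set_option autoImplicit false

open MeasureTheory Set Metric Filter Topology
open scoped ENNReal

namespace Pool.Agent.Helper51.RT

open Pool.Agent.Helper42.RZ Pool.Agent.Helper42.RZ2

/-- half of the incomplete Gamma function -/
noncomputable def gg (s R : ℝ) : ℝ :=
  1 / 2 * ∫ v in (0 : ℝ)..R, Real.exp (-v) * v ^ (2 - s - 1)

theorem gg_nonneg {s R : ℝ} (hR : 0 ≤ R) : 0 ≤ gg s R := by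
  unfold gg
  refine mul_nonneg (by norm_num) (intervalIntegral.integral_nonneg hR fun v hv => ?_)
  exact mul_nonneg (Real.exp_pos _).le (Real.rpow_nonneg hv.1 _)

theorem gg_add {s : ℝ} (h2 : s < 2) {R : ℝ} (hR : 0 ≤ R) :
    1 / 2 * Real.Gamma (2 - s) = gg s R + 1 / 2 * ∫ v in Ioi R, Real.exp (-v) * v ^ (2 - s - 1) := by
  have h1 : IntegrableOn (fun v : ℝ => Real.exp (-v) * v ^ (2 - s - 1)) (Ioi 0) :=
    Real.GammaIntegral_convergent (by linarith)
  unfold gg
  rw [Real.Gamma_eq_integral (by linarith), intervalIntegral.integral_of_le hR,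
    ← mul_add, ← setIntegral_union]
  · rw [Ioc_union_Ioi_eq_Ioi hR]
  · exact Set.disjoint_left.2 fun v hv hv' => absurd hv.2 (not_le.2 hv')
  · exact measurableSet_Ioi
  · exact h1.mono_set Ioc_subset_Ioi_self
  · exact h1.mono_set (Ioi_subset_Ioi hR)

theorem gg_le {s : ℝ} (h2 : s < 2) {R : ℝ} (hR : 0 ≤ R) : gg s R ≤ 1 / 2 * Real.Gamma (2 - s) := by
  rw [gg_add h2 hR]
  have h3 : 0 ≤ ∫ v in Ioi R, Real.exp (-v) * v ^ (2 - s - 1) := by
    refine setIntegral_nonneg measurableSet_Ioi fun v hv => ?_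
    have hv0 : 0 < v := lt_of_le_of_lt hR hv
    positivity
  linarith

theorem gg_tail {s : ℝ} (h0 : 0 < s) (h2 : s < 2) {R : ℝ} (hR : 0 ≤ R) :
    1 / 2 * Real.Gamma (2 - s) - gg s R ≤ 2 * Real.Gamma (2 - s) * Real.exp (-(R / 2)) := by
  have hG : 0 < Real.Gamma (2 - s) := Real.Gamma_pos_of_pos (by linarith)
  have h1 : IntegrableOn (fun v : ℝ => Real.exp (-v) * v ^ (2 - s - 1)) (Ioi 0) :=
    Real.GammaIntegral_convergent (by linarith)
  have h3 := Real.integral_rpow_mul_exp_neg_mul_Ioi (a := 2 - s) (r := 1 / 2) (by linarith)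
    (by norm_num)
  have h4 : IntegrableOn (fun t : ℝ => t ^ (2 - s - 1) * Real.exp (-(1 / 2 * t))) (Ioi 0) := by
    by_contra h
    rw [integral_undef h] at h3
    have : 0 < (1 / (1 / 2 : ℝ)) ^ (2 - s) * Real.Gamma (2 - s) := by positivity
    linarith
  have h5 : ∫ v in Ioi R, Real.exp (-v) * v ^ (2 - s - 1) ≤
      ∫ v in Ioi R, Real.exp (-(R / 2)) * (v ^ (2 - s - 1) * Real.exp (-(1 / 2 * v))) := by
    refine setIntegral_mono_on (h1.mono_set (Ioi_subset_Ioi hR))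
      ((h4.mono_set (Ioi_subset_Ioi hR)).const_mul _) measurableSet_Ioi fun v hv => ?_
    have hv' : R < v := hv
    have hv0 : 0 < v := lt_of_le_of_lt hR hv'
    have h6 : Real.exp (-v) ≤ Real.exp (-(R / 2)) * Real.exp (-(1 / 2 * v)) := by
      rw [← Real.exp_add]
      exact Real.exp_le_exp.2 (by linarith)
    have h7 : 0 ≤ v ^ (2 - s - 1) := Real.rpow_nonneg hv0.le _
    calc Real.exp (-v) * v ^ (2 - s - 1) ≤
        (Real.exp (-(R / 2)) * Real.exp (-(1 / 2 * v))) * v ^ (2 - s - 1) :=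
          mul_le_mul_of_nonneg_right h6 h7
      _ = _ := by ring
  have h8 : ∫ v in Ioi R, Real.exp (-(R / 2)) * (v ^ (2 - s - 1) * Real.exp (-(1 / 2 * v))) ≤
      Real.exp (-(R / 2)) * ((1 / (1 / 2 : ℝ)) ^ (2 - s) * Real.Gamma (2 - s)) := by
    rw [integral_const_mul, ← h3]
    refine mul_le_mul_of_nonneg_left ?_ (Real.exp_pos _).le
    refine setIntegral_mono_set h4 ?_ (Ioi_subset_Ioi hR).eventuallyLE
    refine (ae_restrict_iff' measurableSet_Ioi).2 (Eventually.of_forall fun v hv => ?_)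
    have hv0 : (0 : ℝ) < v := hv
    simp only [Pi.zero_apply]
    positivity
  have h9 : (1 / (1 / 2 : ℝ)) ^ (2 - s) ≤ 4 := by
    calc (1 / (1 / 2 : ℝ)) ^ (2 - s) ≤ (1 / (1 / 2 : ℝ)) ^ (2 : ℝ) :=
          Real.rpow_le_rpow_of_exponent_le (by norm_num) (by linarith)
      _ = 4 := by rw [Real.rpow_two]; norm_num
  have h10 : Real.exp (-(R / 2)) * ((1 / (1 / 2 : ℝ)) ^ (2 - s) * Real.Gamma (2 - s)) ≤
      Real.exp (-(R / 2)) * (4 * Real.Gamma (2 - s)) := by
    refine mul_le_mul_of_nonneg_left ?_ (Real.exp_pos _).le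
    exact mul_le_mul_of_nonneg_right h9 hG.le
  rw [gg_add h2 hR]
  linarith

end Pool.Agent.Helper51.RT
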