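import Pool.Agent.Helper51.RT.L
import Pool.Agent.Helper51.RT.G0
import Pool.Agent.Helper33.RZ2.R10
import Pool.Agent.Helper42.RZ.S15

/-! # RT-F2: the damping costs only `O(w ^ s)` on the sphere for `s < 1` -/

set_option autoImplicit false

open MeasureTheory Set Metric Filter Topology
open scoped ENNReal

namespace Pool.Agent.Helper51.RT

open Pool.Agent.Helper42.RZ
open Pool.Agent.Helper42.RZ.S15
open Pool.Agent.Helper46.RZ (gam gam_integral gam_integrable intOn_min)
open Pool.Agent.Helper81.RZ (K_mul_integrable)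
open Pool.Agent.Helper33.RZ2 (integral_scale)

theorem gam_Ioc {s : ℝ} (h0 : 0 < s) (w₀ : ℝ) (f : ℝ → ℝ) :
    ∫ v in Ioc 0 w₀, f v ∂(gam s) = ∫ v in Ioc 0 w₀, v ^ (s - 1) / Real.Gamma s * f v := by
  rw [← integral_indicator measurableSet_Ioc, gam_integral h0,
    ← integral_indicator measurableSet_Ioi, ← integral_indicator measurableSet_Ioc]
  congr 1
  ext v
  by_cases h : v ∈ Ioc 0 w₀
  · have h' : v ∈ Ioi (0 : ℝ) := h.1
    rw [indicator_of_mem h', indicator_of_mem h, indicator_of_mem h]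
  · rw [indicator_of_notMem h (f := fun v => v ^ (s - 1) / Real.Gamma s * f v)]
    by_cases h' : v ∈ Ioi (0 : ℝ)
    · rw [indicator_of_mem h', indicator_of_notMem h, mul_zero]
    · rw [indicator_of_notMem h']

theorem kw_nonneg {s w r : ℝ} (hr : 0 ≤ r) : 0 ≤ kw s w r := by
  refine integral_nonneg fun a => ?_
  have : 0 ≤ K s r := Real.rpow_nonneg hr _
  simp only [Pi.zero_apply]
  positivity

theorem kw_le {s : ℝ} (h0 : 0 < s) (h1 : s < 1) {w r : ℝ} (hw : 0 ≤ w) (hr : 0 ≤ r) :
    kw s w r ≤ K s r := by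
  have := ars_prob h0 h1
  have hK : 0 ≤ K s r := Real.rpow_nonneg hr _
  have h3 : kw s w r ≤ ∫ _, K s r ∂(ars s) := by
    refine integral_mono (kw_int h0 h1 hw hr) (integrable_const _) fun a => ?_
    refine mul_le_of_le_one_right hK ?_
    rw [Real.exp_le_one_iff]
    have h3 := bb_pos a
    have : 0 ≤ bb a * w * r := by positivity
    linarith
  simpa using h3

theorem kw_meas {s : ℝ} (h0 : 0 < s) (h1 : s < 1) (w : ℝ) : StronglyMeasurable (kw s w) := by
  have := ars_prob h0 h1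
  have hbm := bb_meas
  refine StronglyMeasurable.integral_prod_right (f := fun r a =>
    K s r * Real.exp (-(bb a * w) * r)) ?_
  apply Measurable.stronglyMeasurable
  unfold Function.uncurry K
  fun_prop

theorem kw_ii {s : ℝ} (h0 : 0 < s) (h1 : s < 1) {w : ℝ} (hw : 0 ≤ w) :
    IntervalIntegrable (fun r => kw s w r * (r / 2)) volume 0 2 := by
  have hi := K_mul_integrable (s := s) (by linarith) (show (0 : ℝ) ≤ 2 by norm_num)
  rw [intervalIntegrable_iff_integrableOn_Ioc_of_le (by norm_num)] at hi ⊢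
  have hm := (kw_meas h0 h1 w).measurable
  refine hi.mono' (Measurable.aestronglyMeasurable (by fun_prop)) ?_
  refine (ae_restrict_iff' measurableSet_Ioc).2 (Eventually.of_forall fun r hr => ?_)
  have hr0 : (0 : ℝ) ≤ r := hr.1.le
  have h3 := kw_nonneg (s := s) (w := w) hr0
  rw [Real.norm_eq_abs, abs_of_nonneg (by positivity)]
  exact mul_le_mul_of_nonneg_right (kw_le h0 h1 hw hr0) (by positivity)

/-- the background of the damped kernel -/
theorem bg_kw {s : ℝ} (h0 : 0 < s) (h1 : s < 1) {w : ℝ} (hw : 0 < w) :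
    bg (kw s w) ≤ w ^ (s - 2) * (1 / 2 * Real.Gamma (2 - s)) * ms s := by
  have := ars_prob h0 h1
  have hbm := bb_meas
  have hG2 : 0 < Real.Gamma (2 - s) := Real.Gamma_pos_of_pos (by linarith)
  have hi := K_mul_integrable (s := s) (by linarith) (show (0 : ℝ) ≤ 2 by norm_num)
  rw [intervalIntegrable_iff_integrableOn_Ioc_of_le (by norm_num)] at hi
  have hF : Integrable (Function.uncurry fun (r : ℝ) (a : ℝ) =>
      K s r * Real.exp (-(bb a * w) * r) * (r / 2))
      ((volume.restrict (Ioc (0 : ℝ) 2)).prod (ars s)) := by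
    have h3 : Integrable (fun z : ℝ × ℝ => K s z.1 * (z.1 / 2))
        ((volume.restrict (Ioc (0 : ℝ) 2)).prod (ars s)) := Integrable.comp_fst hi (ars s)
    refine h3.mono' ?_ ?_
    · apply Measurable.aestronglyMeasurable
      unfold Function.uncurry K
      fun_prop
    · have h4 : ∀ᵐ z ∂((volume.restrict (Ioc (0 : ℝ) 2)).prod (ars s)), z.1 ∈ Ioc (0 : ℝ) 2 :=
        (Measure.quasiMeasurePreserving_fst (μ := volume.restrict (Ioc (0 : ℝ) 2))
          (ν := ars s)).ae (ae_restrict_mem measurableSet_Ioc)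
      filter_upwards [h4] with z hz
      have hr0 : 0 < z.1 := hz.1
      have hK : 0 ≤ K s z.1 := Real.rpow_nonneg hr0.le _
      simp only [Function.uncurry]
      rw [Real.norm_eq_abs, abs_of_nonneg (by positivity)]
      refine mul_le_mul_of_nonneg_right ?_ (by positivity)
      refine mul_le_of_le_one_right hK ?_
      rw [Real.exp_le_one_iff]
      have h3 := bb_pos z.2
      have : 0 ≤ bb z.2 * w * z.1 := by positivity
      linarith
  have e1 : bg (kw s w) = ∫ a, bg (fun r => K s r * Real.exp (-(bb a * w) * r)) ∂(ars s) := by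
    unfold bg kw
    simp only [← integral_mul_const]
    simp only [intervalIntegral.integral_of_le (show (0 : ℝ) ≤ 2 by norm_num)]
    exact integral_integral_swap hF
  have hFi : Integrable (fun a => bg (fun r => K s r * Real.exp (-(bb a * w) * r))) (ars s) := by
    unfold bg
    simp only [intervalIntegral.integral_of_le (show (0 : ℝ) ≤ 2 by norm_num)]
    exact hF.integral_prod_right
  rw [e1]
  have e2 : ∀ a, bg (fun r => K s r * Real.exp (-(bb a * w) * r)) ≤
      w ^ (s - 2) * (1 / 2 * Real.Gamma (2 - s)) * (bb a) ^ (s - 2) := by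
    intro a
    have hb := bb_pos a
    have hl : 0 < bb a * w := by positivity
    have e3 : bg (fun r => K s r * Real.exp (-(bb a * w) * r)) =
        (bb a * w) ^ (s - 2) * gg s (bb a * w * 2) := by
      unfold bg gg
      exact integral_scale (by norm_num) hl
    have e4 := gg_le (s := s) (by linarith) (show 0 ≤ bb a * w * 2 by positivity)
    rw [e3, Real.mul_rpow hb.le hw.le]
    have e5 : 0 ≤ bb a ^ (s - 2) * w ^ (s - 2) :=
      mul_nonneg (Real.rpow_nonneg hb.le _) (Real.rpow_nonneg hw.le _)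
    calc bb a ^ (s - 2) * w ^ (s - 2) * gg s (bb a * w * 2) ≤
        bb a ^ (s - 2) * w ^ (s - 2) * (1 / 2 * Real.Gamma (2 - s)) :=
          mul_le_mul_of_nonneg_left e4 e5
      _ = _ := by ring
  calc ∫ a, bg (fun r => K s r * Real.exp (-(bb a * w) * r)) ∂(ars s) ≤
      ∫ a, w ^ (s - 2) * (1 / 2 * Real.Gamma (2 - s)) * (bb a) ^ (s - 2) ∂(ars s) :=
        integral_mono hFi ((ms_int h0 h1).const_mul _) e2
    _ = _ := by rw [integral_const_mul, ms]

theorem F_diff2 {s : ℝ} (h0 : 0 < s) (h1 : s < 1) : ∃ c : ℝ, 0 < c ∧ ∀ (N : ℕ)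
    (x : Fin N → E3), 1 ≤ N → Conf x → ∀ w₀ : ℝ, 0 < w₀ →
      (N : ℝ) ^ 2 * bg (fun r => K s r - kw s w₀ r) - PS x (fun r => K s r - kw s w₀ r) ≤
      c * (w₀ ^ s * N) := by
  have hG : 0 < Real.Gamma s := Real.Gamma_pos_of_pos h0
  obtain ⟨c₀, -, hcN⟩ := gam_min (s := s) h0 (by linarith)
  obtain ⟨hi3, -⟩ := hcN 2 (by norm_num)
  refine ⟨1 / (s * Real.Gamma s), by positivity, fun N x hN hx w₀ hw₀ => ?_⟩
  have hN0 : (0 : ℝ) < N := by exact_mod_cast hN
  have hpm := pv_meas
  have hint : Integrable (fun w => min 1 ((pv w) ^ 2)⁻¹) ((gam s).restrict (Ioc 0 w₀)) := by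
    refine Integrable.mono' (hi3.integrableOn (s := Ioc 0 w₀))
      (Measurable.aestronglyMeasurable (by fun_prop)) (Eventually.of_forall fun u => ?_)
    have h3 := pv_pos u
    rw [Real.norm_eq_abs, abs_of_nonneg (by positivity)]
    refine min_le_min (by norm_num) ?_
    rw [inv_eq_one_div]
    push_cast
    rw [div_le_div_iff₀ (by positivity) (by positivity)]
    nlinarith [sq_nonneg (pv u)]
  have key := lb_general ((gam s).restrict (Ioc 0 w₀)) pv pv_meas pv_pos hint x hx
  have hker : ∀ r : ℝ, 0 < r → ∫ v in Ioc 0 w₀, Real.exp (-pv v * r) ∂(gam s) =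
      K s r - kw s w₀ r := by
    intro r hr
    rw [gam_Ioc h0, kw_diff h0 h1 hw₀.le hr]
    refine setIntegral_congr_fun measurableSet_Ioc fun v hv => ?_
    simp only [pv_eq hv.1]
  have hbg : bg (fun r => ∫ v in Ioc 0 w₀, Real.exp (-pv v * r) ∂(gam s)) =
      bg (fun r => K s r - kw s w₀ r) := by
    unfold bg
    refine intervalIntegral.integral_congr_ae ?_
    refine Filter.Eventually.of_forall fun r hr => ?_
    rw [uIoc_of_le (by norm_num)] at hr
    simp only [hker r hr.1]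
  have hPS : PS x (fun r => ∫ v in Ioc 0 w₀, Real.exp (-pv v * r) ∂(gam s)) =
      PS x (fun r => K s r - kw s w₀ r) := by
    unfold PS
    refine Finset.sum_congr rfl fun p hp => ?_
    have hne : p.1 ≠ p.2 := (Finset.mem_offDiag.1 hp).2.2
    refine hker _ ?_
    rw [norm_pos_iff, sub_ne_zero]
    exact fun h => hne (hx.1 h)
  rw [hbg, hPS] at key
  refine key.trans ?_
  rw [gam_Ioc h0]
  have hii : IntegrableOn (fun v : ℝ => v ^ (s - 1) / Real.Gamma s * (N : ℝ)) (Ioc 0 w₀) := by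
    have h3 := (intervalIntegral.intervalIntegrable_rpow' (a := (0 : ℝ)) (b := w₀)
      (show -1 < s - 1 by linarith)).1
    exact (h3.div_const _).mul_const _
  have h4 : ∫ v in Ioc 0 w₀, v ^ (s - 1) / Real.Gamma s *
      min (N : ℝ) ((N : ℝ) ^ 2 / (2 * (pv v) ^ 2)) ≤
      ∫ v in Ioc 0 w₀, v ^ (s - 1) / Real.Gamma s * (N : ℝ) := by
    refine setIntegral_mono_on ?_ hii measurableSet_Ioc fun v hv => ?_
    · refine hii.mono' (Measurable.aestronglyMeasurable (by fun_prop)) ?_
      refine (ae_restrict_iff' measurableSet_Ioc).2 (Eventually.of_forall fun v hv => ?_)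
      have hv0 : 0 < v := hv.1
      have h5 := pv_pos v
      rw [Real.norm_eq_abs, abs_of_nonneg (by positivity)]
      exact mul_le_mul_of_nonneg_left (min_le_left _ _) (by positivity)
    · have hv0 : 0 < v := hv.1
      exact mul_le_mul_of_nonneg_left (min_le_left _ _) (by positivity)
  refine h4.trans (le_of_eq ?_)
  rw [integral_mul_const, integral_div, ← intervalIntegral.integral_of_le hw₀.le,
    integral_rpow (Or.inl (by linarith)), sub_add_cancel, Real.zero_rpow h0.ne', sub_zero]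
  field_simp

/-- **Damping on the sphere.** -/
theorem sphere_F2 {s : ℝ} (h0 : 0 < s) (h1 : s < 1) : ∃ c : ℝ, 0 < c ∧ ∀ (N : ℕ)
    (x : Fin N → E3), 1 ≤ N → Conf x → ∀ w : ℝ, 0 < w →
      PS x (kw s (w * Real.sqrt N)) ≤
      PS x (K s) - Cc s * (N : ℝ) ^ 2 + c * w ^ s * (N : ℝ) ^ (1 + s / 2) +
        (N : ℝ) ^ (1 + s / 2) * (w ^ (s - 2) * (1 / 2 * Real.Gamma (2 - s)) * ms s) := by
  obtain ⟨c, hc, H⟩ := F_diff2 h0 h1
  refine ⟨c, hc, fun N x hN hx w hw => ?_⟩
  have hN0 : (0 : ℝ) < N := by exact_mod_cast hN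
  have hs0 : 0 < Real.sqrt N := Real.sqrt_pos.2 hN0
  set w₀ : ℝ := w * Real.sqrt N with hw₀
  have hw0 : 0 < w₀ := by positivity
  have key := H N x hN hx w₀ hw0
  have e1 : PS x (fun r => K s r - kw s w₀ r) = PS x (K s) - PS x (kw s w₀) := by
    rw [PS, PS, PS, ← Finset.sum_sub_distrib]
  have e2 : bg (fun r => K s r - kw s w₀ r) = bg (K s) - bg (kw s w₀) := by
    unfold bg
    have hi := K_mul_integrable (s := s) (by linarith) (show (0 : ℝ) ≤ 2 by norm_num)
    rw [← intervalIntegral.integral_sub hi (kw_ii h0 h1 hw0.le)]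
    refine intervalIntegral.integral_congr fun r _ => ?_
    ring
  have e3 : w₀ ^ s * (N : ℝ) = w ^ s * (N : ℝ) ^ (1 + s / 2) := by
    rw [hw₀, Real.mul_rpow hw.le hs0.le, Real.sqrt_eq_rpow, ← Real.rpow_mul hN0.le, mul_assoc,
      Real.rpow_add hN0, Real.rpow_one]
    have e4 : (1 / 2 * s : ℝ) = s / 2 := by ring
    rw [e4]
    ring
  have e4 : (N : ℝ) ^ 2 * bg (kw s w₀) ≤
      (N : ℝ) ^ (1 + s / 2) * (w ^ (s - 2) * (1 / 2 * Real.Gamma (2 - s)) * ms s) := by
    have e5 := mul_le_mul_of_nonneg_left (bg_kw h0 h1 hw0) (show (0 : ℝ) ≤ (N : ℝ) ^ 2 by positivity)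
    refine e5.trans (le_of_eq ?_)
    rw [hw₀, Real.mul_rpow hw.le hs0.le]
    have e6 := pow1 hN0 s
    calc (N : ℝ) ^ 2 * (w ^ (s - 2) * Real.sqrt N ^ (s - 2) * (1 / 2 * Real.Gamma (2 - s)) * ms s) =
        ((N : ℝ) ^ 2 * Real.sqrt N ^ (s - 2)) *
          (w ^ (s - 2) * (1 / 2 * Real.Gamma (2 - s)) * ms s) := by ring
      _ = _ := by rw [e6]
  rw [e1, e2, bg_K h0 (by linarith)] at key
  have e7 : c * w ^ s * (N : ℝ) ^ (1 + s / 2) = c * (w₀ ^ s * N) := by rw [e3]; ring
  rw [e7]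
  linarith

end Pool.Agent.Helper51.RT
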