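import Pool.Agent.Helper51.RT.Defs
import Pool.Agent.Helper28.RZL.Lim

/-! # RT-G: the damping costs only `O(w)` for periodic configurations of the plane, `s ≥ 1` -/

set_option autoImplicit false

open MeasureTheory Set Filter Topology
open scoped ENNReal

namespace Pool.Agent.Helper51.RT

open Pool.Agent.Helper28.RZL Pool.Agent.Helper42.RZ2
open Pool.Agent.Helper42.RZ (K)

variable {m : ℕ}

/-- the terms of the energy -/
theorem ph_series {s w : ℝ} (h0 : 0 < s) (hw : 0 < w) {a b : ℂ} {y : Fin m → ℂ}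
    (hY : Per m a b y) : Summable (fun i : Ix m => cw a b y i * ph s w ‖pt a b y i‖) ∧
      AS s w a b y = ∑' i : Ix m, cw a b y i * ph s w ‖pt a b y i‖ - bk s w := by
  have hd := per_dt hY
  have he : ∀ i : Ix m, cw a b y i * ph s w ‖pt a b y i‖ = (m : ℝ)⁻¹ * ph s w ‖pt a b y i‖ := by
    intro i
    by_cases hi : pt a b y i = 0
    · rw [hi, norm_zero, ph_zero h0, mul_zero, mul_zero]
    · unfold cw
      rw [if_neg hi]
  have hs : Summable fun i : Ix m => ph s w ‖pt a b y i‖ :=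
    summable_ix (fun i => ph_nonneg (norm_nonneg _)) fun i j =>
      Pool.Agent.Helper39.RZ2.summable_ph h0 hw hd (y i - y j)
  simp only [he]
  refine ⟨hs.mul_left _, ?_⟩
  rw [AS, tsum_mul_left, tsum_ix hs]
  congr 1

theorem Ds_lower {a b : ℂ} {y : Fin m → ℂ} (hY : Per m a b y) {t : ℝ} (ht : 0 < t) :
    -(2 * (1 / (1 + t))) ≤ Ds (cw a b y) (ce a b y) t := by
  have h1 := Xs_nonneg (ok_ce hY) t
  have h2 := theta_eq hY ht
  have h3 := Xs_nonneg (ok_de hY) (1 / t)
  have h4 : 1 / t - 1 ≤ Xs (cw a b y) (ce a b y) t := by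
    rw [sub_le_iff_le_add, div_le_iff₀ ht]
    nlinarith
  unfold Ds
  rcases le_total 1 t with h5 | h5
  · have h6 : 1 / t ≤ 2 * (1 / (1 + t)) := by
      rw [mul_one_div, div_le_div_iff₀ ht (by linarith)]
      linarith
    linarith
  · have h6 : 1 ≤ 2 * (1 / (1 + t)) := by
      rw [mul_one_div, le_div_iff₀ (by linarith)]
      linarith
    linarith

theorem AS_lower {s : ℝ} (h0 : 0 < s) (h2 : s < 2) : ∃ C : ℝ, 0 ≤ C ∧ ∀ {m : ℕ} {a b : ℂ}
    {y : Fin m → ℂ}, Per m a b y → ∀ w : ℝ, 0 < w → -C ≤ AS s w a b y := by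
  have hm := maj_kap h0 h2
  refine ⟨∫ p : ℝ × ℝ, 2 * (1 / (1 + p.2)) ∂(kap s), ?_, fun {m a b y} hY w hw => ?_⟩
  · refine integral_nonneg_of_ae ?_
    filter_upwards [ae_kap s] with p hp
    have := hp.2
    simp only [Pi.zero_apply]
    positivity
  · rw [AS_eq_int h0 h2 hw hY, ← integral_neg]
    refine integral_mono_ae (hm.const_mul 2).neg (Ds_tw_int (tp hY) h0 h2 w) ?_
    filter_upwards [ae_kap s] with p hp
    refine le_trans (neg_le_neg ?_) (Ds_lower hY (tw_pos (w := w) hp.2))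
    refine mul_le_mul_of_nonneg_left ?_ (by norm_num)
    exact one_div_le_one_div_of_le (by linarith [hp.2]) (by linarith [tw_ge (w := w) p])

/-- second moment of the half Gaussian -/
theorem m1_sq : ∫⁻ x, ENNReal.ofReal (x ^ 2) ∂m1 = ENNReal.ofReal (1 / 2) := by
  have hpi : 0 < √Real.pi := Real.sqrt_pos.2 Real.pi_pos
  have h1 := integral_rpow_mul_exp_neg_rpow (p := 2) (q := 2) (by norm_num) (by norm_num)
  have h2 : Real.Gamma ((2 + 1) / 2) = √Real.pi / 2 := by
    have h3 := Real.Gamma_add_one (s := 1 / 2) (by norm_num)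
    rw [Real.Gamma_one_half_eq] at h3
    rw [show ((2 : ℝ) + 1) / 2 = 1 / 2 + 1 by norm_num, h3]
    ring
  rw [h2] at h1
  have h4 : IntegrableOn (fun x : ℝ => x ^ (2 : ℝ) * Real.exp (-x ^ (2 : ℝ))) (Ioi 0) := by
    by_contra h
    rw [integral_undef h] at h1
    have : 0 < 1 / 2 * (√Real.pi / 2) := by positivity
    linarith
  rw [lint_m1 (by fun_prop)]
  have h5 : ∀ x ∈ Ioi (0 : ℝ), ENNReal.ofReal (2 / √Real.pi * Real.exp (-x ^ 2)) *
      ENNReal.ofReal (x ^ 2) = ENNReal.ofReal (2 / √Real.pi) *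
        ENNReal.ofReal (x ^ (2 : ℝ) * Real.exp (-x ^ (2 : ℝ))) := by
    intro x hx
    have hx0 : 0 < x := hx
    rw [← ENNReal.ofReal_mul (by positivity), ← ENNReal.ofReal_mul (by positivity),
      Real.rpow_two]
    congr 1
    ring
  rw [setLIntegral_congr_fun measurableSet_Ioi h5, lintegral_const_mul _ (by fun_prop),
    ← ofReal_integral_eq_lintegral_ofReal h4, h1, ← ENNReal.ofReal_mul (by positivity)]
  · congr 1
    field_simp
  · refine (ae_restrict_iff' measurableSet_Ioi).2 (Eventually.of_forall fun x hx => ?_)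
    have hx0 : (0 : ℝ) < x := hx
    simp only [Pi.zero_apply]
    positivity

theorem LB0 {a b : ℂ} {y : Fin m → ℂ} (hY : Per m a b y) {v : ℝ} (hv : 0 < v) :
    Summable (fun i : Ix m => cw a b y i * ph 0 v ‖pt a b y i‖) ∧
      bk 0 v - 1 ≤ ∑' i : Ix m, cw a b y i * ph 0 v ‖pt a b y i‖ := by
  have hpi := Real.pi_pos
  have hcw := (ok_ce hY).v0
  have hph : ∀ r : ℝ, ph 0 v r = Real.exp (-(v * r)) := by
    intro r
    rw [ph, K, neg_zero, Real.rpow_zero, one_mul]
    congr 1
    ring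
  have hsum : Summable (fun i : Ix m => cw a b y i * ph 0 v ‖pt a b y i‖) := by
    have h1 := (ph_series (s := 1) (w := v / 2) one_pos (by positivity) hY).1.mul_left (2 / v)
    refine Summable.of_nonneg_of_le (fun i => mul_nonneg (hcw i) (ph_nonneg (norm_nonneg _)))
      (fun i => ?_) h1
    by_cases hi : pt a b y i = 0
    · have h3 : cw a b y i = 0 := by
        unfold cw
        rw [if_pos hi]
      rw [h3, zero_mul, zero_mul, mul_zero]
    · have hr : 0 < ‖pt a b y i‖ := norm_pos_iff.2 hi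
      set r : ℝ := ‖pt a b y i‖
      have h4 : ph 0 v r ≤ 2 / v * ph 1 (v / 2) r := by
        rw [hph, ph, K, Real.rpow_neg_one]
        have h5 : v / 2 * r ≤ Real.exp (v / 2 * r) := by
          have := Real.add_one_le_exp (v / 2 * r)
          linarith
        have h6 : Real.exp (-(v * r)) = Real.exp (-(v / 2) * r) * Real.exp (-(v / 2) * r) := by
          rw [← Real.exp_add]
          congr 1
          ring
        have h7 : Real.exp (-(v / 2) * r) = (Real.exp (v / 2 * r))⁻¹ := by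
          rw [← Real.exp_neg]
          congr 1
          ring
        have h8 : (Real.exp (v / 2 * r))⁻¹ ≤ (v / 2 * r)⁻¹ :=
          inv_anti₀ (by positivity) h5
        rw [h6]
        calc Real.exp (-(v / 2) * r) * Real.exp (-(v / 2) * r) ≤
            (v / 2 * r)⁻¹ * Real.exp (-(v / 2) * r) := by
              refine mul_le_mul_of_nonneg_right ?_ (Real.exp_pos _).le
              rw [h7]
              exact h8
          _ = 2 / v * (r⁻¹ * Real.exp (-(v / 2) * r)) := by field_simp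
      calc cw a b y i * ph 0 v r ≤ cw a b y i * (2 / v * ph 1 (v / 2) r) :=
            mul_le_mul_of_nonneg_left h4 (hcw i)
        _ = 2 / v * (cw a b y i * ph 1 (v / 2) r) := by ring
  refine ⟨hsum, ?_⟩
  have hterm : ∀ i : Ix m, ∫⁻ x, ENNReal.ofReal (cw a b y i *
      Real.exp (-(v ^ 2 / (4 * Real.pi * x ^ 2) * ce a b y i))) ∂m1 =
      ENNReal.ofReal (cw a b y i * ph 0 v ‖pt a b y i‖) := by
    intro i
    have h1 : ∀ x : ℝ, ENNReal.ofReal (cw a b y i *
        Real.exp (-(v ^ 2 / (4 * Real.pi * x ^ 2) * ce a b y i))) =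
        ENNReal.ofReal (cw a b y i) * ENNReal.ofReal (Real.exp
          (-((v * ‖pt a b y i‖ / 2) ^ 2 / x ^ 2))) := by
      intro x
      rw [← ENNReal.ofReal_mul (hcw i)]
      congr 4
      rw [ce]
      by_cases hx : x = 0
      · simp [hx]
      · field_simp
        ring
    simp only [h1]
    rw [lintegral_const_mul _ (by fun_prop), sub_pos (by positivity),
      ← ENNReal.ofReal_mul (hcw i), hph]
    congr 3
    ring
  have hm1 : ∀ᵐ x ∂m1, 0 < x := by
    have : m1 ≪ volume.restrict (Ioi (0 : ℝ)) := withDensity_absolutelyContinuous _ _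
    exact this.ae_le (ae_restrict_mem measurableSet_Ioi)
  have hS : ∑' i : Ix m, ENNReal.ofReal (cw a b y i * ph 0 v ‖pt a b y i‖) =
      ∫⁻ x, ENNReal.ofReal (Xs (cw a b y) (ce a b y) (v ^ 2 / (4 * Real.pi * x ^ 2))) ∂m1 := by
    simp only [← hterm]
    rw [← lintegral_tsum (fun i => by fun_prop)]
    refine lintegral_congr_ae ?_
    filter_upwards [hm1] with x hx
    have ht : 0 < v ^ 2 / (4 * Real.pi * x ^ 2) := by positivity
    rw [Xs, ENNReal.ofReal_tsum_of_nonneg (fun i => mul_nonneg (hcw i) (Real.exp_pos _).le)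
      ((ok_ce hY).sm _ ht)]
  have hlow : ENNReal.ofReal (bk 0 v) ≤
      (∑' i : Ix m, ENNReal.ofReal (cw a b y i * ph 0 v ‖pt a b y i‖)) + 1 := by
    have h1 : ENNReal.ofReal (bk 0 v) = ∫⁻ x, ENNReal.ofReal (4 * Real.pi / v ^ 2) *
        ENNReal.ofReal (x ^ 2) ∂m1 := by
      rw [lintegral_const_mul _ (by fun_prop), m1_sq, ← ENNReal.ofReal_mul (by positivity)]
      congr 1
      rw [bk, sub_zero, Real.Gamma_two, zero_sub, Real.rpow_neg hv.le, Real.rpow_two]
      field_simp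
      norm_num
    have h2 : ∫⁻ _ : ℝ, (1 : ℝ≥0∞) ∂m1 = 1 := by
      rw [lintegral_one, measure_univ]
    rw [h1, hS]
    conv_rhs => rw [← h2]
    rw [← lintegral_add_right _ measurable_const]
    refine lintegral_mono_ae ?_
    filter_upwards [hm1] with x hx
    have ht : 0 < v ^ 2 / (4 * Real.pi * x ^ 2) := by positivity
    have h3 := theta_eq hY ht
    have h4 := Xs_nonneg (ok_de hY) (1 / (v ^ 2 / (4 * Real.pi * x ^ 2)))
    have h5 : 1 / (v ^ 2 / (4 * Real.pi * x ^ 2)) ≤
        Xs (cw a b y) (ce a b y) (v ^ 2 / (4 * Real.pi * x ^ 2)) + 1 := by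
      rw [div_le_iff₀ ht]
      nlinarith
    have h6 : 1 / (v ^ 2 / (4 * Real.pi * x ^ 2)) = 4 * Real.pi / v ^ 2 * x ^ 2 := by
      field_simp
    rw [h6] at h5
    rw [← ENNReal.ofReal_mul (by positivity), ← ENNReal.ofReal_one,
      ← ENNReal.ofReal_add (Xs_nonneg (ok_ce hY) _) zero_le_one]
    exact ENNReal.ofReal_le_ofReal h5
  have hn : ∀ i, 0 ≤ cw a b y i * ph 0 v ‖pt a b y i‖ := fun i =>
    mul_nonneg (hcw i) (ph_nonneg (norm_nonneg _))
  rw [← ENNReal.ofReal_tsum_of_nonneg hn hsum, ← ENNReal.ofReal_one,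
    ← ENNReal.ofReal_add (tsum_nonneg hn) zero_le_one] at hlow
  have h7 := (ENNReal.ofReal_le_ofReal_iff (add_nonneg (tsum_nonneg hn) zero_le_one)).1 hlow
  linarith

theorem LB {s : ℝ} (h0 : 0 ≤ s) (h2 : s < 2) : ∃ C : ℝ, 0 ≤ C ∧ ∀ {m : ℕ} {a b : ℂ}
    {y : Fin m → ℂ}, Per m a b y → ∀ v : ℝ, 0 < v →
    Summable (fun i : Ix m => cw a b y i * ph s v ‖pt a b y i‖) ∧
      bk s v - C ≤ ∑' i : Ix m, cw a b y i * ph s v ‖pt a b y i‖ := by
  rcases eq_or_lt_of_le h0 with h | h
  · subst h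
    exact ⟨1, zero_le_one, fun hY v hv => LB0 hY hv⟩
  · obtain ⟨C, hC, H⟩ := AS_lower h h2
    refine ⟨C, hC, fun {m a b y} hY v hv => ?_⟩
    obtain ⟨h3, h4⟩ := ph_series h hv hY
    have h5 := H hY v hv
    exact ⟨h3, by linarith⟩

theorem int_ph {s : ℝ} {r w' w : ℝ} (hr : 0 < r) :
    ph s w' r - ph s w r = ∫ v in w'..w, ph (s - 1) v r := by
  have h2 : ∀ v ∈ uIcc w' w, HasDerivAt (fun v => -(K s r * Real.exp (-v * r)))
      (ph (s - 1) v r) v := by
    intro v _
    have h3 : HasDerivAt (fun v : ℝ => -v * r) (-r) v := by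
      simpa using ((hasDerivAt_id v).neg.mul_const r)
    have h4 := (h3.exp.const_mul (K s r)).neg
    refine h4.congr_deriv ?_
    rw [ph, K, K, show -(s - 1) = -s + 1 by ring, Real.rpow_add_one hr.ne']
    ring
  rw [intervalIntegral.integral_eq_sub_of_hasDerivAt h2]
  · rw [ph, ph]
    ring
  · unfold ph
    exact (by fun_prop : Continuous fun v : ℝ => K (s - 1) r * Real.exp (-v * r)).intervalIntegrable
      _ _

theorem int_bk {s : ℝ} (h2 : s < 2) {w' w : ℝ} (hw' : 0 < w') (hw : w' ≤ w) :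
    IntervalIntegrable (fun v => bk (s - 1) v) volume w' w ∧
    bk s w' - bk s w = ∫ v in w'..w, bk (s - 1) v := by
  have hpos : ∀ v ∈ uIcc w' w, 0 < v := by
    intro v hv
    rw [uIcc_of_le hw] at hv
    exact lt_of_lt_of_le hw' hv.1
  have hi : IntervalIntegrable (fun v => bk (s - 1) v) volume w' w := by
    refine ContinuousOn.intervalIntegrable ?_
    unfold bk
    refine ContinuousOn.mul continuousOn_const ?_
    exact ContinuousOn.rpow_const continuousOn_id fun v hv => Or.inl (hpos v hv).ne'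
  refine ⟨hi, ?_⟩
  have h3 : ∀ v ∈ uIcc w' w, HasDerivAt (fun v => -bk s v) (bk (s - 1) v) v := by
    intro v hv
    have hv0 := hpos v hv
    have h4 := ((Real.hasDerivAt_rpow_const (x := v) (p := s - 2) (Or.inl hv0.ne')).const_mul
      (2 * Real.pi * Real.Gamma (2 - s))).neg
    refine h4.congr_deriv ?_
    have h5 : Real.Gamma (2 - (s - 1)) = (2 - s) * Real.Gamma (2 - s) := by
      rw [show 2 - (s - 1) = (2 - s) + 1 by ring]
      exact Real.Gamma_add_one (by linarith)
    rw [bk, h5, show s - 1 - 2 = s - 2 - 1 by ring]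
    ring
  rw [intervalIntegral.integral_eq_sub_of_hasDerivAt h3 hi]
  ring


theorem ofReal_int_le {α : Type} [MeasurableSpace α] {μ : Measure α} {f : α → ℝ}
    (hf : Integrable f μ) : ENNReal.ofReal (∫ v, f v ∂μ) ≤ ∫⁻ v, ENNReal.ofReal (f v) ∂μ := by
  have h1 : ∫ v, f v ∂μ ≤ ∫ v, max (f v) 0 ∂μ :=
    integral_mono hf hf.pos_part (fun v => le_max_left _ _)
  refine (ENNReal.ofReal_le_ofReal h1).trans (le_of_eq ?_)
  rw [ofReal_integral_eq_lintegral_ofReal hf.pos_part
    (Eventually.of_forall fun v => le_max_right _ _)]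
  refine lintegral_congr fun v => ?_
  rcases le_total (f v) 0 with h | h
  · rw [max_eq_right h, ENNReal.ofReal_zero, ENNReal.ofReal_of_nonpos h]
  · rw [max_eq_left h]

/-- monotonicity up to O(w) -/
theorem AS_step {s : ℝ} (h1 : 1 ≤ s) (h2 : s < 2) : ∃ C : ℝ, 0 ≤ C ∧ ∀ {m : ℕ} {a b : ℂ}
    {y : Fin m → ℂ}, Per m a b y → ∀ w' w : ℝ, 0 < w' → w' ≤ w →
      AS s w a b y ≤ AS s w' a b y + C * (w - w') := by
  have h0 : 0 < s := by linarith
  obtain ⟨C, hC, H⟩ := LB (s := s - 1) (by linarith) (by linarith)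
  refine ⟨C, hC, fun {m a b y} hY w' w hw' hw => ?_⟩
  have hw0 : 0 < w := lt_of_lt_of_le hw' hw
  have hcw := (ok_ce hY).v0
  obtain ⟨hs', e'⟩ := ph_series h0 hw' hY
  obtain ⟨hs, e⟩ := ph_series h0 hw0 hY
  obtain ⟨hbi, hb⟩ := int_bk h2 hw' hw
  rw [e, e']
  set D : Ix m → ℝ := fun i => cw a b y i * ph s w' ‖pt a b y i‖ -
    cw a b y i * ph s w ‖pt a b y i‖ with hD
  have hDs : Summable D := hs'.sub hs
  have hDt : ∑' i, D i = ∑' i, cw a b y i * ph s w' ‖pt a b y i‖ -
      ∑' i, cw a b y i * ph s w ‖pt a b y i‖ := hs'.tsum_sub hs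
  have hpc : ∀ r : ℝ, Continuous fun v : ℝ => ph (s - 1) v r := by
    intro r
    unfold ph
    fun_prop
  have hDi : ∀ i, ENNReal.ofReal (D i) = ∫⁻ v in Ioc w' w,
      ENNReal.ofReal (cw a b y i * ph (s - 1) v ‖pt a b y i‖) := by
    intro i
    have h3 : D i = ∫ v in Ioc w' w, cw a b y i * ph (s - 1) v ‖pt a b y i‖ := by
      rw [hD]
      simp only
      by_cases hi : pt a b y i = 0
      · have h4 : cw a b y i = 0 := by
          unfold cw
          rw [if_pos hi]
        simp [h4]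
      · rw [← mul_sub, int_ph (norm_pos_iff.2 hi), intervalIntegral.integral_of_le hw,
          integral_const_mul]
    rw [h3]
    refine ofReal_integral_eq_lintegral_ofReal ?_ ?_
    · exact (((hpc _).const_smul (cw a b y i)).intervalIntegrable w' w).1
    · exact Eventually.of_forall fun v => mul_nonneg (hcw i) (ph_nonneg (norm_nonneg _))
  have hD0 : ∀ i, 0 ≤ D i := by
    intro i
    rw [hD]
    simp only
    by_cases hi : pt a b y i = 0
    · have h4 : cw a b y i = 0 := by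
        unfold cw
        rw [if_pos hi]
      simp [h4]
    · rw [← mul_sub, int_ph (norm_pos_iff.2 hi)]
      exact mul_nonneg (hcw i) (intervalIntegral.integral_nonneg hw fun v _ =>
        ph_nonneg (norm_nonneg _))
  have hmain : bk s w' - bk s w - C * (w - w') ≤ ∑' i, D i := by
    rcases le_total (bk s w' - bk s w - C * (w - w')) 0 with h5 | h5
    · exact h5.trans (tsum_nonneg hD0)
    · rw [← ENNReal.ofReal_le_ofReal_iff (tsum_nonneg hD0),
        ENNReal.ofReal_tsum_of_nonneg hD0 hDs]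
      simp only [hDi]
      rw [← lintegral_tsum (fun i => by
        have := (hpc ‖pt a b y i‖).measurable
        fun_prop)]
      have h6 : bk s w' - bk s w - C * (w - w') = ∫ v in Ioc w' w, (bk (s - 1) v - C) := by
        rw [integral_sub hbi.1 (by simp), hb, intervalIntegral.integral_of_le hw]
        simp [hw]
        ring
      rw [h6]
      refine (ofReal_int_le (hbi.1.sub (by simp))).trans ?_
      refine setLIntegral_mono' measurableSet_Ioc fun v hv => ?_
      have hv0 : 0 < v := hw'.trans hv.1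
      obtain ⟨h7, h8⟩ := H hY v hv0
      rw [← ENNReal.ofReal_tsum_of_nonneg (fun i => mul_nonneg (hcw i)
        (ph_nonneg (norm_nonneg _))) h7]
      exact ENNReal.ofReal_le_ofReal h8
  rw [hDt] at hmain
  linarith

/-- **Damping in the plane.** -/
theorem plane_G {s : ℝ} (h1 : 1 ≤ s) (h2 : s < 2) : ∃ C : ℝ, 0 ≤ C ∧ ∀ {m : ℕ} {a b : ℂ}
    {y : Fin m → ℂ}, Per m a b y → ∀ E : ℝ,
      Tendsto (fun w => AS s w a b y) (𝓝[>] 0) (𝓝 E) → ∀ w : ℝ, 0 < w →
      AS s w a b y ≤ E + C * w := by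
  obtain ⟨C, hC, H⟩ := AS_step h1 h2
  refine ⟨C, hC, fun {m a b y} hY E hE w hw => ?_⟩
  refine ge_of_tendsto (hE.add_const (C * w)) ?_
  have hmem : Ioo (0 : ℝ) w ∈ 𝓝[>] (0 : ℝ) := Ioo_mem_nhdsGT hw
  filter_upwards [hmem] with w' hw'
  have h3 := H hY w' w hw'.1 hw'.2.le
  have h4 : C * (w - w') ≤ C * w := mul_le_mul_of_nonneg_left (by linarith [hw'.1]) hC
  linarith

end Pool.Agent.Helper51.RT
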