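import Pool.Agent.Helper51.RT.L
import Pool.Agent.Helper51.RT.G

/-! # RT-G2: the damping costs only `O(w ^ s)` for periodic configurations, `s < 1` -/

set_option autoImplicit false

open MeasureTheory Set Filter Topology
open scoped ENNReal

namespace Pool.Agent.Helper51.RT

open Pool.Agent.Helper28.RZL Pool.Agent.Helper42.RZ2
open Pool.Agent.Helper42.RZ (K)

variable {m : ℕ}

/-- the series -/
noncomputable def SS (s v : ℝ) (a b : ℂ) (y : Fin m → ℂ) : ℝ :=
  ∑' i : Ix m, cw a b y i * ph s v ‖pt a b y i‖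

theorem AS_SS {s v : ℝ} (h0 : 0 < s) (hv : 0 < v) {a b : ℂ} {y : Fin m → ℂ} (hY : Per m a b y) :
    AS s v a b y = SS s v a b y - bk s v := (ph_series h0 hv hY).2

theorem SS_nonneg {s v : ℝ} {a b : ℂ} {y : Fin m → ℂ} (hY : Per m a b y) : 0 ≤ SS s v a b y :=
  tsum_nonneg fun i => mul_nonneg ((ok_ce hY).v0 i) (ph_nonneg (norm_nonneg _))

theorem SS_anti {s : ℝ} (h0 : 0 < s) {a b : ℂ} {y : Fin m → ℂ} (hY : Per m a b y) {v v' : ℝ}
    (hv : 0 < v) (hvv : v ≤ v') : SS s v' a b y ≤ SS s v a b y := by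
  refine (ph_series h0 (hv.trans_le hvv) hY).1.tsum_le_tsum (fun i => ?_) (ph_series h0 hv hY).1
  refine mul_le_mul_of_nonneg_left ?_ ((ok_ce hY).v0 i)
  unfold ph
  refine mul_le_mul_of_nonneg_left (Real.exp_le_exp.2 ?_) (Real.rpow_nonneg (norm_nonneg _) _)
  have := mul_le_mul_of_nonneg_right hvv (norm_nonneg (pt a b y i))
  linarith

theorem AS_bdd {s : ℝ} (h0 : 0 < s) (h2 : s < 2) {a b : ℂ} {y : Fin m → ℂ} (hY : Per m a b y) :
    ∃ C : ℝ, ∀ v : ℝ, 0 < v → |AS s v a b y| ≤ C := by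
  obtain ⟨C, hC, hD⟩ := Ds_bound (tp hY)
  refine ⟨∫ p : ℝ × ℝ, C * (1 / (1 + p.2)) ∂(kap s), fun v hv => ?_⟩
  rw [AS_eq_int h0 h2 hv hY, ← Real.norm_eq_abs]
  exact norm_integral_le_of_norm_le ((maj_kap h0 h2).const_mul C) (Ds_tw_bound hC hD s v)

theorem SS_meas {s : ℝ} (h0 : 0 < s) {a b : ℂ} {y : Fin m → ℂ} (hY : Per m a b y) {w : ℝ}
    (hw : 0 < w) : Measurable fun t => SS s (bb t * w) a b y := by
  apply Antitone.measurable
  intro t t' htt
  refine SS_anti h0 hY (mul_pos (bb_pos t) hw) ?_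
  refine mul_le_mul_of_nonneg_right ?_ hw.le
  unfold bb
  have := max_le_max_right 0 htt
  linarith

theorem bk_bb {s w : ℝ} (hw : 0 < w) (t : ℝ) : bk s (bb t * w) = bk s w * (bb t) ^ (s - 2) := by
  rw [bk, bk, Real.mul_rpow (bb_pos t).le hw.le]
  ring

theorem AS_int {s : ℝ} (h0 : 0 < s) (h1 : s < 1) {a b : ℂ} {y : Fin m → ℂ} (hY : Per m a b y)
    {w : ℝ} (hw : 0 < w) : Integrable (fun t => AS s (bb t * w) a b y) (ars s) := by
  have := ars_prob h0 h1
  obtain ⟨C, hC⟩ := AS_bdd h0 (by linarith) hY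
  refine (integrable_const C).mono' ?_ (Eventually.of_forall fun t => ?_)
  · apply Measurable.aestronglyMeasurable
    have e : (fun t => AS s (bb t * w) a b y) = fun t =>
        SS s (bb t * w) a b y - bk s w * (bb t) ^ (s - 2) := by
      ext t
      rw [AS_SS h0 (mul_pos (bb_pos t) hw) hY, bk_bb hw]
    rw [e]
    exact (SS_meas h0 hY hw).sub ((bb_pow_meas _).const_mul _)
  · exact hC _ (mul_pos (bb_pos t) hw)

theorem SS_int {s : ℝ} (h0 : 0 < s) (h1 : s < 1) {a b : ℂ} {y : Fin m → ℂ} (hY : Per m a b y)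
    {w : ℝ} (hw : 0 < w) : Integrable (fun t => SS s (bb t * w) a b y) (ars s) ∧
      ∫ t, SS s (bb t * w) a b y ∂(ars s) =
        ∫ t, AS s (bb t * w) a b y ∂(ars s) + bk s w * ms s := by
  have h3 := AS_int h0 h1 hY hw
  have h4 := (ms_int h0 h1).const_mul (bk s w)
  have e : (fun t => SS s (bb t * w) a b y) = fun t =>
      AS s (bb t * w) a b y + bk s w * (bb t) ^ (s - 2) := by
    ext t
    rw [AS_SS h0 (mul_pos (bb_pos t) hw) hY, bk_bb hw]
    ring
  rw [e]
  refine ⟨h3.add h4, ?_⟩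
  rw [integral_add h3 h4, integral_const_mul, ms]

/-- the mixture formula -/
theorem SS_formula {s : ℝ} (h0 : 0 < s) (h1 : s < 1) {a b : ℂ} {y : Fin m → ℂ}
    (hY : Per m a b y) {w : ℝ} (hw : 0 < w) :
    ENNReal.ofReal (∫ t, SS s (bb t * w) a b y ∂(ars s)) =
      ∫⁻ u in Ioi w, ENNReal.ofReal (u ^ (s - 1) / Real.Gamma s * SS 0 u a b y) := by
  have hG : 0 < Real.Gamma s := Real.Gamma_pos_of_pos h0
  have hbm := bb_meas
  have hcw := (ok_ce hY).v0
  rw [ofReal_integral_eq_lintegral_ofReal (SS_int h0 h1 hY hw).1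
    (Eventually.of_forall fun t => SS_nonneg hY)]
  have e1 : ∀ t, ENNReal.ofReal (SS s (bb t * w) a b y) =
      ∑' i : Ix m, ENNReal.ofReal (cw a b y i * ph s (bb t * w) ‖pt a b y i‖) := by
    intro t
    rw [SS, ENNReal.ofReal_tsum_of_nonneg
      (fun i => mul_nonneg (hcw i) (ph_nonneg (norm_nonneg _)))
      (ph_series h0 (mul_pos (bb_pos t) hw) hY).1]
  simp only [e1]
  rw [lintegral_tsum fun i => by
    unfold ph
    fun_prop]
  have e2 : ∀ i : Ix m, ∫⁻ t, ENNReal.ofReal (cw a b y i * ph s (bb t * w) ‖pt a b y i‖) ∂(ars s) =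
      ∫⁻ u in Ioi w, ENNReal.ofReal (u ^ (s - 1) / Real.Gamma s *
        (cw a b y i * ph 0 u ‖pt a b y i‖)) := by
    intro i
    by_cases hi : pt a b y i = 0
    · have h4 : cw a b y i = 0 := by
        unfold cw
        rw [if_pos hi]
      simp [h4]
    · have hr : 0 < ‖pt a b y i‖ := norm_pos_iff.2 hi
      have h5 := ars_exp h0 h1 hr hw.le
      simp only [ENNReal.ofReal_mul (hcw i)]
      rw [lintegral_const_mul _ (by unfold ph; fun_prop)]
      have h6 : ∫⁻ t, ENNReal.ofReal (ph s (bb t * w) ‖pt a b y i‖) ∂(ars s) =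
          ∫⁻ t, ENNReal.ofReal (K s ‖pt a b y i‖ *
            Real.exp (-(bb t * w) * ‖pt a b y i‖)) ∂(ars s) := rfl
      rw [h6, h5, ← lintegral_const_mul _ (by fun_prop)]
      refine setLIntegral_congr_fun measurableSet_Ioi fun u hu => ?_
      have hu0 : 0 < u := hw.trans hu
      rw [← ENNReal.ofReal_mul (hcw i)]
      congr 1
      rw [ph, K, neg_zero, Real.rpow_zero]
      ring
  simp only [e2]
  rw [← lintegral_tsum fun i => by
    unfold ph
    fun_prop]
  refine setLIntegral_congr_fun measurableSet_Ioi fun u hu => ?_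
  have hu0 : 0 < u := hw.trans hu
  have h7 := (LB0 hY hu0).1.mul_left (u ^ (s - 1) / Real.Gamma s)
  rw [← ENNReal.ofReal_tsum_of_nonneg (fun i => mul_nonneg (by positivity)
    (mul_nonneg (hcw i) (ph_nonneg (norm_nonneg _)))) h7, tsum_mul_left, SS]

theorem int_low {s : ℝ} (h0 : 0 < s) (h1 : s < 1) {w' w : ℝ} (hw' : 0 < w') (hw : w' ≤ w) :
    IntervalIntegrable (fun u => u ^ (s - 1) / Real.Gamma s * (bk 0 u - 1)) volume w' w ∧
    ∫ u in w'..w, u ^ (s - 1) / Real.Gamma s * (bk 0 u - 1) =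
      (bk s w' - bk s w) * ms s - (w ^ s - w' ^ s) / (s * Real.Gamma s) := by
  have hG : 0 < Real.Gamma s := Real.Gamma_pos_of_pos h0
  have hG2 : 0 < Real.Gamma (2 - s) := Real.Gamma_pos_of_pos (by linarith)
  have h2s : 0 < 2 - s := by linarith
  have hpos : ∀ v ∈ uIcc w' w, 0 < v := by
    intro v hv
    rw [uIcc_of_le hw] at hv
    exact lt_of_lt_of_le hw' hv.1
  have hi : IntervalIntegrable (fun u => u ^ (s - 1) / Real.Gamma s * (bk 0 u - 1)) volume w' w := by
    refine ContinuousOn.intervalIntegrable ?_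
    unfold bk
    have hp : ∀ e : ℝ, ContinuousOn (fun u : ℝ => u ^ e) (uIcc w' w) := fun e =>
      ContinuousOn.rpow_const continuousOn_id fun v hv => Or.inl (hpos v hv).ne'
    exact ((hp _).div_const _).mul ((continuousOn_const.mul (hp _)).sub continuousOn_const)
  refine ⟨hi, ?_⟩
  have hder : ∀ v ∈ uIcc w' w, HasDerivAt (fun v => -(2 * Real.pi / ((2 - s) * Real.Gamma s)) *
      v ^ (s - 2) - v ^ s / (s * Real.Gamma s))
      (v ^ (s - 1) / Real.Gamma s * (bk 0 v - 1)) v := by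
    intro v hv
    have hv0 := hpos v hv
    have h3 := (Real.hasDerivAt_rpow_const (x := v) (p := s - 2) (Or.inl hv0.ne')).const_mul
      (-(2 * Real.pi / ((2 - s) * Real.Gamma s)))
    have h4 := (Real.hasDerivAt_rpow_const (x := v) (p := s) (Or.inl hv0.ne')).div_const
      (s * Real.Gamma s)
    refine (h3.sub h4).congr_deriv ?_
    have e1 : v ^ (s - 2 - 1) = v ^ (s - 1) * v ^ (0 - 2 : ℝ) := by
      rw [← Real.rpow_add hv0]
      congr 1
      ring
    rw [bk, e1, sub_zero, Real.Gamma_two]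
    field_simp
    ring
  rw [intervalIntegral.integral_eq_sub_of_hasDerivAt hder hi]
  have h5 := ms_eq h0 h1
  have h6 : ms s * Real.Gamma (2 - s) = 1 / ((2 - s) * Real.Gamma s) := by
    rw [eq_div_iff (by positivity), ← h5]
    ring
  have h7 : (bk s w' - bk s w) * ms s =
      2 * Real.pi * (ms s * Real.Gamma (2 - s)) * (w' ^ (s - 2) - w ^ (s - 2)) := by
    rw [bk, bk]
    ring
  rw [h7, h6]
  ring

theorem B_step {s : ℝ} (h0 : 0 < s) (h1 : s < 1) {a b : ℂ} {y : Fin m → ℂ} (hY : Per m a b y)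
    {w' w : ℝ} (hw' : 0 < w') (hw : w' ≤ w) :
    ∫ t, AS s (bb t * w) a b y ∂(ars s) ≤ ∫ t, AS s (bb t * w') a b y ∂(ars s) +
      (w ^ s - w' ^ s) / (s * Real.Gamma s) := by
  have hG : 0 < Real.Gamma s := Real.Gamma_pos_of_pos h0
  have hw0 : 0 < w := lt_of_lt_of_le hw' hw
  obtain ⟨i1, e1⟩ := SS_int h0 h1 hY hw'
  obtain ⟨i2, e2⟩ := SS_int h0 h1 hY hw0
  have f1 := SS_formula h0 h1 hY hw'
  have f2 := SS_formula h0 h1 hY hw0
  obtain ⟨i3, e3⟩ := int_low h0 h1 hw' hw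
  set T' : ℝ := ∫ t, SS s (bb t * w') a b y ∂(ars s) with hT'
  set T : ℝ := ∫ t, SS s (bb t * w) a b y ∂(ars s) with hT
  have hT'0 : 0 ≤ T' := integral_nonneg fun t => SS_nonneg hY
  have key : ENNReal.ofReal (T + ∫ u in w'..w, u ^ (s - 1) / Real.Gamma s * (bk 0 u - 1)) ≤
      ENNReal.ofReal T' := by
    refine (ENNReal.ofReal_add_le).trans ?_
    rw [f1, f2, ← Ioc_union_Ioi_eq_Ioi hw, lintegral_union measurableSet_Ioi
      (Set.disjoint_left.2 fun v hv hv' => absurd hv.2 (not_le.2 hv')), add_comm]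
    refine add_le_add_left ?_ _
    rw [intervalIntegral.integral_of_le hw]
    refine (ofReal_int_le i3.1).trans ?_
    refine setLIntegral_mono' measurableSet_Ioc fun u hu => ?_
    have hu0 : 0 < u := hw'.trans hu.1
    refine ENNReal.ofReal_le_ofReal (mul_le_mul_of_nonneg_left (LB0 hY hu0).2 (by positivity))
  have key2 := (ENNReal.ofReal_le_ofReal_iff hT'0).1 key
  rw [e3, e1, e2] at key2
  linarith

/-- **Damping in the plane.** -/
theorem plane_G2 {s : ℝ} (h0 : 0 < s) (h1 : s < 1) : ∃ C : ℝ, 0 ≤ C ∧ ∀ {m : ℕ} {a b : ℂ}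
    {y : Fin m → ℂ}, Per m a b y → ∀ E : ℝ,
      Tendsto (fun w => AS s w a b y) (𝓝[>] 0) (𝓝 E) → ∀ w : ℝ, 0 < w →
      ∫ t, AS s (bb t * w) a b y ∂(ars s) ≤ E + C * w ^ s := by
  have hG : 0 < Real.Gamma s := Real.Gamma_pos_of_pos h0
  have := ars_prob h0 h1
  refine ⟨1 / (s * Real.Gamma s), by positivity, fun {m a b y} hY E hE w hw => ?_⟩
  obtain ⟨C, hC⟩ := AS_bdd h0 (by linarith : s < 2) hY
  have hlim : Tendsto (fun w' => ∫ t, AS s (bb t * w') a b y ∂(ars s)) (𝓝[>] 0) (𝓝 E) := by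
    have h3 : Tendsto (fun w' => ∫ t, AS s (bb t * w') a b y ∂(ars s)) (𝓝[>] 0)
        (𝓝 (∫ _, E ∂(ars s))) := by
      refine tendsto_integral_filter_of_dominated_convergence (fun _ => C) ?_ ?_
        (integrable_const C) ?_
      · filter_upwards [self_mem_nhdsWithin] with w' hw'
        exact (AS_int h0 h1 hY hw').aestronglyMeasurable
      · filter_upwards [self_mem_nhdsWithin] with w' hw'
        exact Eventually.of_forall fun t => hC _ (mul_pos (bb_pos t) hw')
      · refine Eventually.of_forall fun t => hE.comp ?_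
        refine tendsto_nhdsWithin_iff.2 ⟨?_, ?_⟩
        · have h5 : Continuous fun w' : ℝ => bb t * w' := by fun_prop
          have h6 := h5.tendsto 0
          rw [mul_zero] at h6
          exact h6.mono_left nhdsWithin_le_nhds
        · filter_upwards [self_mem_nhdsWithin] with w' hw'
          exact mul_pos (bb_pos t) hw'
    simpa using h3
  refine ge_of_tendsto (hlim.add_const (1 / (s * Real.Gamma s) * w ^ s)) ?_
  have hmem : Ioo (0 : ℝ) w ∈ 𝓝[>] (0 : ℝ) := Ioo_mem_nhdsGT hw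
  filter_upwards [hmem] with w' hw'
  have h3 := B_step h0 h1 hY hw'.1 hw'.2.le
  have h4 : (w ^ s - w' ^ s) / (s * Real.Gamma s) ≤ 1 / (s * Real.Gamma s) * w ^ s := by
    have h5 : 0 ≤ w' ^ s := Real.rpow_nonneg hw'.1.le _
    rw [div_mul_eq_mul_div, one_mul]
    exact div_le_div_of_nonneg_right (by linarith) (by positivity)
  linarith

end Pool.Agent.Helper51.RT
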