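import Pool.Agent.Helper51.RT.H0
import Pool.Agent.Helper51.RT.A
import Pool.Agent.Helper51.RT.E
import Pool.Agent.Helper51.RT.F

/-! # RT-H: the constant is at most the second order term of finitely many points plus an error -/

set_option autoImplicit false

open MeasureTheory Set Metric Filter Topology
open scoped ENNReal

namespace Pool.Agent.Helper51.RT

open Pool.Agent.Helper42.RZ Pool.Agent.Helper42.RZ2 Pool.Agent.Helper42.RZ.S15
open Pool.Agent.Helper33.RZ2 (integral_scale)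

/-- the limit of many points -/
theorem c_le_of {s : ℝ} (h0 : 0 < s) (h2 : s < 2) {c : ℝ} (hc : Tendsto (fN s) atTop (𝓝 c))
    {G : ℝ} {N₀ : ℕ} (H : ∀ N₁ : ℕ, N₀ ≤ N₁ → 1 ≤ N₁ → ∀ β : ℝ,
      (∀ N' : ℕ, β ≤ minE s N' - 2 * N₁ * Cc s * N' + Cc s * (N₁ : ℝ) ^ 2) →
      β ≤ (N₁ : ℝ) ^ (1 + s / 2) * G) : c ≤ G := by
  have key : ∀ ε : ℝ, 0 < ε → ε < 1 / 4 →
      ((1 + ε) / (1 - 2 * ε)) ^ 4 * (c * (1 - ε) ^ (1 + s / 2)) ≤ G := by
    intro ε hε hε1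
    obtain ⟨N₂, hN₂⟩ := extraction h0 h2 hε hε1
    set p : ℝ := 1 + s / 2 with hp
    set q : ℝ := (1 + ε) / (1 - 2 * ε) with hq
    have h1ε : 0 < 1 - ε := by linarith
    set N : ℕ → ℕ := fun k => ⌊(1 - ε) * (k : ℝ)⌋₊ with hN
    have hNk : Tendsto (fun k : ℕ => (N k : ℝ) / k) atTop (𝓝 (1 - ε)) :=
      (tendsto_nat_floor_mul_div_atTop h1ε.le).comp tendsto_natCast_atTop_atTop
    have hNtop : Tendsto N atTop atTop := by
      refine tendsto_nat_floor_atTop.comp ?_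
      exact tendsto_natCast_atTop_atTop.const_mul_atTop h1ε
    have hf : Tendsto (fun k : ℕ => q ^ 4 * (fN s (N k) * ((N k : ℝ) / k) ^ p)) atTop
        (𝓝 (q ^ 4 * (c * (1 - ε) ^ p))) := by
      refine Tendsto.const_mul _ ?_
      exact (hc.comp hNtop).mul (hNk.rpow_const (Or.inl h1ε.ne'))
    refine le_of_tendsto hf ?_
    have hev1 : ∀ᶠ k : ℕ in atTop, 1 ≤ N k := hNtop.eventually_ge_atTop 1
    have hev2 : ∀ᶠ k : ℕ in atTop, (1 - 2 * ε) < (N k : ℝ) / k :=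
      hNk.eventually (lt_mem_nhds (by linarith))
    filter_upwards [eventually_ge_atTop (max (max N₂ 1) N₀), hev1, hev2] with k hk hk1 hk2
    have hkN₂ : N₂ ≤ k := (le_max_left _ _).trans ((le_max_left _ _).trans hk)
    have hk0 : 1 ≤ k := (le_max_right _ _).trans ((le_max_left _ _).trans hk)
    have hkN₀ : N₀ ≤ k := (le_max_right _ _).trans hk
    have hk' : (0 : ℝ) < k := by exact_mod_cast hk0
    have hNk' : (0 : ℝ) < (N k : ℝ) := by exact_mod_cast hk1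
    have hlow : (1 - 2 * ε) * (k : ℝ) ≤ (N k : ℝ) := by
      rw [lt_div_iff₀ hk'] at hk2
      exact hk2.le
    have hup : (N k : ℝ) ≤ (1 - ε) * k := Nat.floor_le (by positivity)
    have hβ := H k hkN₀ hk0 (q ^ 4 * (minE s (N k) - Cc s * (N k : ℝ) ^ 2))
      (fun N' => hN₂ k hkN₂ (N k) hlow hup N')
    have hkp0 : 0 < (k : ℝ) ^ p := Real.rpow_pos_of_pos hk' _
    have hNp0 : 0 < (N k : ℝ) ^ p := Real.rpow_pos_of_pos hNk' _
    have e1 : q ^ 4 * (fN s (N k) * ((N k : ℝ) / k) ^ p) =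
        (q ^ 4 * (minE s (N k) - Cc s * (N k : ℝ) ^ 2)) / (k : ℝ) ^ p := by
      rw [fN, ← hp, Real.div_rpow hNk'.le hk'.le]
      field_simp
    rw [e1, div_le_iff₀ hkp0, mul_comm G]
    exact hβ
  set F : ℝ → ℝ := fun ε => ((1 + ε) / (1 - 2 * ε)) ^ 4 * (c * (1 - ε) ^ (1 + s / 2)) with hF
  have hsub : ContinuousAt (fun ε : ℝ => 1 - ε) 0 := by fun_prop
  have hr : ∀ e : ℝ, ContinuousAt (fun ε : ℝ => (1 - ε) ^ e) 0 := fun e =>
    hsub.rpow_const (Or.inl (by norm_num))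
  have hFc : ContinuousAt F 0 := by
    refine ContinuousAt.mul ?_ (ContinuousAt.mul continuousAt_const (hr _))
    refine ContinuousAt.pow (ContinuousAt.div (by fun_prop) (by fun_prop) (by norm_num)) 4
  have hF0 : Tendsto F (𝓝[>] 0) (𝓝 (F 0)) := hFc.tendsto.mono_left nhdsWithin_le_nhds
  have hle : ∀ᶠ ε in 𝓝[>] (0 : ℝ), F ε ≤ G := by
    have hmem : Ioo (0 : ℝ) (1 / 4) ∈ 𝓝[>] (0 : ℝ) := Ioo_mem_nhdsGT (by norm_num)
    filter_upwards [hmem] with ε hε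
    exact key ε hε.1 hε.2
  have hfin := le_of_tendsto hF0 hle
  have e1 : F 0 = c := by simp [hF]
  rw [e1] at hfin
  exact hfin

/-- numerical estimate -/
theorem pow_bound {s η κ : ℝ} (h1 : 1 ≤ s) (h2 : s < 2) (hη : 0 < η) (hη2 : η ≤ 1 / 2)
    (hκ : 0 < κ) (hκ2 : κ ≤ 1 / 2) :
    1 ≤ (1 - η) ^ (-s) ∧ (1 - η) ^ (-s) ≤ 4 ∧ 0 ≤ (1 - κ) * (1 - η) ^ (2 - s) ∧
      (1 - κ) * (1 - η) ^ (2 - s) ≤ 1 ∧
      (1 - η) ^ (-s) - (1 - κ) * (1 - η) ^ (2 - s) ≤ 9 * (η + κ) := by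
  have hη1 : 0 < 1 - η := by linarith
  have a1 : 1 ≤ (1 - η) ^ (-s) :=
    Real.one_le_rpow_of_pos_of_le_one_of_nonpos hη1 (by linarith) (by linarith)
  have a2 : (1 - η) ^ (-s) ≤ (1 - η) ^ (-2 : ℝ) :=
    Real.rpow_le_rpow_of_exponent_ge hη1 (by linarith) (by linarith)
  have a3 : (1 - η) ^ (-2 : ℝ) = ((1 - η) ^ 2)⁻¹ := by
    rw [Real.rpow_neg hη1.le, Real.rpow_two]
  have a4 : ((1 - η) ^ 2)⁻¹ ≤ 1 + 8 * η := by
    rw [inv_le_iff_one_le_mul₀ (by positivity)]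
    nlinarith [mul_pos hη hη, mul_nonneg hη.le (sub_nonneg.2 hη2),
      mul_nonneg (mul_pos hη hη).le (sub_nonneg.2 hη2)]
  have a5 : (1 - η) ^ (2 - s) ≤ 1 := Real.rpow_le_one hη1.le (by linarith) (by linarith)
  have a6 : 1 - η ≤ (1 - η) ^ (2 - s) := by
    calc 1 - η = (1 - η) ^ (1 : ℝ) := (Real.rpow_one _).symm
      _ ≤ (1 - η) ^ (2 - s) := Real.rpow_le_rpow_of_exponent_ge hη1 (by linarith) (by linarith)
  have hκ1 : 0 < 1 - κ := by linarith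
  have a7 : (1 - κ) * (1 - η) ≤ (1 - κ) * (1 - η) ^ (2 - s) := mul_le_mul_of_nonneg_left a6 hκ1.le
  have a8 : (1 - κ) * (1 - η) ^ (2 - s) ≤ 1 * 1 :=
    mul_le_mul (by linarith) a5 (by positivity) zero_le_one
  have a9 : ((1 - η) ^ 2)⁻¹ ≤ 4 := by
    rw [inv_le_iff_one_le_mul₀ (by positivity)]
    nlinarith
  refine ⟨a1, ?_, by positivity, by linarith, ?_⟩
  · rw [a3] at a2
    linarith
  · rw [a3] at a2
    nlinarith

/-- error estimate -/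
theorem err_bound {s η κ w g X f b : ℝ} (h1 : 1 ≤ s) (h2 : s < 2) (hη : 0 < η)
    (hη2 : η ≤ 1 / 2) (hκ : 0 < κ) (hκ2 : κ ≤ 1 / 2) (hw : 0 < w) (hf : f ≤ 0) (hb : 0 ≤ b)
    (hg : g ≤ 1 / 2 * Real.Gamma (2 - s))
    (hX : 1 / 2 * Real.Gamma (2 - s) - g ≤ 2 * Real.Gamma (2 - s) * Real.exp (-X)) :
    (1 - η) ^ (-s) * (w ^ (s - 2) * (1 / 2 * Real.Gamma (2 - s)) + f + b * w) -
      (1 - κ) * ((1 - η) ^ (2 - s) * (w ^ (s - 2) * g)) ≤
    f + (5 * Real.Gamma (2 - s) + 4 * b) *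
      (w + (η + κ) * w ^ (s - 2) + w ^ (s - 2) * Real.exp (-X)) := by
  obtain ⟨a1, a2, a3, a4, a5⟩ := pow_bound h1 h2 hη hη2 hκ hκ2
  have hG : 0 < Real.Gamma (2 - s) := Real.Gamma_pos_of_pos (by linarith)
  set Γ : ℝ := Real.Gamma (2 - s)
  set P : ℝ := (1 - η) ^ (-s)
  set Q : ℝ := (1 - κ) * (1 - η) ^ (2 - s) with hQ
  set W : ℝ := w ^ (s - 2) with hW
  have hW0 : 0 < W := Real.rpow_pos_of_pos hw _
  have hE : 0 < Real.exp (-X) := Real.exp_pos _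
  have e1 : (1 - κ) * ((1 - η) ^ (2 - s) * (W * g)) = Q * (W * g) := by rw [hQ]; ring
  rw [e1]
  have e2 : P * (W * (1 / 2 * Γ) + f + b * w) - Q * (W * g) =
      P * f + P * b * w + (P - Q) * (W * (1 / 2 * Γ)) + Q * (W * (1 / 2 * Γ - g)) := by ring
  rw [e2]
  have b1 : P * f ≤ f := by nlinarith
  have b2 : P * b * w ≤ 4 * b * w := by
    have := mul_nonneg hb hw.le
    nlinarith
  have b3 : (P - Q) * (W * (1 / 2 * Γ)) ≤ 9 * (η + κ) * (W * (1 / 2 * Γ)) :=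
    mul_le_mul_of_nonneg_right a5 (by positivity)
  have b4 : Q * (W * (1 / 2 * Γ - g)) ≤ 1 * (W * (1 / 2 * Γ - g)) :=
    mul_le_mul_of_nonneg_right a4 (mul_nonneg hW0.le (by linarith))
  have b5 : W * (1 / 2 * Γ - g) ≤ W * (2 * Γ * Real.exp (-X)) :=
    mul_le_mul_of_nonneg_left hX hW0.le
  have c1 : 0 ≤ (η + κ) * W * Γ := by positivity
  have c2 : 0 ≤ W * Real.exp (-X) * Γ := by positivity
  have c3 : 0 ≤ b * ((η + κ) * W) := by positivity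
  have c4 : 0 ≤ b * (W * Real.exp (-X)) := by positivity
  have c5 : 0 ≤ Γ * w := by positivity
  nlinarith

theorem fN_nonpos {s : ℝ} (h0 : 0 < s) (h2 : s < 2) {N : ℕ} (hN : 1 ≤ N) : fN s N ≤ 0 :=
  f_nonpos h0 h2 hN

/-- **Direction 1**: the lower bound for the second order term. -/
theorem dir1 {s : ℝ} (h1 : 1 ≤ s) (h2 : s < 2) {c : ℝ} (hc : Tendsto (fN s) atTop (𝓝 c)) :
    ∃ C : ℝ, 0 < C ∧ ∀ η κ w : ℝ, 0 < η → η ≤ 1 / 2 → 0 < κ → κ ≤ 1 / 2 → 0 < w →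
      ∀ N₀ : ℕ, 1 ≤ N₀ → c ≤ fN s N₀ + C * (w + (η + κ) * w ^ (s - 2) +
        w ^ (s - 2) * Real.exp (-(w * Real.sqrt N₀ * (η * κ ^ 2) / 400))) := by
  have h0 : 0 < s := by linarith
  obtain ⟨b, hb, HF⟩ := sphere_F h1 h2
  have hG : 0 < Real.Gamma (2 - s) := Real.Gamma_pos_of_pos (by linarith)
  refine ⟨5 * Real.Gamma (2 - s) + 4 * b, by positivity,
    fun η κ w hη hη2 hκ hκ2 hw N₀ hN₀ => ?_⟩
  have hη1 : η < 1 := by linarith
  have hη' : 0 < 1 - η := by linarith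
  have hN₀' : (0 : ℝ) < N₀ := by exact_mod_cast hN₀
  have hs0 : 0 < Real.sqrt N₀ := Real.sqrt_pos.2 hN₀'
  have hP0 : 0 < (N₀ : ℝ) ^ (1 + s / 2) := by positivity
  set ε₀ : ℝ := η * κ ^ 2 / 200 with hε₀
  have hε0 : 0 < ε₀ := by positivity
  have hε1 : ε₀ ≤ 1 := by
    have e1 : κ ^ 2 ≤ 1 := by nlinarith
    have e2 : η * κ ^ 2 ≤ 1 * 1 := mul_le_mul (by linarith) e1 (by positivity) zero_le_one
    rw [hε₀]
    linarith
  set X : ℝ := w * Real.sqrt N₀ * ε₀ / (1 - η) with hX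
  have hX0 : 0 ≤ X := by positivity
  set G : ℝ := (1 - η) ^ (-s) * (w ^ (s - 2) * (1 / 2 * Real.Gamma (2 - s)) + fN s N₀ + b * w) -
      (1 - κ) * ((1 - η) ^ (2 - s) * (w ^ (s - 2) * gg s X)) with hGdef
  have hcG : c ≤ G := by
    refine c_le_of h0 h2 hc (N₀ := N₀) fun N₁ hN hN₁ β hβ => ?_
    have hN₁' : (0 : ℝ) < N₁ := by exact_mod_cast hN₁
    have hP1 : 0 < (N₁ : ℝ) ^ (1 + s / 2) := by positivity
    have hPη : 0 < (1 - η) ^ (-s) := Real.rpow_pos_of_pos hη' _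
    refine le_of_forall_pos_le_add fun e he => ?_
    set e' : ℝ := e * (N₀ : ℝ) ^ (1 + s / 2) / ((N₁ : ℝ) ^ (1 + s / 2) * (1 - η) ^ (-s)) with he'
    have he'0 : 0 < e' := by positivity
    obtain ⟨x, hx, hxE⟩ := exists_near (s := s) N₀ he'0
    have hup := up_mix h0 h2 hη hη1 hε0 hε1 (patchOK hη hη1 hκ (by linarith)) hN₀ hN hw x hx hβ
    have hF := HF N₀ x hN₀ hx w hw
    have hbg : (N₀ : ℝ) ^ 2 * bg (fun r => K s r * Real.exp (-(w * Real.sqrt N₀) * r)) ≤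
        (N₀ : ℝ) ^ (1 + s / 2) * (w ^ (s - 2) * (1 / 2 * Real.Gamma (2 - s))) := by
      have hl : 0 < w * Real.sqrt N₀ := by positivity
      have e1 : bg (fun r => K s r * Real.exp (-(w * Real.sqrt N₀) * r)) =
          (w * Real.sqrt N₀) ^ (s - 2) * gg s (w * Real.sqrt N₀ * 2) := by
        unfold bg gg
        exact integral_scale (by norm_num) hl
      have e2 := gg_le h2 (show 0 ≤ w * Real.sqrt N₀ * 2 by positivity)
      rw [e1, Real.mul_rpow hw.le hs0.le]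
      have e3 := pow1 hN₀' s
      calc (N₀ : ℝ) ^ 2 * (w ^ (s - 2) * Real.sqrt N₀ ^ (s - 2) * gg s (w * Real.sqrt N₀ * 2)) =
          ((N₀ : ℝ) ^ 2 * Real.sqrt N₀ ^ (s - 2)) * (w ^ (s - 2) *
            gg s (w * Real.sqrt N₀ * 2)) := by ring
        _ = (N₀ : ℝ) ^ (1 + s / 2) * (w ^ (s - 2) * gg s (w * Real.sqrt N₀ * 2)) := by rw [e3]
        _ ≤ _ := by
            refine mul_le_mul_of_nonneg_left ?_ hP0.le
            exact mul_le_mul_of_nonneg_left e2 (Real.rpow_nonneg hw.le _)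
    have hPS : PS x (fun r => K s r * Real.exp (-(w * Real.sqrt N₀) * r)) /
        (N₀ : ℝ) ^ (1 + s / 2) ≤ w ^ (s - 2) * (1 / 2 * Real.Gamma (2 - s)) + fN s N₀ + b * w +
          e' / (N₀ : ℝ) ^ (1 + s / 2) := by
      rw [div_le_iff₀ hP0]
      have e4 : (w ^ (s - 2) * (1 / 2 * Real.Gamma (2 - s)) + fN s N₀ + b * w +
          e' / (N₀ : ℝ) ^ (1 + s / 2)) * (N₀ : ℝ) ^ (1 + s / 2) =
          (N₀ : ℝ) ^ (1 + s / 2) * (w ^ (s - 2) * (1 / 2 * Real.Gamma (2 - s))) +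
            (minE s N₀ - Cc s * (N₀ : ℝ) ^ 2) + b * w * (N₀ : ℝ) ^ (1 + s / 2) + e' := by
        rw [fN]
        field_simp
      rw [e4]
      linarith
    refine hup.trans ?_
    have e5 : (N₁ : ℝ) ^ (1 + s / 2) * G + e = (N₁ : ℝ) ^ (1 + s / 2) *
        ((1 - η) ^ (-s) * (w ^ (s - 2) * (1 / 2 * Real.Gamma (2 - s)) + fN s N₀ + b * w +
          e' / (N₀ : ℝ) ^ (1 + s / 2)) -
        (1 - κ) * ((1 - η) ^ (2 - s) * (w ^ (s - 2) * gg s X))) := by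
      rw [hGdef, he']
      field_simp
      ring
    rw [e5]
    refine mul_le_mul_of_nonneg_left ?_ hP1.le
    refine sub_le_sub_right ?_ _
    exact mul_le_mul_of_nonneg_left hPS hPη.le
  refine hcG.trans ?_
  refine err_bound h1 h2 hη hη2 hκ hκ2 hw (fN_nonpos h0 h2 hN₀) hb.le (gg_le h2 hX0)
    ((gg_tail h0 h2 hX0).trans ?_)
  refine mul_le_mul_of_nonneg_left (Real.exp_le_exp.2 (neg_le_neg ?_)) (by positivity)
  have e6 : w * Real.sqrt N₀ * (η * κ ^ 2) / 400 = w * Real.sqrt N₀ * ε₀ / 2 := by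
    rw [hε₀]
    ring
  rw [e6]
  refine div_le_div_of_nonneg_right ?_ (by norm_num)
  rw [hX, le_div_iff₀ hη']
  have : 0 ≤ w * Real.sqrt N₀ * ε₀ := by positivity
  nlinarith

end Pool.Agent.Helper51.RT
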