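import Pool.Agent.Helper51.RT.C
import Pool.Agent.Helper51.RT.G0
import Pool.Agent.Helper33.RZ2.R10
import Pool.Agent.Helper42.RZ.S15

/-! # RT-H0: Poisson mixture of the pasting inequality -/

set_option autoImplicit false

open MeasureTheory Set Metric Filter Topology
open scoped ENNReal

namespace Pool.Agent.Helper51.RT

open Pool.Agent.Helper42.RZ Pool.Agent.Helper42.RZ2 Pool.Agent.Helper42.RZ.S15
open Pool.Agent.Helper33.RZ2 (mixT integral_scale)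

theorem up_mix {s : ℝ} (h0 : 0 < s) (h2 : s < 2) {η κ ε₀ : ℝ} (hη : 0 < η) (hη1 : η < 1)
    (hε0 : 0 < ε₀) (hε1 : ε₀ ≤ 1) (hpatch : PatchOK η κ ε₀) {N₀ N₁ : ℕ} (hN₀ : 1 ≤ N₀)
    (hN : N₀ ≤ N₁) {w : ℝ} (hw : 0 < w) (x : Fin N₀ → E3) (hx : Conf x) {β : ℝ}
    (hβ : ∀ N' : ℕ, β ≤ minE s N' - 2 * N₁ * Cc s * N' + Cc s * (N₁ : ℝ) ^ 2) :
    β ≤ (N₁ : ℝ) ^ (1 + s / 2) * ((1 - η) ^ (-s) *
        (PS x (fun r => K s r * Real.exp (-(w * Real.sqrt N₀) * r)) / (N₀ : ℝ) ^ (1 + s / 2)) -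
      (1 - κ) * ((1 - η) ^ (2 - s) * (w ^ (s - 2) *
        gg s (w * Real.sqrt N₀ * ε₀ / (1 - η))))) := by
  have hN₀' : (0 : ℝ) < N₀ := by exact_mod_cast hN₀
  have hN₁' : (0 : ℝ) < N₁ := by exact_mod_cast (hN₀.trans hN)
  have hNR : (N₀ : ℝ) ≤ N₁ := by exact_mod_cast hN
  have hs0 : 0 < Real.sqrt N₀ := Real.sqrt_pos.2 hN₀'
  have hs1 : 0 < Real.sqrt N₁ := Real.sqrt_pos.2 hN₁'
  have hη' : 0 < 1 - η := by linarith
  have hq : Real.sqrt (N₀ / N₁) = Real.sqrt N₀ / Real.sqrt N₁ := Real.sqrt_div' _ hN₁'.le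
  have hq' : Real.sqrt (N₁ / N₀) = Real.sqrt N₁ / Real.sqrt N₀ := Real.sqrt_div' _ hN₀'.le
  have hq0 : 0 < Real.sqrt (N₀ / N₁) := by rw [hq]; positivity
  have hq1 : Real.sqrt (N₀ / N₁) ≤ 1 := by
    rw [← Real.sqrt_one]
    exact Real.sqrt_le_sqrt ((div_le_one hN₁').2 hNR)
  set ρ : ℝ := ε₀ * Real.sqrt (N₀ / N₁) with hρdef
  have hρ : 0 < ρ := by positivity
  have hρ1 : ρ ≤ 1 := by
    calc ρ ≤ 1 * 1 := mul_le_mul hε1 hq1 hq0.le zero_le_one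
      _ = 1 := one_mul 1
  have hρA : ρ * Real.sqrt (N₁ / N₀) ≤ ε₀ := by
    rw [hρdef, hq, hq']
    apply le_of_eq
    field_simp
  set l : ℝ := w * Real.sqrt N₁ / (1 - η) with hl
  have hl0 : 0 < l := by positivity
  have hM := fun M : ℕ => upM h0 h2 hη hη1 (by linarith : ε₀ ≤ 2) hpatch N₀ N₁ hN₀ hN ρ hρ hρA x hx
    M β hβ
  have hmix := mixT (s := s) h2 ((Finset.univ : Finset (Fin N₀)).offDiag)
    (fun p => (1 - η) * Real.sqrt (N₀ / N₁) * ‖x p.1 - x p.2‖) (ρ := ρ)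
    (A := (N₁ : ℝ) / N₀) (B := (N₁ : ℝ) ^ 2 * (1 - κ)) (β := β) (l := l) hρ.le hρ1 hl0.le
    (fun M => by
      have := hM M
      rwa [← mul_assoc ((N₁ : ℝ) ^ 2)] at this)
  rw [integral_scale hρ hl0] at hmix
  have hlρ : l * ρ = w * Real.sqrt N₀ * ε₀ / (1 - η) := by
    rw [hl, hρdef, hq]
    field_simp
  rw [hlρ] at hmix
  have hb : 0 < (1 - η) * Real.sqrt (N₀ / N₁) := by positivity
  have hsum : ∑ q ∈ (Finset.univ : Finset (Fin N₀)).offDiag,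
      K s ((1 - η) * Real.sqrt (N₀ / N₁) * ‖x q.1 - x q.2‖) *
        Real.exp (-l * ((1 - η) * Real.sqrt (N₀ / N₁) * ‖x q.1 - x q.2‖)) =
      ((1 - η) * Real.sqrt (N₀ / N₁)) ^ (-s) *
        PS x (fun r => K s r * Real.exp (-(w * Real.sqrt N₀) * r)) := by
    rw [PS, Finset.mul_sum]
    refine Finset.sum_congr rfl fun p _ => ?_
    have e1 : -l * ((1 - η) * Real.sqrt (N₀ / N₁) * ‖x p.1 - x p.2‖) =
        -(w * Real.sqrt N₀) * ‖x p.1 - x p.2‖ := by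
      rw [hl, hq]
      field_simp
    rw [e1, K, K, Real.mul_rpow hb.le (norm_nonneg _)]
    ring
  rw [hsum, ← mul_assoc, pow2 hN₀' hN₁' hη1] at hmix
  have hls : (N₁ : ℝ) ^ 2 * l ^ (s - 2) =
      (N₁ : ℝ) ^ (1 + s / 2) * ((1 - η) ^ (2 - s) * w ^ (s - 2)) := by
    rw [hl, Real.div_rpow (by positivity) hη'.le, Real.mul_rpow hw.le hs1.le, ← pow1 hN₁' s,
      show (2 - s : ℝ) = -(s - 2) by ring, Real.rpow_neg hη'.le]
    ring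
  refine hmix.trans (le_of_eq ?_)
  have e2 : (N₁ : ℝ) ^ 2 * (1 - κ) * (l ^ (s - 2) * (1 / 2 *
      ∫ v in (0 : ℝ)..(w * Real.sqrt N₀ * ε₀ / (1 - η)), Real.exp (-v) * v ^ (2 - s - 1))) =
      ((N₁ : ℝ) ^ 2 * l ^ (s - 2)) * (1 - κ) * gg s (w * Real.sqrt N₀ * ε₀ / (1 - η)) := by
    rw [gg]
    ring
  rw [e2, hls]
  ring

end Pool.Agent.Helper51.RT
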