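import Pool.Agent.Helper51.RT.F2
import Pool.Agent.Helper51.RT.H

/-! # RT-H2: Direction 1 for `s < 1` -/

set_option autoImplicit false

open MeasureTheory Set Metric Filter Topology
open scoped ENNReal

namespace Pool.Agent.Helper51.RT

open Pool.Agent.Helper42.RZ Pool.Agent.Helper42.RZ2 Pool.Agent.Helper42.RZ.S15

/-- numerical estimate -/
theorem pow_bound2 {s η κ : ℝ} (h0 : 0 < s) (h2 : s < 2) (hη : 0 < η) (hη2 : η ≤ 1 / 2)
    (hκ : 0 < κ) (hκ2 : κ ≤ 1 / 2) :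
    1 ≤ (1 - η) ^ (-s) ∧ (1 - η) ^ (-s) ≤ 4 ∧ 0 ≤ (1 - κ) * (1 - η) ^ (2 - s) ∧
      (1 - κ) * (1 - η) ^ (2 - s) ≤ 1 ∧
      (1 - η) ^ (-s) - (1 - κ) * (1 - η) ^ (2 - s) ≤ 10 * (η + κ) := by
  have hη1 : 0 < 1 - η := by linarith
  have a1 : 1 ≤ (1 - η) ^ (-s) :=
    Real.one_le_rpow_of_pos_of_le_one_of_nonpos hη1 (by linarith) (by linarith)
  have a2 : (1 - η) ^ (-s) ≤ (1 - η) ^ (-2 : ℝ) :=
    Real.rpow_le_rpow_of_exponent_ge hη1 (by linarith) (by linarith)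
  have a3 : (1 - η) ^ (-2 : ℝ) = ((1 - η) ^ 2)⁻¹ := by
    rw [Real.rpow_neg hη1.le, Real.rpow_two]
  have a4 : ((1 - η) ^ 2)⁻¹ ≤ 1 + 8 * η := by
    rw [inv_le_iff_one_le_mul₀ (by positivity)]
    nlinarith [mul_pos hη hη, mul_nonneg hη.le (sub_nonneg.2 hη2),
      mul_nonneg (mul_pos hη hη).le (sub_nonneg.2 hη2)]
  have a5 : (1 - η) ^ (2 - s) ≤ 1 := Real.rpow_le_one hη1.le (by linarith) (by linarith)
  have a6 : 1 - 2 * η ≤ (1 - η) ^ (2 - s) := by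
    calc 1 - 2 * η ≤ (1 - η) ^ 2 := by nlinarith
      _ = (1 - η) ^ (2 : ℝ) := (Real.rpow_two _).symm
      _ ≤ (1 - η) ^ (2 - s) := Real.rpow_le_rpow_of_exponent_ge hη1 (by linarith) (by linarith)
  have hκ1 : 0 < 1 - κ := by linarith
  have a7 : (1 - κ) * (1 - 2 * η) ≤ (1 - κ) * (1 - η) ^ (2 - s) :=
    mul_le_mul_of_nonneg_left a6 hκ1.le
  have a8 : (1 - κ) * (1 - η) ^ (2 - s) ≤ 1 * 1 :=
    mul_le_mul (by linarith) a5 (by positivity) zero_le_one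
  have a9 : ((1 - η) ^ 2)⁻¹ ≤ 4 := by
    rw [inv_le_iff_one_le_mul₀ (by positivity)]
    nlinarith
  refine ⟨a1, ?_, by positivity, by linarith, ?_⟩
  · rw [a3] at a2
    linarith
  · rw [a3] at a2
    nlinarith [mul_nonneg hη.le hκ.le]

/-- error estimate -/
theorem err_bound2 {s η κ W v g X f b : ℝ} (h0 : 0 < s) (h2 : s < 2) (hη : 0 < η)
    (hη2 : η ≤ 1 / 2) (hκ : 0 < κ) (hκ2 : κ ≤ 1 / 2) (hW0 : 0 ≤ W) (hv : 0 ≤ v) (hf : f ≤ 0)
    (hb : 0 ≤ b) (hg : g ≤ 1 / 2 * Real.Gamma (2 - s))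
    (hX : 1 / 2 * Real.Gamma (2 - s) - g ≤ 2 * Real.Gamma (2 - s) * Real.exp (-X)) :
    (1 - η) ^ (-s) * (W * (1 / 2 * Real.Gamma (2 - s)) + f + b * v) -
      (1 - κ) * ((1 - η) ^ (2 - s) * (W * g)) ≤
    f + (5 * Real.Gamma (2 - s) + 4 * b) * (v + (η + κ) * W + W * Real.exp (-X)) := by
  obtain ⟨a1, a2, a3, a4, a5⟩ := pow_bound2 h0 h2 hη hη2 hκ hκ2
  have hG : 0 < Real.Gamma (2 - s) := Real.Gamma_pos_of_pos (by linarith)
  set Γ : ℝ := Real.Gamma (2 - s)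
  set P : ℝ := (1 - η) ^ (-s)
  set Q : ℝ := (1 - κ) * (1 - η) ^ (2 - s) with hQ
  have hE : 0 < Real.exp (-X) := Real.exp_pos _
  have e1 : (1 - κ) * ((1 - η) ^ (2 - s) * (W * g)) = Q * (W * g) := by rw [hQ]; ring
  rw [e1]
  have e2 : P * (W * (1 / 2 * Γ) + f + b * v) - Q * (W * g) =
      P * f + P * b * v + (P - Q) * (W * (1 / 2 * Γ)) + Q * (W * (1 / 2 * Γ - g)) := by ring
  rw [e2]
  have b1 : P * f ≤ f := by nlinarith
  have b2 : P * b * v ≤ 4 * b * v := by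
    have := mul_nonneg hb hv
    nlinarith
  have b3 : (P - Q) * (W * (1 / 2 * Γ)) ≤ 10 * (η + κ) * (W * (1 / 2 * Γ)) :=
    mul_le_mul_of_nonneg_right a5 (by positivity)
  have b4 : Q * (W * (1 / 2 * Γ - g)) ≤ 1 * (W * (1 / 2 * Γ - g)) :=
    mul_le_mul_of_nonneg_right a4 (mul_nonneg hW0 (by linarith))
  have b5 : W * (1 / 2 * Γ - g) ≤ W * (2 * Γ * Real.exp (-X)) :=
    mul_le_mul_of_nonneg_left hX hW0
  have c1 : 0 ≤ (η + κ) * W * Γ := by positivity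
  have c2 : 0 ≤ W * Real.exp (-X) * Γ := by positivity
  have c3 : 0 ≤ b * ((η + κ) * W) := by positivity
  have c4 : 0 ≤ b * (W * Real.exp (-X)) := by positivity
  have c5 : 0 ≤ Γ * v := by positivity
  nlinarith

theorem PS_kw {s : ℝ} (h0 : 0 < s) (h1 : s < 1) {N : ℕ} (x : Fin N → E3) {w : ℝ} (hw : 0 ≤ w) :
    Integrable (fun a => PS x (fun r => K s r * Real.exp (-(bb a * w) * r))) (ars s) ∧
      ∫ a, PS x (fun r => K s r * Real.exp (-(bb a * w) * r)) ∂(ars s) = PS x (kw s w) := by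
  unfold PS
  constructor
  · exact integrable_finsetSum _ fun p _ => kw_int h0 h1 hw (norm_nonneg _)
  · rw [integral_finsetSum _ fun p _ => kw_int h0 h1 hw (norm_nonneg _)]
    rfl

theorem up_mix2 {s : ℝ} (h0 : 0 < s) (h1 : s < 1) {η κ ε₀ : ℝ} (hη : 0 < η) (hη1 : η < 1)
    (hκ1 : κ ≤ 1) (hε0 : 0 < ε₀) (hε1 : ε₀ ≤ 1) (hpatch : PatchOK η κ ε₀) {N₀ N₁ : ℕ}
    (hN₀ : 1 ≤ N₀) (hN : N₀ ≤ N₁) {w : ℝ} (hw : 0 < w) (x : Fin N₀ → E3) (hx : Conf x) {β : ℝ}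
    (hβ : ∀ N' : ℕ, β ≤ minE s N' - 2 * N₁ * Cc s * N' + Cc s * (N₁ : ℝ) ^ 2) :
    β ≤ (N₁ : ℝ) ^ (1 + s / 2) * ((1 - η) ^ (-s) *
        (PS x (kw s (w * Real.sqrt N₀)) / (N₀ : ℝ) ^ (1 + s / 2)) -
      (1 - κ) * ((1 - η) ^ (2 - s) * (w ^ (s - 2) * ms s * (1 / 2 * Real.Gamma (2 - s) -
        2 * Real.Gamma (2 - s) * Real.exp (-(w * Real.sqrt N₀ * ε₀ / (1 - η) / 2)))))) := by
  have := ars_prob h0 h1
  have hη' : 0 < 1 - η := by linarith
  have hN₀' : (0 : ℝ) < N₀ := by exact_mod_cast hN₀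
  have hN₁' : (0 : ℝ) < N₁ := by exact_mod_cast (hN₀.trans hN)
  have hs0 : 0 < Real.sqrt N₀ := Real.sqrt_pos.2 hN₀'
  have hG : 0 < Real.Gamma (2 - s) := Real.Gamma_pos_of_pos (by linarith)
  have hP1 : 0 < (N₁ : ℝ) ^ (1 + s / 2) := by positivity
  set X : ℝ := w * Real.sqrt N₀ * ε₀ / (1 - η) with hX
  have hX0 : 0 ≤ X := by positivity
  set g₀ : ℝ := 1 / 2 * Real.Gamma (2 - s) - 2 * Real.Gamma (2 - s) * Real.exp (-(X / 2)) with hg₀
  have hpt : ∀ a : ℝ, β ≤ (N₁ : ℝ) ^ (1 + s / 2) * ((1 - η) ^ (-s) *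
        (PS x (fun r => K s r * Real.exp (-(bb a * (w * Real.sqrt N₀)) * r)) /
          (N₀ : ℝ) ^ (1 + s / 2)) -
      (1 - κ) * ((1 - η) ^ (2 - s) * (w ^ (s - 2) * (bb a) ^ (s - 2) * g₀))) := by
    intro a
    have hb := bb_pos a
    have h3 := up_mix h0 (by linarith) hη hη1 hε0 hε1 hpatch hN₀ hN (w := bb a * w)
      (by positivity) x hx hβ
    rw [show bb a * w * Real.sqrt N₀ = bb a * (w * Real.sqrt N₀) by ring] at h3
    refine h3.trans (mul_le_mul_of_nonneg_left (sub_le_sub_left ?_ _) hP1.le)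
    refine mul_le_mul_of_nonneg_left ?_ (by linarith)
    refine mul_le_mul_of_nonneg_left ?_ (Real.rpow_nonneg hη'.le _)
    rw [Real.mul_rpow hb.le hw.le, mul_comm (bb a ^ (s - 2))]
    refine mul_le_mul_of_nonneg_left ?_
      (mul_nonneg (Real.rpow_nonneg hw.le _) (Real.rpow_nonneg hb.le _))
    set Y : ℝ := bb a * (w * Real.sqrt N₀) * ε₀ / (1 - η) with hY
    have hXY : X ≤ Y := by
      have e1 : Y = bb a * X := by
        rw [hY, hX]
        ring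
      rw [e1]
      exact le_mul_of_one_le_left hX0 (bb_one a)
    have h4 := gg_tail h0 (by linarith : s < 2) (hX0.trans hXY)
    have h5 : Real.exp (-(Y / 2)) ≤ Real.exp (-(X / 2)) := Real.exp_le_exp.2 (by linarith)
    have h6 : 2 * Real.Gamma (2 - s) * Real.exp (-(Y / 2)) ≤
        2 * Real.Gamma (2 - s) * Real.exp (-(X / 2)) :=
      mul_le_mul_of_nonneg_left h5 (by positivity)
    rw [hg₀]
    linarith
  obtain ⟨i1, i2⟩ := PS_kw h0 h1 x (w := w * Real.sqrt N₀) (by positivity)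
  have i3 := ms_int h0 h1
  have hI1 : Integrable (fun a => (1 - η) ^ (-s) *
        (PS x (fun r => K s r * Real.exp (-(bb a * (w * Real.sqrt N₀)) * r)) /
          (N₀ : ℝ) ^ (1 + s / 2))) (ars s) := (i1.div_const _).const_mul _
  have hI2 : Integrable (fun a => (1 - κ) * ((1 - η) ^ (2 - s) *
      (w ^ (s - 2) * (bb a) ^ (s - 2) * g₀))) (ars s) :=
    (((i3.const_mul _).mul_const _).const_mul _).const_mul _
  have hfin : ∫ _, β ∂(ars s) ≤ _ :=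
    integral_mono (integrable_const β) ((hI1.sub hI2).const_mul ((N₁ : ℝ) ^ (1 + s / 2))) hpt
  simp only [Pi.sub_apply] at hfin
  rw [integral_const_mul, integral_sub hI1 hI2, integral_const_mul, integral_const_mul,
    integral_const_mul, integral_div, i2, integral_mul_const, integral_const_mul, ← ms] at hfin
  simpa using hfin

/-- **Direction 1**: the lower bound for the second order term, `s < 1`. -/
theorem dir1b {s : ℝ} (h0 : 0 < s) (h1 : s < 1) {c : ℝ} (hc : Tendsto (fN s) atTop (𝓝 c)) :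
    ∃ C : ℝ, 0 < C ∧ ∀ η κ w : ℝ, 0 < η → η ≤ 1 / 2 → 0 < κ → κ ≤ 1 / 2 → 0 < w →
      ∀ N₀ : ℕ, 1 ≤ N₀ → c ≤ fN s N₀ + C * (w ^ s + (η + κ) * w ^ (s - 2) +
        w ^ (s - 2) * Real.exp (-(w * Real.sqrt N₀ * (η * κ ^ 2) / 400))) := by
  have h2 : s < 2 := by linarith
  obtain ⟨b, hb, HF⟩ := sphere_F2 h0 h1
  have hG : 0 < Real.Gamma (2 - s) := Real.Gamma_pos_of_pos (by linarith)
  refine ⟨5 * Real.Gamma (2 - s) + 4 * b, by positivity,
    fun η κ w hη hη2 hκ hκ2 hw N₀ hN₀ => ?_⟩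
  have hη1 : η < 1 := by linarith
  have hη' : 0 < 1 - η := by linarith
  have hN₀' : (0 : ℝ) < N₀ := by exact_mod_cast hN₀
  have hs0 : 0 < Real.sqrt N₀ := Real.sqrt_pos.2 hN₀'
  have hP0 : 0 < (N₀ : ℝ) ^ (1 + s / 2) := by positivity
  have hms := ms_pos h0 h1
  set ε₀ : ℝ := η * κ ^ 2 / 200 with hε₀
  have hε0 : 0 < ε₀ := by positivity
  have hε1 : ε₀ ≤ 1 := by
    have e1 : κ ^ 2 ≤ 1 := by nlinarith
    have e2 : η * κ ^ 2 ≤ 1 * 1 := mul_le_mul (by linarith) e1 (by positivity) zero_le_one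
    rw [hε₀]
    linarith
  set X : ℝ := w * Real.sqrt N₀ * ε₀ / (1 - η) with hX
  have hX0 : 0 ≤ X := by positivity
  set g₀ : ℝ := 1 / 2 * Real.Gamma (2 - s) - 2 * Real.Gamma (2 - s) * Real.exp (-(X / 2)) with hg₀
  set W : ℝ := w ^ (s - 2) * ms s with hW
  have hws0 : 0 < w ^ (s - 2) := Real.rpow_pos_of_pos hw _
  have hW0 : 0 < W := by positivity
  set G : ℝ := (1 - η) ^ (-s) * (W * (1 / 2 * Real.Gamma (2 - s)) + fN s N₀ + b * w ^ s) -
      (1 - κ) * ((1 - η) ^ (2 - s) * (W * g₀)) with hGdef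
  have hcG : c ≤ G := by
    refine c_le_of h0 h2 hc (N₀ := N₀) fun N₁ hN hN₁ β hβ => ?_
    have hN₁' : (0 : ℝ) < N₁ := by exact_mod_cast hN₁
    have hP1 : 0 < (N₁ : ℝ) ^ (1 + s / 2) := by positivity
    have hPη : 0 < (1 - η) ^ (-s) := Real.rpow_pos_of_pos hη' _
    refine le_of_forall_pos_le_add fun e he => ?_
    set e' : ℝ := e * (N₀ : ℝ) ^ (1 + s / 2) / ((N₁ : ℝ) ^ (1 + s / 2) * (1 - η) ^ (-s)) with he'
    have he'0 : 0 < e' := by positivity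
    obtain ⟨x, hx, hxE⟩ := exists_near (s := s) N₀ he'0
    have hup := up_mix2 h0 h1 hη hη1 (by linarith) hε0 hε1 (patchOK hη hη1 hκ (by linarith)) hN₀
      hN hw x hx hβ
    have hF := HF N₀ x hN₀ hx w hw
    have hPS : PS x (kw s (w * Real.sqrt N₀)) / (N₀ : ℝ) ^ (1 + s / 2) ≤
        W * (1 / 2 * Real.Gamma (2 - s)) + fN s N₀ + b * w ^ s +
          e' / (N₀ : ℝ) ^ (1 + s / 2) := by
      rw [div_le_iff₀ hP0]
      have e4 : (W * (1 / 2 * Real.Gamma (2 - s)) + fN s N₀ + b * w ^ s +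
          e' / (N₀ : ℝ) ^ (1 + s / 2)) * (N₀ : ℝ) ^ (1 + s / 2) =
          (N₀ : ℝ) ^ (1 + s / 2) * (w ^ (s - 2) * (1 / 2 * Real.Gamma (2 - s)) * ms s) +
            (minE s N₀ - Cc s * (N₀ : ℝ) ^ 2) + b * w ^ s * (N₀ : ℝ) ^ (1 + s / 2) + e' := by
        rw [fN, hW]
        field_simp
      rw [e4]
      linarith
    refine hup.trans ?_
    have e5 : (N₁ : ℝ) ^ (1 + s / 2) * G + e = (N₁ : ℝ) ^ (1 + s / 2) *
        ((1 - η) ^ (-s) * (W * (1 / 2 * Real.Gamma (2 - s)) + fN s N₀ + b * w ^ s +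
          e' / (N₀ : ℝ) ^ (1 + s / 2)) -
        (1 - κ) * ((1 - η) ^ (2 - s) * (W * g₀))) := by
      rw [hGdef, he']
      field_simp
      ring
    rw [e5]
    refine mul_le_mul_of_nonneg_left ?_ hP1.le
    refine sub_le_sub_right ?_ _
    exact mul_le_mul_of_nonneg_left hPS hPη.le
  refine hcG.trans ?_
  have herr := err_bound2 (X := w * Real.sqrt N₀ * (η * κ ^ 2) / 400) (g := g₀) h0 h2 hη hη2 hκ
    hκ2 hW0.le (Real.rpow_nonneg hw.le s) (fN_nonpos h0 h2 hN₀) hb.le (by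
      rw [hg₀]
      have : 0 < 2 * Real.Gamma (2 - s) * Real.exp (-(X / 2)) := by positivity
      linarith) (by
      rw [hg₀, sub_sub_cancel]
      refine mul_le_mul_of_nonneg_left (Real.exp_le_exp.2 (neg_le_neg ?_)) (by positivity)
      have e6 : w * Real.sqrt N₀ * (η * κ ^ 2) / 400 = w * Real.sqrt N₀ * ε₀ / 2 := by
        rw [hε₀]
        ring
      rw [e6]
      refine div_le_div_of_nonneg_right ?_ (by norm_num)
      rw [hX, le_div_iff₀ hη']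
      have : 0 ≤ w * Real.sqrt N₀ * ε₀ := by positivity
      nlinarith)
  refine herr.trans (add_le_add_right (mul_le_mul_of_nonneg_left ?_ (by positivity)) _)
  have hWle : W ≤ w ^ (s - 2) := by
    rw [hW]
    exact mul_le_of_le_one_right hws0.le (ms_le h0 h1)
  have h5 : (η + κ) * W ≤ (η + κ) * w ^ (s - 2) := mul_le_mul_of_nonneg_left hWle (by positivity)
  have h6 := mul_le_mul_of_nonneg_right hWle
    (Real.exp_pos (-(w * Real.sqrt N₀ * (η * κ ^ 2) / 400))).le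
  linarith

end Pool.Agent.Helper51.RT
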