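import Pool.Agent.Helper51.RT.D
import Pool.Agent.Helper51.RT.B
import Pool.Agent.Helper33.RZ2.R10

/-! # RT-I1: the inequality for a fixed number of points, explicit (copy of
`Helper33.RZ2.main_ineq`) -/

set_option autoImplicit false

open MeasureTheory Set Metric Filter Topology
open scoped ENNReal

namespace Pool.Agent.Helper51.RT

open Pool.Agent.Helper42.RZ Pool.Agent.Helper42.RZ2 Pool.Agent.Helper33.RZ2

theorem main_ex {s : ℝ} (h0 : 0 < s) (h2 : s < 2) {η κ ρ : ℝ} (hη1 : η < 1)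
    (hρ : 0 < ρ) (hρ1 : ρ ≤ 1) (hpatch : FlatOK η κ ρ) {m : ℕ} {a b : ℂ} {y : Fin m → ℂ}
    (hY : Per m a b y) (w : ℝ) (hw : 0 < w) (N₁ : ℕ) (hN₁ : 1 ≤ N₁) (β : ℝ)
    (hβ : ∀ N' : ℕ, β ≤ minE s N' - 2 * N₁ * Cc s * N' + Cc s * (N₁ : ℝ) ^ 2) :
    β ≤ ((N₁ : ℝ) * (N₁ : ℝ) ^ (s / 2)) * ((4 * Real.pi) ^ (-(s / 2)) *
      ((1 - η) ^ (-s) * ((m : ℝ)⁻¹ * ∑ i, ∑ j, LS s w a b (y i - y j)) -
        (1 - κ) * ((1 - η) ^ (2 - s) * (4 * Real.pi * (w ^ (s - 2) *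
          (1 / 2 * ∫ v in (0 : ℝ)..(w / ((1 - η) * Real.sqrt (4 * Real.pi / N₁)) * ρ),
            Real.exp (-v) * v ^ (2 - s - 1))))))) := by
  obtain ⟨hm, hdt, hdist⟩ := hY
  have hm' : (0 : ℝ) < m := by exact_mod_cast hm
  have hN₁' : (0 : ℝ) < N₁ := by exact_mod_cast hN₁
  have hdt0 : dt a b ≠ 0 := by
    intro h
    rw [h, abs_zero] at hdt
    linarith
  have hη' : 0 < 1 - η := by linarith
  have hpi : 0 < 4 * Real.pi := by positivity
  set t : ℝ := Real.sqrt (4 * Real.pi / N₁) with ht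
  have ht0 : 0 < t := Real.sqrt_pos.2 (by positivity)
  have ht2 : t ^ 2 = 4 * Real.pi / N₁ := Real.sq_sqrt (by positivity)
  -- the scaled configuration
  set y' : Fin m → ℂ := fun i => t * y i with hy'
  have hnorm : ∀ q : Fin m × Fin m × (ℤ × ℤ),
      ‖y' q.1 - y' q.2.1 + lv (t * a) (t * b) q.2.2‖ = t * ‖y q.1 - y q.2.1 + lv a b q.2.2‖ := by
    intro q
    rw [lv_smul, hy']
    have : (t : ℂ) * y q.1 - t * y q.2.1 + t * lv a b q.2.2 =
        t * (y q.1 - y q.2.1 + lv a b q.2.2) := by ring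
    rw [this, norm_mul, Complex.norm_real, Real.norm_of_nonneg ht0.le]
  have hdt' : |dt (t * a) (t * b)| * N₁ = 4 * Real.pi * m := by
    rw [dt_smul, abs_mul, hdt, abs_of_nonneg (by positivity), ht2]
    field_simp
  have hdist' : ∀ i j, ∀ k : ℤ × ℤ, y' i - y' j + lv (t * a) (t * b) k = 0 → i = j ∧ k = 0 := by
    intro i j k hk
    have h1 := hnorm (i, j, k)
    simp only at h1
    rw [hk, norm_zero] at h1
    have h3 : ‖y i - y j + lv a b k‖ = 0 := by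
      rcases mul_eq_zero.1 h1.symm with h | h
      · exact absurd h ht0.ne'
      · exact h
    have h4 := norm_eq_zero.1 h3
    have h5 := hdist i j k h4
    refine ⟨h5, ?_⟩
    rw [h5, sub_self, zero_add] at h4
    exact lv_eq_zero hdt0 h4
  -- the finite set
  have hfin : {q : Fin m × Fin m × (ℤ × ℤ) |
      (1 - η) * ‖y' q.1 - y' q.2.1 + lv (t * a) (t * b) q.2.2‖ ≤ 2}.Finite := by
    have hR : ∀ i j : Fin m, {k : ℤ × ℤ | ‖y i - y j + lv a b k‖ ≤ 2 / ((1 - η) * t)}.Finite :=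
      fun i j => finite_ball h0 hw hdt0 _ _
    have hU : (⋃ i : Fin m, ⋃ j : Fin m, (fun k : ℤ × ℤ => (i, j, k)) ''
        {k : ℤ × ℤ | ‖y i - y j + lv a b k‖ ≤ 2 / ((1 - η) * t)}).Finite :=
      Set.finite_iUnion fun i => Set.finite_iUnion fun j => (hR i j).image _
    refine hU.subset ?_
    intro q hq
    have hq' : (1 - η) * ‖y' q.1 - y' q.2.1 + lv (t * a) (t * b) q.2.2‖ ≤ 2 := hq
    rw [hnorm] at hq'
    rw [Set.mem_iUnion]
    refine ⟨q.1, ?_⟩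
    rw [Set.mem_iUnion]
    refine ⟨q.2.1, q.2.2, ?_, rfl⟩
    show ‖y q.1 - y q.2.1 + lv a b q.2.2‖ ≤ 2 / ((1 - η) * t)
    rw [le_div_iff₀ (by positivity)]
    linarith
  set T : Finset (Fin m × Fin m × (ℤ × ℤ)) := hfin.toFinset with hT
  have hTmem : ∀ q, q ∈ T ↔
      (1 - η) * ‖y' q.1 - y' q.2.1 + lv (t * a) (t * b) q.2.2‖ ≤ 2 := fun q => by
    rw [hT, Set.Finite.mem_toFinset]
    exact Iff.rfl
  have hM := flM h0 h2 hη1 (by linarith) hpatch ρ hρ le_rfl m (t * a) (t * b) y' N₁ hm hN₁ hdt'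
    hdist' T hTmem
  set l : ℝ := w / ((1 - η) * t) with hl
  have hl0 : 0 < l := by positivity
  have hmix := mixT (s := s) h2 T
    (fun q => (1 - η) * ‖y' q.1 - y' q.2.1 + lv (t * a) (t * b) q.2.2‖) (ρ := ρ)
    (A := (N₁ : ℝ) / m) (B := (N₁ : ℝ) ^ 2 * (1 - κ)) (β := β) (l := l) hρ.le hρ1 hl0.le
    (fun M => by
      have := hM M β hβ
      rwa [← mul_assoc ((N₁ : ℝ) ^ 2)] at this)
  rw [integral_scale hρ hl0] at hmix
  -- powers of `t`
  set P : ℝ := (4 * Real.pi) ^ (-(s / 2)) with hP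
  set Q : ℝ := (N₁ : ℝ) ^ (s / 2) with hQ
  have hP0 : 0 < P := Real.rpow_pos_of_pos hpi _
  have hQ0 : 0 < Q := Real.rpow_pos_of_pos hN₁' _
  have hts : t ^ (-s) = P * Q := by
    have e1 : t ^ (-s) = (t ^ 2) ^ (-(s / 2)) := by
      rw [← Real.rpow_natCast t 2, ← Real.rpow_mul ht0.le]
      congr 1
      push_cast
      ring
    rw [e1, ht2, Real.div_rpow hpi.le hN₁'.le, ← hP, Real.rpow_neg hN₁'.le, ← hQ]
    field_simp
  have hts2 : t ^ (2 - s) = 4 * Real.pi / N₁ * (P * Q) := by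
    rw [show (2 - s : ℝ) = 2 + -s by ring, Real.rpow_add ht0, hts, ← ht2]
    congr 1
    exact_mod_cast Real.rpow_natCast t 2
  -- the sum
  have hsum : ∑ q ∈ T, K s ((1 - η) * ‖y' q.1 - y' q.2.1 + lv (t * a) (t * b) q.2.2‖) *
      Real.exp (-l * ((1 - η) * ‖y' q.1 - y' q.2.1 + lv (t * a) (t * b) q.2.2‖)) ≤
      (1 - η) ^ (-s) * (P * Q) * ∑ i, ∑ j, LS s w a b (y i - y j) := by
    have e : ∀ q ∈ T, K s ((1 - η) * ‖y' q.1 - y' q.2.1 + lv (t * a) (t * b) q.2.2‖) *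
        Real.exp (-l * ((1 - η) * ‖y' q.1 - y' q.2.1 + lv (t * a) (t * b) q.2.2‖)) =
        (1 - η) ^ (-s) * (P * Q) * ph s w ‖y q.1 - y q.2.1 + lv a b q.2.2‖ := by
      intro q _
      rw [hnorm]
      unfold ph K
      rw [Real.mul_rpow hη'.le (by positivity), Real.mul_rpow ht0.le (norm_nonneg _), hts]
      have e2 : -l * ((1 - η) * (t * ‖y q.1 - y q.2.1 + lv a b q.2.2‖)) =
          -w * ‖y q.1 - y q.2.1 + lv a b q.2.2‖ := by
        rw [hl]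
        field_simp
      rw [e2]
      ring
    rw [Finset.sum_congr rfl e, ← Finset.mul_sum]
    refine mul_le_mul_of_nonneg_left (sum_T_le h0 hw hdt0 y T) ?_
    have := Real.rpow_pos_of_pos hη' (-s)
    positivity
  have hls : l ^ (s - 2) = w ^ (s - 2) * ((1 - η) ^ (2 - s) * (4 * Real.pi / N₁ * (P * Q))) := by
    rw [hl, Real.div_rpow hw.le (by positivity), Real.mul_rpow hη'.le ht0.le, ← hts2,
      show (s - 2 : ℝ) = -(2 - s) by ring, Real.rpow_neg hη'.le, Real.rpow_neg ht0.le,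
      Real.rpow_neg hw.le]
    have h3 : (1 - η) ^ (2 - s) ≠ 0 := (Real.rpow_pos_of_pos hη' _).ne'
    have h4 : t ^ (2 - s) ≠ 0 := (Real.rpow_pos_of_pos ht0 _).ne'
    field_simp
  rw [hls] at hmix
  set J : ℝ := 1 / 2 * ∫ v in (0 : ℝ)..(l * ρ), Real.exp (-v) * v ^ (2 - s - 1) with hJ
  set S : ℝ := ∑ i, ∑ j, LS s w a b (y i - y j) with hS
  have hfinal := hmix.trans (sub_le_sub_right (mul_le_mul_of_nonneg_left hsum
    (by positivity : (0 : ℝ) ≤ (N₁ : ℝ) / m)) _)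
  refine hfinal.trans (le_of_eq ?_)
  field_simp

end Pool.Agent.Helper51.RT
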