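import Pool.Agent.Helper51.RT.I1
import Pool.Agent.Helper51.RT.G
import Pool.Agent.Helper51.RT.H
import Pool.Agent.Helper42.RZ2.Final

/-! # RT-I2: the second order term is at most the constant plus an error -/

set_option autoImplicit false

open MeasureTheory Set Metric Filter Topology
open scoped ENNReal

namespace Pool.Agent.Helper51.RT

open Pool.Agent.Helper42.RZ Pool.Agent.Helper42.RZ2 Pool.Agent.Helper42.RZ.S15

/-- the bound for the scaled functional -/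
theorem up_per {s : ℝ} (h1 : 1 ≤ s) (h2 : s < 2) {c : ℝ} (hc0 : c < 0)
    (hc : Tendsto (fN s) atTop (𝓝 c)) : ∃ C : ℝ, 0 < C ∧ ∀ η κ w : ℝ, 0 < η → η ≤ 1 / 2 →
      0 < κ → κ ≤ 1 / 2 → 0 < w → ∀ N₁ : ℕ, 1 ≤ N₁ → ∀ β : ℝ,
      (∀ N' : ℕ, β ≤ minE s N' - 2 * N₁ * Cc s * N' + Cc s * (N₁ : ℝ) ^ 2) →
      β ≤ (N₁ : ℝ) ^ (1 + s / 2) * (c + C * (w + (η + κ) * w ^ (s - 2) +
        w ^ (s - 2) * Real.exp (-(w * Real.sqrt N₁ * (η * κ ^ 2) / 1600)))) := by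
  have h0 : 0 < s := by linarith
  obtain ⟨b, hb, HG⟩ := plane_G h1 h2
  have hG : 0 < Real.Gamma (2 - s) := Real.Gamma_pos_of_pos (by linarith)
  have hpi := Real.pi_pos
  have hpi4 : 0 < 4 * Real.pi := by positivity
  set P : ℝ := (4 * Real.pi) ^ (-(s / 2)) with hP
  have hP0 : 0 < P := Real.rpow_pos_of_pos hpi4 _
  refine ⟨4 * Real.pi * P * (5 * Real.Gamma (2 - s) + 4 * (b / (4 * Real.pi))), by positivity,
    fun η κ w hη hη2 hκ hκ2 hw N₁ hN₁ β hβ => ?_⟩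
  have hη1 : η < 1 := by linarith
  have hη' : 0 < 1 - η := by linarith
  have hN₁' : (0 : ℝ) < N₁ := by exact_mod_cast hN₁
  have hs1 : 0 < Real.sqrt N₁ := Real.sqrt_pos.2 hN₁'
  set ε₀ : ℝ := η * κ ^ 2 / 200 with hε₀
  have hε0 : 0 < ε₀ := by positivity
  have hε1 : ε₀ ≤ 1 := by
    have e1 : κ ^ 2 ≤ 1 := by nlinarith
    have e2 : η * κ ^ 2 ≤ 1 * 1 := mul_le_mul (by linarith) e1 (by positivity) zero_le_one
    rw [hε₀]
    linarith
  set X : ℝ := w / ((1 - η) * Real.sqrt (4 * Real.pi / N₁)) * ε₀ with hX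
  have hX0 : 0 ≤ X := by positivity
  have hPP : (4 * Real.pi) ^ (s / 2) * P = 1 := by
    rw [hP, ← Real.rpow_add hpi4, add_neg_cancel, Real.rpow_zero]
  have hkp : (N₁ : ℝ) * (N₁ : ℝ) ^ (s / 2) = (N₁ : ℝ) ^ (1 + s / 2) := by
    rw [Real.rpow_add hN₁', Real.rpow_one]
  have hP1 : 0 < (N₁ : ℝ) ^ (1 + s / 2) := Real.rpow_pos_of_pos hN₁' _
  have hPη : 0 < (1 - η) ^ (-s) := Real.rpow_pos_of_pos hη' _
  set G : ℝ := (1 - η) ^ (-s) * (w ^ (s - 2) * (1 / 2 * Real.Gamma (2 - s)) +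
      c / (4 * Real.pi * P) + b / (4 * Real.pi) * w) -
      (1 - κ) * ((1 - η) ^ (2 - s) * (w ^ (s - 2) * gg s X)) with hGdef
  have hmain : β ≤ (N₁ : ℝ) ^ (1 + s / 2) * (4 * Real.pi * P * G) := by
    refine le_of_forall_pos_le_add fun e he => ?_
    set e' : ℝ := e / ((N₁ : ℝ) ^ (1 + s / 2) * P * (1 - η) ^ (-s)) with he'
    have he'0 : 0 < e' := by positivity
    have hglb := isGLB h0 h2 hc0 hc
    obtain ⟨E, ⟨m, a, b', y, hY, hE⟩, -, hElt⟩ := hglb.exists_between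
      (show (4 * Real.pi) ^ (s / 2) * c < (4 * Real.pi) ^ (s / 2) * c + e' by linarith)
    have hAS := HG hY E hE w hw
    have hm := main_ex h0 h2 hη1 hε0 hε1 (flatOK hη hη1 hκ (by linarith)) hY w hw N₁ hN₁ β hβ
    have hbk : (m : ℝ)⁻¹ * ∑ i, ∑ j, LS s w a b' (y i - y j) =
        AS s w a b' y + 4 * Real.pi * (w ^ (s - 2) * (1 / 2 * Real.Gamma (2 - s))) := by
      rw [AS, bk]
      ring
    rw [hkp, hbk, ← hP, ← hX] at hm
    refine hm.trans ?_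
    have h5 : AS s w a b' y ≤ (4 * Real.pi) ^ (s / 2) * c + e' + b * w := by linarith
    have e5 : (N₁ : ℝ) ^ (1 + s / 2) * (4 * Real.pi * P * G) + e =
        (N₁ : ℝ) ^ (1 + s / 2) * (P * ((1 - η) ^ (-s) * ((4 * Real.pi) ^ (s / 2) * c + e' + b * w +
          4 * Real.pi * (w ^ (s - 2) * (1 / 2 * Real.Gamma (2 - s)))) -
        (1 - κ) * ((1 - η) ^ (2 - s) * (4 * Real.pi * (w ^ (s - 2) * gg s X))))) := by
      have e6 : c / (4 * Real.pi * P) = (4 * Real.pi) ^ (s / 2) * c / (4 * Real.pi) := by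
        rw [div_eq_div_iff (by positivity) (by positivity)]
        linear_combination (-(c * (4 * Real.pi))) * hPP
      have e7 : e = (N₁ : ℝ) ^ (1 + s / 2) * P * (1 - η) ^ (-s) * e' := by
        rw [he']
        field_simp
      rw [hGdef, e6]
      conv_lhs => rw [e7]
      field_simp
      ring
    rw [e5]
    refine mul_le_mul_of_nonneg_left (mul_le_mul_of_nonneg_left ?_ hP0.le) hP1.le
    refine sub_le_sub ?_ (le_of_eq ?_)
    · exact mul_le_mul_of_nonneg_left (by linarith) hPη.le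
    · rw [gg]
  have herr := err_bound (f := c / (4 * Real.pi * P)) (b := b / (4 * Real.pi)) (g := gg s X)
    (X := w * Real.sqrt N₁ * (η * κ ^ 2) / 1600) h1 h2 hη hη2 hκ hκ2 hw
    (div_nonpos_of_nonpos_of_nonneg hc0.le (by positivity)) (by positivity) (gg_le h2 hX0)
    ((gg_tail h0 h2 hX0).trans (by
      refine mul_le_mul_of_nonneg_left (Real.exp_le_exp.2 (neg_le_neg ?_)) (by positivity)
      have h6 : Real.sqrt (4 * Real.pi) ≤ 4 := by
        rw [Real.sqrt_le_left (by norm_num)]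
        nlinarith [Real.pi_lt_four]
      have h7 : 0 < Real.sqrt (4 * Real.pi) := Real.sqrt_pos.2 hpi4
      have h8 : X = w * Real.sqrt N₁ * ε₀ / ((1 - η) * Real.sqrt (4 * Real.pi)) := by
        rw [hX, Real.sqrt_div hpi4.le]
        field_simp
      have h9 : w * Real.sqrt N₁ * ε₀ / 4 ≤ X := by
        rw [h8]
        refine div_le_div_of_nonneg_left (by positivity) (by positivity) ?_
        calc (1 - η) * Real.sqrt (4 * Real.pi) ≤ 1 * 4 :=
              mul_le_mul (by linarith) h6 h7.le zero_le_one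
          _ = 4 := by norm_num
      have h10 : w * Real.sqrt N₁ * (η * κ ^ 2) / 1600 = (w * Real.sqrt N₁ * ε₀ / 4) / 2 := by
        rw [hε₀]
        ring
      rw [h10]
      linarith))
  rw [← hGdef] at herr
  refine hmain.trans (mul_le_mul_of_nonneg_left ?_ hP1.le)
  have h11 : 0 < 4 * Real.pi * P := by positivity
  have h12 := mul_le_mul_of_nonneg_left herr h11.le
  refine h12.trans (le_of_eq ?_)
  field_simp

/-- **Direction 2**: the upper bound for the second order term. -/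
theorem dir2 {s : ℝ} (h1 : 1 ≤ s) (h2 : s < 2) {c : ℝ} (hc0 : c < 0)
    (hc : Tendsto (fN s) atTop (𝓝 c)) : ∃ C A : ℝ, 0 < C ∧ 1 ≤ A ∧ ∀ δ η κ w : ℝ, 0 < δ →
      δ ≤ 1 / 8 → 0 < η → η ≤ 1 / 2 → 0 < κ → κ ≤ 1 / 2 → 0 < w → ∀ N : ℕ, 1 ≤ N →
      A ≤ δ * (N : ℝ) ^ ((2 - s) / 4) →
      fN s N ≤ c + C * (δ + (w + (η + κ) * w ^ (s - 2) +
        w ^ (s - 2) * Real.exp (-(w * Real.sqrt N * (η * κ ^ 2) / 1600)))) := by
  have h0 : 0 < s := by linarith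
  obtain ⟨C, hC, HC⟩ := up_per h1 h2 hc0 hc
  obtain ⟨A, hA, HA⟩ := extraction_ex h0 h2
  obtain ⟨a, ha, hfa⟩ := f_bdd h0 h2
  refine ⟨2 * C + 33 * a, A, by positivity, hA,
    fun δ η κ w hδ0 hδ8 hη hη2 hκ hκ2 hw N hN hAN => ?_⟩
  have hN1 : (1 : ℝ) ≤ N := by exact_mod_cast hN
  have hN' : (0 : ℝ) < N := by linarith
  have hNδ : 1 / δ ≤ (N : ℝ) := by
    have h5 : (N : ℝ) ^ ((2 - s) / 4) ≤ (N : ℝ) ^ (1 : ℝ) :=
      Real.rpow_le_rpow_of_exponent_le hN1 (by linarith)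
    rw [Real.rpow_one] at h5
    rw [div_le_iff₀ hδ0]
    have := mul_le_mul_of_nonneg_left h5 hδ0.le
    linarith
  have hδ1 : 0 < 1 - δ := by linarith only [hδ0, hδ8]
  set N₁ : ℕ := ⌈(N : ℝ) / (1 - δ)⌉₊ with hN₁def
  have hc1 : (N : ℝ) / (1 - δ) ≤ N₁ := Nat.le_ceil _
  have hc2 : (N₁ : ℝ) < (N : ℝ) / (1 - δ) + 1 := Nat.ceil_lt_add_one (by positivity)
  have hb1 : (N : ℝ) ≤ (1 - δ) * N₁ := by
    rw [div_le_iff₀ hδ1] at hc1; linarith only [hc1]
  have hNN₁ : (N : ℝ) ≤ N₁ := by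
    have h3 : 0 ≤ δ * (N₁ : ℝ) := mul_nonneg hδ0.le (Nat.cast_nonneg _)
    linarith only [hb1, h3]
  have hNN₁' : N ≤ N₁ := by exact_mod_cast hNN₁
  have hN₁' : (0 : ℝ) < N₁ := by linarith only [hN', hNN₁]
  have hb2 : (1 - 2 * δ) * N₁ ≤ (N : ℝ) := by
    have h3 : (1 - 2 * δ) * N₁ ≤ (1 - 2 * δ) * ((N : ℝ) / (1 - δ) + 1) :=
      mul_le_mul_of_nonneg_left hc2.le (by linarith only [hδ0, hδ8])
    have h4 : (1 - 2 * δ) * ((N : ℝ) / (1 - δ) + 1) ≤ N := by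
      rw [← sub_nonneg]
      have h5 : (N : ℝ) - (1 - 2 * δ) * ((N : ℝ) / (1 - δ) + 1) =
          (N * δ - (1 - 2 * δ) * (1 - δ)) / (1 - δ) := by
        field_simp
        ring
      rw [h5]
      refine div_nonneg ?_ hδ1.le
      rw [div_le_iff₀ hδ0] at hNδ
      have h6 : δ * δ ≤ 1 / 8 * δ := mul_le_mul_of_nonneg_right hδ8 hδ0.le
      have h7 : (1 - 2 * δ) * (1 - δ) = 1 - 3 * δ + 2 * (δ * δ) := by ring
      rw [h7]
      linarith only [hδ0, hNδ, h6]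
    linarith only [h3, h4]
  have hA₁ : A ≤ δ * (N₁ : ℝ) ^ ((2 - s) / 4) := by
    refine hAN.trans (mul_le_mul_of_nonneg_left ?_ hδ0.le)
    exact Real.rpow_le_rpow hN'.le hNN₁ (by linarith)
  have hN₁1 : 1 ≤ N₁ := hN.trans hNN₁'
  have hβ := HA δ hδ0 (by linarith) N₁ hN₁1 hA₁ N hb2 hb1
  have hup := HC η κ w hη hη2 hκ hκ2 hw N₁ hN₁1 _ hβ
  have hW0 : 0 < w ^ (s - 2) := Real.rpow_pos_of_pos hw _
  -- conclusion
  have hP : 0 < (N : ℝ) ^ (1 + s / 2) := by positivity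
  have hP1 : 0 < (N₁ : ℝ) ^ (1 + s / 2) := by positivity
  set err : ℝ := w + (η + κ) * w ^ (s - 2) +
    w ^ (s - 2) * Real.exp (-(w * Real.sqrt N * (η * κ ^ 2) / 1600)) with herr
  have herr0 : 0 ≤ err := by positivity
  have herr1 : w + (η + κ) * w ^ (s - 2) +
      w ^ (s - 2) * Real.exp (-(w * Real.sqrt N₁ * (η * κ ^ 2) / 1600)) ≤ err := by
    rw [herr]
    have h3 : Real.sqrt N ≤ Real.sqrt N₁ := Real.sqrt_le_sqrt hNN₁
    have h4 : Real.exp (-(w * Real.sqrt N₁ * (η * κ ^ 2) / 1600)) ≤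
        Real.exp (-(w * Real.sqrt N * (η * κ ^ 2) / 1600)) := by
      refine Real.exp_le_exp.2 (neg_le_neg ?_)
      refine div_le_div_of_nonneg_right ?_ (by norm_num)
      refine mul_le_mul_of_nonneg_right ?_ (by positivity)
      exact mul_le_mul_of_nonneg_left h3 hw.le
    have h5 := mul_le_mul_of_nonneg_left h4 hW0.le
    linarith
  have hup2 : ((1 + δ) / (1 - 2 * δ)) ^ 4 * (minE s N - Cc s * (N : ℝ) ^ 2) ≤
      (N₁ : ℝ) ^ (1 + s / 2) * (c + C * err) := by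
    refine hup.trans (mul_le_mul_of_nonneg_left ?_ hP1.le)
    have := mul_le_mul_of_nonneg_left herr1 hC.le
    linarith
  set L : ℝ := ((1 + δ) / (1 - 2 * δ)) ^ 4 with hL
  have hL2 : L - 1 ≤ 33 * δ := by
    have h3 : (1 + δ) / (1 - 2 * δ) ≤ 1 + 4 * δ := by
      rw [div_le_iff₀ (by linarith)]
      nlinarith
    have h4 : L ≤ (1 + 4 * δ) ^ 4 := pow_le_pow_left₀ (by
      have : 0 < 1 - 2 * δ := by linarith
      positivity) h3 4
    have h5 : (1 + 4 * δ) ^ 4 - 1 ≤ 33 * δ := by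
      have h6 : (1 + 4 * δ) ^ 4 - 1 = 16 * δ + 96 * δ * δ + 256 * δ * δ ^ 2 + 256 * δ * δ ^ 3 := by
        ring
      have h7 : δ ^ 2 ≤ (1 / 8) ^ 2 := pow_le_pow_left₀ hδ0.le hδ8 2
      have h8 : δ ^ 3 ≤ (1 / 8) ^ 3 := pow_le_pow_left₀ hδ0.le hδ8 3
      rw [h6]
      nlinarith
    linarith
  have hL1 : 1 ≤ L := by
    refine one_le_pow₀ ?_
    rw [le_div_iff₀ (by linarith only [hδ0, hδ8])]
    linarith only [hδ0]
  set q : ℝ := (N₁ : ℝ) ^ (1 + s / 2) / (N : ℝ) ^ (1 + s / 2) with hq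
  have hq1 : 1 ≤ q := by
    rw [hq, le_div_iff₀ hP, one_mul]
    exact Real.rpow_le_rpow hN'.le hNN₁ (by linarith only [h0, hδ0, hδ8])
  have hq2 : q ≤ 2 := by
    rw [hq, ← Real.div_rpow hN₁'.le hN'.le]
    have h3 : (N₁ : ℝ) / N ≤ 4 / 3 := by
      rw [div_le_iff₀ hN']
      nlinarith only [hb2, hδ8]
    have h3' : 1 ≤ (N₁ : ℝ) / N := by
      rw [le_div_iff₀ hN', one_mul]; exact hNN₁
    calc ((N₁ : ℝ) / N) ^ (1 + s / 2) ≤ ((N₁ : ℝ) / N) ^ (2 : ℝ) :=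
          Real.rpow_le_rpow_of_exponent_le h3' (by linarith only [h2])
      _ ≤ (4 / 3 : ℝ) ^ (2 : ℝ) := Real.rpow_le_rpow (by positivity) h3 (by norm_num)
      _ ≤ 2 := by rw [Real.rpow_two]; norm_num
  have h3 : L * fN s N ≤ q * (c + C * err) := by
    have h4 : L * fN s N = L * (minE s N - Cc s * (N : ℝ) ^ 2) / (N : ℝ) ^ (1 + s / 2) := by
      rw [fN]; ring
    have h5 : q * (c + C * err) = (N₁ : ℝ) ^ (1 + s / 2) * (c + C * err) /
        (N : ℝ) ^ (1 + s / 2) := by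
      rw [hq]; ring
    rw [h4, h5]
    exact div_le_div_of_nonneg_right hup2 hP.le
  have h4 : q * (c + C * err) ≤ c + 2 * C * err := by
    have h5 : q * c ≤ c := by nlinarith
    have h6 : q * (C * err) ≤ 2 * (C * err) := mul_le_mul_of_nonneg_right hq2 (by positivity)
    linarith
  have h6 : -a ≤ fN s N := hfa N hN
  have h7 : (L - 1) * -a ≤ (L - 1) * fN s N := mul_le_mul_of_nonneg_left h6 (by linarith only [hL1])
  have h8 : (L - 1) * a ≤ 33 * δ * a := mul_le_mul_of_nonneg_right hL2 ha.le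
  have h9 : 0 ≤ a * err := by positivity
  have h10 : 0 ≤ C * δ := by positivity
  linarith

end Pool.Agent.Helper51.RT
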