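import Pool.Agent.Helper51.RT.G2
import Pool.Agent.Helper51.RT.H2
import Pool.Agent.Helper51.RT.I2

/-! # RT-I3: Direction 2 for `s < 1` -/

set_option autoImplicit false

open MeasureTheory Set Metric Filter Topology
open scoped ENNReal

namespace Pool.Agent.Helper51.RT

open Pool.Agent.Helper42.RZ Pool.Agent.Helper42.RZ2 Pool.Agent.Helper42.RZ.S15

theorem up_pl2 {s : ℝ} (h0 : 0 < s) (h1 : s < 1) {η κ ρ : ℝ} (hη1 : η < 1) (hκ1 : κ ≤ 1)
    (hρ : 0 < ρ) (hρ1 : ρ ≤ 1) (hpatch : FlatOK η κ ρ) {m : ℕ} {a b : ℂ} {y : Fin m → ℂ}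
    (hY : Per m a b y) (w : ℝ) (hw : 0 < w) (N₁ : ℕ) (hN₁ : 1 ≤ N₁) (β : ℝ)
    (hβ : ∀ N' : ℕ, β ≤ minE s N' - 2 * N₁ * Cc s * N' + Cc s * (N₁ : ℝ) ^ 2) :
    β ≤ (N₁ : ℝ) ^ (1 + s / 2) * ((4 * Real.pi) ^ (-(s / 2)) *
      ((1 - η) ^ (-s) * (∫ t, AS s (bb t * w) a b y ∂(ars s) + bk s w * ms s) -
        (1 - κ) * ((1 - η) ^ (2 - s) * (4 * Real.pi * (w ^ (s - 2) * ms s *
          (1 / 2 * Real.Gamma (2 - s) - 2 * Real.Gamma (2 - s) *
            Real.exp (-(w / ((1 - η) * Real.sqrt (4 * Real.pi / N₁)) * ρ / 2)))))))) := by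
  have := ars_prob h0 h1
  have hη' : 0 < 1 - η := by linarith
  have hN₁' : (0 : ℝ) < N₁ := by exact_mod_cast hN₁
  have hs1 : 0 < Real.sqrt N₁ := Real.sqrt_pos.2 hN₁'
  have hG : 0 < Real.Gamma (2 - s) := Real.Gamma_pos_of_pos (by linarith)
  have hP1 : 0 < (N₁ : ℝ) ^ (1 + s / 2) := by positivity
  have hpi := Real.pi_pos
  have hpi4 : 0 < 4 * Real.pi := by positivity
  have hkp : (N₁ : ℝ) * (N₁ : ℝ) ^ (s / 2) = (N₁ : ℝ) ^ (1 + s / 2) := by
    rw [Real.rpow_add hN₁', Real.rpow_one]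
  set P : ℝ := (4 * Real.pi) ^ (-(s / 2)) with hP
  have hP0 : 0 < P := Real.rpow_pos_of_pos hpi4 _
  set X : ℝ := w / ((1 - η) * Real.sqrt (4 * Real.pi / N₁)) * ρ with hX
  have hX0 : 0 ≤ X := by positivity
  set g₀ : ℝ := 1 / 2 * Real.Gamma (2 - s) - 2 * Real.Gamma (2 - s) * Real.exp (-(X / 2)) with hg₀
  have hpt : ∀ t : ℝ, β ≤ (N₁ : ℝ) ^ (1 + s / 2) * (P *
      ((1 - η) ^ (-s) * (AS s (bb t * w) a b y + bk s w * (bb t) ^ (s - 2)) -
        (1 - κ) * ((1 - η) ^ (2 - s) * (4 * Real.pi * (w ^ (s - 2) * (bb t) ^ (s - 2) * g₀))))) := by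
    intro t
    have hb := bb_pos t
    have h3 := main_ex h0 (by linarith : s < 2) hη1 hρ hρ1 hpatch hY (bb t * w) (by positivity) N₁
      hN₁ β hβ
    have hbk : (m : ℝ)⁻¹ * ∑ i, ∑ j, LS s (bb t * w) a b (y i - y j) =
        AS s (bb t * w) a b y + bk s w * (bb t) ^ (s - 2) := by
      rw [AS, bk_bb hw]
      ring
    rw [hkp, hbk, ← hP] at h3
    refine h3.trans (mul_le_mul_of_nonneg_left (mul_le_mul_of_nonneg_left
      (sub_le_sub_left ?_ _) hP0.le) hP1.le)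
    refine mul_le_mul_of_nonneg_left ?_ (by linarith)
    refine mul_le_mul_of_nonneg_left ?_ (Real.rpow_nonneg hη'.le _)
    refine mul_le_mul_of_nonneg_left ?_ hpi4.le
    rw [Real.mul_rpow hb.le hw.le, mul_comm (bb t ^ (s - 2))]
    refine mul_le_mul_of_nonneg_left ?_
      (mul_nonneg (Real.rpow_nonneg hw.le _) (Real.rpow_nonneg hb.le _))
    set Y : ℝ := bb t * w / ((1 - η) * Real.sqrt (4 * Real.pi / N₁)) * ρ with hYd
    have hXY : X ≤ Y := by
      have e1 : Y = bb t * X := by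
        rw [hYd, hX]
        ring
      rw [e1]
      exact le_mul_of_one_le_left hX0 (bb_one t)
    have h4 := gg_tail h0 (by linarith : s < 2) (hX0.trans hXY)
    have h5 : Real.exp (-(Y / 2)) ≤ Real.exp (-(X / 2)) := Real.exp_le_exp.2 (by linarith)
    have h6 : 2 * Real.Gamma (2 - s) * Real.exp (-(Y / 2)) ≤
        2 * Real.Gamma (2 - s) * Real.exp (-(X / 2)) :=
      mul_le_mul_of_nonneg_left h5 (by positivity)
    rw [gg] at h4
    rw [hg₀]
    linarith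
  have i1 := AS_int h0 h1 hY hw
  have i3 := ms_int h0 h1
  have hI0 : Integrable (fun t => AS s (bb t * w) a b y + bk s w * (bb t) ^ (s - 2)) (ars s) :=
    i1.add (i3.const_mul _)
  have hI1 : Integrable (fun t => (1 - η) ^ (-s) *
      (AS s (bb t * w) a b y + bk s w * (bb t) ^ (s - 2))) (ars s) := hI0.const_mul _
  have hI2 : Integrable (fun t => (1 - κ) * ((1 - η) ^ (2 - s) *
      (4 * Real.pi * (w ^ (s - 2) * (bb t) ^ (s - 2) * g₀)))) (ars s) :=
    ((((i3.const_mul _).mul_const _).const_mul _).const_mul _).const_mul _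
  have hfin : ∫ _, β ∂(ars s) ≤ _ :=
    integral_mono (integrable_const β)
      (((hI1.sub hI2).const_mul P).const_mul ((N₁ : ℝ) ^ (1 + s / 2))) hpt
  simp only [Pi.sub_apply] at hfin
  rw [integral_const_mul, integral_const_mul, integral_sub hI1 hI2, integral_const_mul,
    integral_add i1 (i3.const_mul _), integral_const_mul, integral_const_mul, integral_const_mul,
    integral_const_mul, integral_mul_const, integral_const_mul, ← ms] at hfin
  simpa using hfin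

/-- the bound for the scaled functional -/
theorem up_per2 {s : ℝ} (h0 : 0 < s) (h1 : s < 1) {c : ℝ} (hc0 : c < 0)
    (hc : Tendsto (fN s) atTop (𝓝 c)) : ∃ C : ℝ, 0 < C ∧ ∀ η κ w : ℝ, 0 < η → η ≤ 1 / 2 →
      0 < κ → κ ≤ 1 / 2 → 0 < w → ∀ N₁ : ℕ, 1 ≤ N₁ → ∀ β : ℝ,
      (∀ N' : ℕ, β ≤ minE s N' - 2 * N₁ * Cc s * N' + Cc s * (N₁ : ℝ) ^ 2) →
      β ≤ (N₁ : ℝ) ^ (1 + s / 2) * (c + C * (w ^ s + (η + κ) * w ^ (s - 2) +
        w ^ (s - 2) * Real.exp (-(w * Real.sqrt N₁ * (η * κ ^ 2) / 1600)))) := by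
  have h2 : s < 2 := by linarith
  obtain ⟨b, hb, HG⟩ := plane_G2 h0 h1
  have hG : 0 < Real.Gamma (2 - s) := Real.Gamma_pos_of_pos (by linarith)
  have hpi := Real.pi_pos
  have hpi4 : 0 < 4 * Real.pi := by positivity
  set P : ℝ := (4 * Real.pi) ^ (-(s / 2)) with hP
  have hP0 : 0 < P := Real.rpow_pos_of_pos hpi4 _
  refine ⟨4 * Real.pi * P * (5 * Real.Gamma (2 - s) + 4 * (b / (4 * Real.pi))), by positivity,
    fun η κ w hη hη2 hκ hκ2 hw N₁ hN₁ β hβ => ?_⟩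
  have hη1 : η < 1 := by linarith
  have hη' : 0 < 1 - η := by linarith
  have hN₁' : (0 : ℝ) < N₁ := by exact_mod_cast hN₁
  have hs1 : 0 < Real.sqrt N₁ := Real.sqrt_pos.2 hN₁'
  have hms := ms_pos h0 h1
  set ε₀ : ℝ := η * κ ^ 2 / 200 with hε₀
  have hε0 : 0 < ε₀ := by positivity
  have hε1 : ε₀ ≤ 1 := by
    have e1 : κ ^ 2 ≤ 1 := by nlinarith
    have e2 : η * κ ^ 2 ≤ 1 * 1 := mul_le_mul (by linarith) e1 (by positivity) zero_le_one
    rw [hε₀]
    linarith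
  have hPP : (4 * Real.pi) ^ (s / 2) * P = 1 := by
    rw [hP, ← Real.rpow_add hpi4, add_neg_cancel, Real.rpow_zero]
  have hP1 : 0 < (N₁ : ℝ) ^ (1 + s / 2) := Real.rpow_pos_of_pos hN₁' _
  have hPη : 0 < (1 - η) ^ (-s) := Real.rpow_pos_of_pos hη' _
  set X : ℝ := w / ((1 - η) * Real.sqrt (4 * Real.pi / N₁)) * ε₀ with hX
  have hX0 : 0 ≤ X := by positivity
  set g₀ : ℝ := 1 / 2 * Real.Gamma (2 - s) - 2 * Real.Gamma (2 - s) * Real.exp (-(X / 2)) with hg₀
  set W : ℝ := w ^ (s - 2) * ms s with hW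
  have hws0 : 0 < w ^ (s - 2) := Real.rpow_pos_of_pos hw _
  have hW0 : 0 < W := by positivity
  set G : ℝ := (1 - η) ^ (-s) * (W * (1 / 2 * Real.Gamma (2 - s)) +
      c / (4 * Real.pi * P) + b / (4 * Real.pi) * w ^ s) -
      (1 - κ) * ((1 - η) ^ (2 - s) * (W * g₀)) with hGdef
  have hmain : β ≤ (N₁ : ℝ) ^ (1 + s / 2) * (4 * Real.pi * P * G) := by
    refine le_of_forall_pos_le_add fun e he => ?_
    set e' : ℝ := e / ((N₁ : ℝ) ^ (1 + s / 2) * P * (1 - η) ^ (-s)) with he'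
    have he'0 : 0 < e' := by positivity
    have hglb := isGLB h0 h2 hc0 hc
    obtain ⟨E, ⟨m, a, b', y, hY, hE⟩, -, hElt⟩ := hglb.exists_between
      (show (4 * Real.pi) ^ (s / 2) * c < (4 * Real.pi) ^ (s / 2) * c + e' by linarith)
    have hAS := HG hY E hE w hw
    have hm := up_pl2 h0 h1 hη1 (by linarith) hε0 hε1 (flatOK hη hη1 hκ (by linarith)) hY w hw N₁
      hN₁ β hβ
    have hbk : bk s w * ms s = 4 * Real.pi * (W * (1 / 2 * Real.Gamma (2 - s))) := by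
      rw [bk, hW]
      ring
    rw [hbk, ← hP, ← hX] at hm
    refine hm.trans ?_
    set I : ℝ := ∫ t, AS s (bb t * w) a b' y ∂(ars s) with hI
    have h5 : I ≤ (4 * Real.pi) ^ (s / 2) * c + e' + b * w ^ s := by linarith
    have e5 : (N₁ : ℝ) ^ (1 + s / 2) * (4 * Real.pi * P * G) + e =
        (N₁ : ℝ) ^ (1 + s / 2) * (P * ((1 - η) ^ (-s) * ((4 * Real.pi) ^ (s / 2) * c + e' +
          b * w ^ s + 4 * Real.pi * (W * (1 / 2 * Real.Gamma (2 - s)))) -
        (1 - κ) * ((1 - η) ^ (2 - s) * (4 * Real.pi * (W * g₀))))) := by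
      have e6 : c / (4 * Real.pi * P) = (4 * Real.pi) ^ (s / 2) * c / (4 * Real.pi) := by
        rw [div_eq_div_iff (by positivity) (by positivity)]
        linear_combination (-(c * (4 * Real.pi))) * hPP
      have e7 : e = (N₁ : ℝ) ^ (1 + s / 2) * P * (1 - η) ^ (-s) * e' := by
        rw [he']
        field_simp
      rw [hGdef, e6]
      conv_lhs => rw [e7]
      field_simp
      ring
    rw [e5]
    refine mul_le_mul_of_nonneg_left (mul_le_mul_of_nonneg_left ?_ hP0.le) hP1.le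
    refine sub_le_sub_right ?_ _
    exact mul_le_mul_of_nonneg_left (by linarith) hPη.le
  have herr := err_bound2 (f := c / (4 * Real.pi * P)) (b := b / (4 * Real.pi)) (g := g₀)
    (X := w * Real.sqrt N₁ * (η * κ ^ 2) / 1600) h0 h2 hη hη2 hκ hκ2 hW0.le
    (Real.rpow_nonneg hw.le s)
    (div_nonpos_of_nonpos_of_nonneg hc0.le (by positivity)) (by positivity) (by
      rw [hg₀]
      have : 0 < 2 * Real.Gamma (2 - s) * Real.exp (-(X / 2)) := by positivity
      linarith) (by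
      rw [hg₀, sub_sub_cancel]
      refine mul_le_mul_of_nonneg_left (Real.exp_le_exp.2 (neg_le_neg ?_)) (by positivity)
      have h6 : Real.sqrt (4 * Real.pi) ≤ 4 := by
        rw [Real.sqrt_le_left (by norm_num)]
        nlinarith [Real.pi_lt_four]
      have h7 : 0 < Real.sqrt (4 * Real.pi) := Real.sqrt_pos.2 hpi4
      have h8 : X = w * Real.sqrt N₁ * ε₀ / ((1 - η) * Real.sqrt (4 * Real.pi)) := by
        rw [hX, Real.sqrt_div hpi4.le]
        field_simp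
      have h9 : w * Real.sqrt N₁ * ε₀ / 4 ≤ X := by
        rw [h8]
        refine div_le_div_of_nonneg_left (by positivity) (by positivity) ?_
        calc (1 - η) * Real.sqrt (4 * Real.pi) ≤ 1 * 4 :=
              mul_le_mul (by linarith) h6 h7.le zero_le_one
          _ = 4 := by norm_num
      have h10 : w * Real.sqrt N₁ * (η * κ ^ 2) / 1600 = (w * Real.sqrt N₁ * ε₀ / 4) / 2 := by
        rw [hε₀]
        ring
      rw [h10]
      linarith)
  rw [← hGdef] at herr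
  refine hmain.trans (mul_le_mul_of_nonneg_left ?_ hP1.le)
  have h11 : 0 < 4 * Real.pi * P := by positivity
  have hWle : W ≤ w ^ (s - 2) := by
    rw [hW]
    exact mul_le_of_le_one_right hws0.le (ms_le h0 h1)
  have h5 : (η + κ) * W ≤ (η + κ) * w ^ (s - 2) := mul_le_mul_of_nonneg_left hWle (by positivity)
  have h6 := mul_le_mul_of_nonneg_right hWle
    (Real.exp_pos (-(w * Real.sqrt N₁ * (η * κ ^ 2) / 1600))).le
  have herr2 : G ≤ c / (4 * Real.pi * P) + (5 * Real.Gamma (2 - s) + 4 * (b / (4 * Real.pi))) *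
      (w ^ s + (η + κ) * w ^ (s - 2) +
        w ^ (s - 2) * Real.exp (-(w * Real.sqrt N₁ * (η * κ ^ 2) / 1600))) := by
    have h7 : 0 ≤ 5 * Real.Gamma (2 - s) + 4 * (b / (4 * Real.pi)) := by positivity
    have h8 : w ^ s + (η + κ) * W + W * Real.exp (-(w * Real.sqrt N₁ * (η * κ ^ 2) / 1600)) ≤
        w ^ s + (η + κ) * w ^ (s - 2) +
        w ^ (s - 2) * Real.exp (-(w * Real.sqrt N₁ * (η * κ ^ 2) / 1600)) := by linarith
    have h9 := mul_le_mul_of_nonneg_left h8 h7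
    linarith
  have h12 := mul_le_mul_of_nonneg_left herr2 h11.le
  refine h12.trans (le_of_eq ?_)
  field_simp

end Pool.Agent.Helper51.RT
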