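import Pool.Agent.Helper51.RT.I3

/-! # RT-I4: the second order term is at most the constant plus an error, `s < 1` -/

set_option autoImplicit false

open MeasureTheory Set Metric Filter Topology
open scoped ENNReal

namespace Pool.Agent.Helper51.RT

open Pool.Agent.Helper42.RZ Pool.Agent.Helper42.RZ2 Pool.Agent.Helper42.RZ.S15

/-- the passage from the scaled functional to the energy -/
theorem dir2_gen {s : ℝ} (h0 : 0 < s) (h2 : s < 2) {c : ℝ} (hc0 : c < 0) {C : ℝ} (hC : 0 < C)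
    (V : ℝ → ℝ) (hV : ∀ w : ℝ, 0 < w → 0 ≤ V w)
    (HC : ∀ η κ w : ℝ, 0 < η → η ≤ 1 / 2 →
      0 < κ → κ ≤ 1 / 2 → 0 < w → ∀ N₁ : ℕ, 1 ≤ N₁ → ∀ β : ℝ,
      (∀ N' : ℕ, β ≤ minE s N' - 2 * N₁ * Cc s * N' + Cc s * (N₁ : ℝ) ^ 2) →
      β ≤ (N₁ : ℝ) ^ (1 + s / 2) * (c + C * (V w + (η + κ) * w ^ (s - 2) +
        w ^ (s - 2) * Real.exp (-(w * Real.sqrt N₁ * (η * κ ^ 2) / 1600))))) :
    ∃ C A : ℝ, 0 < C ∧ 1 ≤ A ∧ ∀ δ η κ w : ℝ, 0 < δ →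
      δ ≤ 1 / 8 → 0 < η → η ≤ 1 / 2 → 0 < κ → κ ≤ 1 / 2 → 0 < w → ∀ N : ℕ, 1 ≤ N →
      A ≤ δ * (N : ℝ) ^ ((2 - s) / 4) →
      fN s N ≤ c + C * (δ + (V w + (η + κ) * w ^ (s - 2) +
        w ^ (s - 2) * Real.exp (-(w * Real.sqrt N * (η * κ ^ 2) / 1600)))) := by
  obtain ⟨A, hA, HA⟩ := extraction_ex h0 h2
  obtain ⟨a, ha, hfa⟩ := f_bdd h0 h2
  refine ⟨2 * C + 33 * a, A, by positivity, hA,
    fun δ η κ w hδ0 hδ8 hη hη2 hκ hκ2 hw N hN hAN => ?_⟩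
  have hN1 : (1 : ℝ) ≤ N := by exact_mod_cast hN
  have hN' : (0 : ℝ) < N := by linarith
  have hNδ : 1 / δ ≤ (N : ℝ) := by
    have h5 : (N : ℝ) ^ ((2 - s) / 4) ≤ (N : ℝ) ^ (1 : ℝ) :=
      Real.rpow_le_rpow_of_exponent_le hN1 (by linarith)
    rw [Real.rpow_one] at h5
    rw [div_le_iff₀ hδ0]
    have := mul_le_mul_of_nonneg_left h5 hδ0.le
    linarith
  have hδ1 : 0 < 1 - δ := by linarith only [hδ0, hδ8]
  set N₁ : ℕ := ⌈(N : ℝ) / (1 - δ)⌉₊ with hN₁def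
  have hc1 : (N : ℝ) / (1 - δ) ≤ N₁ := Nat.le_ceil _
  have hc2 : (N₁ : ℝ) < (N : ℝ) / (1 - δ) + 1 := Nat.ceil_lt_add_one (by positivity)
  have hb1 : (N : ℝ) ≤ (1 - δ) * N₁ := by
    rw [div_le_iff₀ hδ1] at hc1; linarith only [hc1]
  have hNN₁ : (N : ℝ) ≤ N₁ := by
    have h3 : 0 ≤ δ * (N₁ : ℝ) := mul_nonneg hδ0.le (Nat.cast_nonneg _)
    linarith only [hb1, h3]
  have hNN₁' : N ≤ N₁ := by exact_mod_cast hNN₁
  have hN₁' : (0 : ℝ) < N₁ := by linarith only [hN', hNN₁]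
  have hb2 : (1 - 2 * δ) * N₁ ≤ (N : ℝ) := by
    have h3 : (1 - 2 * δ) * N₁ ≤ (1 - 2 * δ) * ((N : ℝ) / (1 - δ) + 1) :=
      mul_le_mul_of_nonneg_left hc2.le (by linarith only [hδ0, hδ8])
    have h4 : (1 - 2 * δ) * ((N : ℝ) / (1 - δ) + 1) ≤ N := by
      rw [← sub_nonneg]
      have h5 : (N : ℝ) - (1 - 2 * δ) * ((N : ℝ) / (1 - δ) + 1) =
          (N * δ - (1 - 2 * δ) * (1 - δ)) / (1 - δ) := by
        field_simp
        ring
      rw [h5]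
      refine div_nonneg ?_ hδ1.le
      rw [div_le_iff₀ hδ0] at hNδ
      have h6 : δ * δ ≤ 1 / 8 * δ := mul_le_mul_of_nonneg_right hδ8 hδ0.le
      have h7 : (1 - 2 * δ) * (1 - δ) = 1 - 3 * δ + 2 * (δ * δ) := by ring
      rw [h7]
      linarith only [hδ0, hNδ, h6]
    linarith only [h3, h4]
  have hA₁ : A ≤ δ * (N₁ : ℝ) ^ ((2 - s) / 4) := by
    refine hAN.trans (mul_le_mul_of_nonneg_left ?_ hδ0.le)
    exact Real.rpow_le_rpow hN'.le hNN₁ (by linarith)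
  have hN₁1 : 1 ≤ N₁ := hN.trans hNN₁'
  have hβ := HA δ hδ0 (by linarith) N₁ hN₁1 hA₁ N hb2 hb1
  have hup := HC η κ w hη hη2 hκ hκ2 hw N₁ hN₁1 _ hβ
  have hW0 : 0 < w ^ (s - 2) := Real.rpow_pos_of_pos hw _
  -- conclusion
  have hP : 0 < (N : ℝ) ^ (1 + s / 2) := by positivity
  have hP1 : 0 < (N₁ : ℝ) ^ (1 + s / 2) := by positivity
  set err : ℝ := V w + (η + κ) * w ^ (s - 2) +
    w ^ (s - 2) * Real.exp (-(w * Real.sqrt N * (η * κ ^ 2) / 1600)) with herr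
  have hVw := hV w hw
  have herr0 : 0 ≤ err := by positivity
  have herr1 : V w + (η + κ) * w ^ (s - 2) +
      w ^ (s - 2) * Real.exp (-(w * Real.sqrt N₁ * (η * κ ^ 2) / 1600)) ≤ err := by
    rw [herr]
    have h3 : Real.sqrt N ≤ Real.sqrt N₁ := Real.sqrt_le_sqrt hNN₁
    have h4 : Real.exp (-(w * Real.sqrt N₁ * (η * κ ^ 2) / 1600)) ≤
        Real.exp (-(w * Real.sqrt N * (η * κ ^ 2) / 1600)) := by
      refine Real.exp_le_exp.2 (neg_le_neg ?_)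
      refine div_le_div_of_nonneg_right ?_ (by norm_num)
      refine mul_le_mul_of_nonneg_right ?_ (by positivity)
      exact mul_le_mul_of_nonneg_left h3 hw.le
    have h5 := mul_le_mul_of_nonneg_left h4 hW0.le
    linarith
  have hup2 : ((1 + δ) / (1 - 2 * δ)) ^ 4 * (minE s N - Cc s * (N : ℝ) ^ 2) ≤
      (N₁ : ℝ) ^ (1 + s / 2) * (c + C * err) := by
    refine hup.trans (mul_le_mul_of_nonneg_left ?_ hP1.le)
    have := mul_le_mul_of_nonneg_left herr1 hC.le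
    linarith
  set L : ℝ := ((1 + δ) / (1 - 2 * δ)) ^ 4 with hL
  have hL2 : L - 1 ≤ 33 * δ := by
    have h3 : (1 + δ) / (1 - 2 * δ) ≤ 1 + 4 * δ := by
      rw [div_le_iff₀ (by linarith)]
      nlinarith
    have h4 : L ≤ (1 + 4 * δ) ^ 4 := pow_le_pow_left₀ (by
      have : 0 < 1 - 2 * δ := by linarith
      positivity) h3 4
    have h5 : (1 + 4 * δ) ^ 4 - 1 ≤ 33 * δ := by
      have h6 : (1 + 4 * δ) ^ 4 - 1 = 16 * δ + 96 * δ * δ + 256 * δ * δ ^ 2 + 256 * δ * δ ^ 3 := by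
        ring
      have h7 : δ ^ 2 ≤ (1 / 8) ^ 2 := pow_le_pow_left₀ hδ0.le hδ8 2
      have h8 : δ ^ 3 ≤ (1 / 8) ^ 3 := pow_le_pow_left₀ hδ0.le hδ8 3
      rw [h6]
      nlinarith
    linarith
  have hL1 : 1 ≤ L := by
    refine one_le_pow₀ ?_
    rw [le_div_iff₀ (by linarith only [hδ0, hδ8])]
    linarith only [hδ0]
  set q : ℝ := (N₁ : ℝ) ^ (1 + s / 2) / (N : ℝ) ^ (1 + s / 2) with hq
  have hq1 : 1 ≤ q := by
    rw [hq, le_div_iff₀ hP, one_mul]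
    exact Real.rpow_le_rpow hN'.le hNN₁ (by linarith only [h0, hδ0, hδ8])
  have hq2 : q ≤ 2 := by
    rw [hq, ← Real.div_rpow hN₁'.le hN'.le]
    have h3 : (N₁ : ℝ) / N ≤ 4 / 3 := by
      rw [div_le_iff₀ hN']
      nlinarith only [hb2, hδ8]
    have h3' : 1 ≤ (N₁ : ℝ) / N := by
      rw [le_div_iff₀ hN', one_mul]; exact hNN₁
    calc ((N₁ : ℝ) / N) ^ (1 + s / 2) ≤ ((N₁ : ℝ) / N) ^ (2 : ℝ) :=
          Real.rpow_le_rpow_of_exponent_le h3' (by linarith only [h2])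
      _ ≤ (4 / 3 : ℝ) ^ (2 : ℝ) := Real.rpow_le_rpow (by positivity) h3 (by norm_num)
      _ ≤ 2 := by rw [Real.rpow_two]; norm_num
  have h3 : L * fN s N ≤ q * (c + C * err) := by
    have h4 : L * fN s N = L * (minE s N - Cc s * (N : ℝ) ^ 2) / (N : ℝ) ^ (1 + s / 2) := by
      rw [fN]; ring
    have h5 : q * (c + C * err) = (N₁ : ℝ) ^ (1 + s / 2) * (c + C * err) /
        (N : ℝ) ^ (1 + s / 2) := by
      rw [hq]; ring
    rw [h4, h5]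
    exact div_le_div_of_nonneg_right hup2 hP.le
  have h4 : q * (c + C * err) ≤ c + 2 * C * err := by
    have h5 : q * c ≤ c := by nlinarith
    have h6 : q * (C * err) ≤ 2 * (C * err) := mul_le_mul_of_nonneg_right hq2 (by positivity)
    linarith
  have h6 : -a ≤ fN s N := hfa N hN
  have h7 : (L - 1) * -a ≤ (L - 1) * fN s N := mul_le_mul_of_nonneg_left h6 (by linarith only [hL1])
  have h8 : (L - 1) * a ≤ 33 * δ * a := mul_le_mul_of_nonneg_right hL2 ha.le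
  have h9 : 0 ≤ a * err := by positivity
  have h10 : 0 ≤ C * δ := by positivity
  linarith

/-- **Direction 2** for `s < 1`. -/
theorem dir2b {s : ℝ} (h0 : 0 < s) (h1 : s < 1) {c : ℝ} (hc0 : c < 0)
    (hc : Tendsto (fN s) atTop (𝓝 c)) : ∃ C A : ℝ, 0 < C ∧ 1 ≤ A ∧ ∀ δ η κ w : ℝ, 0 < δ →
      δ ≤ 1 / 8 → 0 < η → η ≤ 1 / 2 → 0 < κ → κ ≤ 1 / 2 → 0 < w → ∀ N : ℕ, 1 ≤ N →
      A ≤ δ * (N : ℝ) ^ ((2 - s) / 4) →
      fN s N ≤ c + C * (δ + (w ^ s + (η + κ) * w ^ (s - 2) +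
        w ^ (s - 2) * Real.exp (-(w * Real.sqrt N * (η * κ ^ 2) / 1600)))) := by
  obtain ⟨C, hC, HC⟩ := up_per2 h0 h1 hc0 hc
  exact dir2_gen h0 (by linarith) hc0 hC (fun w => w ^ s) (fun w hw => Real.rpow_nonneg hw.le s) HC

end Pool.Agent.Helper51.RT
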