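import Pool.Agent.Helper51.RT.I2

/-! # RT-J: the rate of convergence -/

set_option autoImplicit false

open MeasureTheory Set Metric Filter Topology
open scoped ENNReal

namespace Pool.Agent.Helper51.RT

open Pool.Agent.Helper42.RZ Pool.Agent.Helper42.RZ2 Pool.Agent.Helper42.RZ.S15

theorem sq_exp {y : ℝ} (hy : 0 ≤ y) : y ^ 2 * Real.exp (-(y / 12800)) ≤ 327680000 := by
  have h1 := Real.quadratic_le_exp_of_nonneg (show 0 ≤ y / 12800 by positivity)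
  rw [Real.exp_neg, ← div_eq_mul_inv, div_le_iff₀ (Real.exp_pos _)]
  nlinarith

/-- the choice of the parameters -/
theorem err_N {s : ℝ} (h1 : 1 ≤ s) (h2 : s < 2) {N : ℝ} (hN : 1 ≤ N) {M : ℝ} (hM : 0 < M)
    (hM2 : M ≤ 1600) {d w η : ℝ} (hd0 : 0 < d) (hd : d ≤ 1 / 16) (hw : w = N ^ (-d))
    (hη : η = N ^ (-((3 - s) * d)) / 2) :
    0 < w ∧ 0 < η ∧ η ≤ 1 / 2 ∧ w + (η + η) * w ^ (s - 2) +
      w ^ (s - 2) * Real.exp (-(w * Real.sqrt N * (η * η ^ 2) / M)) ≤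
      400000000 * N ^ (-d) := by
  have hN0 : 0 < N := by linarith
  have hw0 : 0 < w := by rw [hw]; positivity
  have hη0 : 0 < η := by rw [hη]; positivity
  have hη1 : η ≤ 1 / 2 := by
    have h3 : N ^ (-((3 - s) * d)) ≤ 1 :=
      Real.rpow_le_one_of_one_le_of_nonpos hN (by nlinarith)
    rw [hη]
    linarith
  refine ⟨hw0, hη0, hη1, ?_⟩
  have hws : w ^ (s - 2) = N ^ ((2 - s) * d) := by
    rw [hw, ← Real.rpow_mul hN0.le]
    congr 1
    ring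
  have e1 : (η + η) * w ^ (s - 2) = N ^ (-d) := by
    rw [hws, hη, add_halves, ← Real.rpow_add hN0]
    congr 1
    ring
  have e2 : w * Real.sqrt N * (η * η ^ 2) = N ^ (1 / 2 - (10 - 3 * s) * d) / 8 := by
    have e3 : η * η ^ 2 = N ^ (-(3 * ((3 - s) * d))) / 8 := by
      have e4 : N ^ (-(3 * ((3 - s) * d))) = (N ^ (-((3 - s) * d))) ^ 3 := by
        rw [← Real.rpow_natCast (N ^ (-((3 - s) * d))) 3, ← Real.rpow_mul hN0.le]
        congr 1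
        push_cast
        ring
      rw [e4, hη]
      ring
    rw [e3, hw, Real.sqrt_eq_rpow, ← Real.rpow_add hN0, ← mul_div_assoc, ← Real.rpow_add hN0]
    congr 2
    ring
  have hθ : (1 / 16 : ℝ) ≤ 1 / 2 - (10 - 3 * s) * d := by
    nlinarith [mul_nonneg (sub_nonneg.2 h1) hd0.le]
  have e5 : N ^ (1 / 16 : ℝ) / 12800 ≤ w * Real.sqrt N * (η * η ^ 2) / M := by
    rw [e2, div_div]
    have h5 : N ^ (1 / 16 : ℝ) ≤ N ^ (1 / 2 - (10 - 3 * s) * d) :=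
      Real.rpow_le_rpow_of_exponent_le hN hθ
    refine div_le_div₀ (by positivity) h5 (by positivity) ?_
    linarith
  have e6 : Real.exp (-(w * Real.sqrt N * (η * η ^ 2) / M)) ≤
      Real.exp (-(N ^ (1 / 16 : ℝ) / 12800)) := Real.exp_le_exp.2 (neg_le_neg e5)
  have e7 : w ^ (s - 2) * Real.exp (-(w * Real.sqrt N * (η * η ^ 2) / M)) ≤
      327680000 * N ^ (-d) := by
    have h6 : w ^ (s - 2) = N ^ ((3 - s) * d) * N ^ (-d) := by
      rw [hws, ← Real.rpow_add hN0]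
      congr 1
      ring
    have h7 : N ^ ((3 - s) * d) ≤ (N ^ (1 / 16 : ℝ)) ^ 2 := by
      rw [← Real.rpow_natCast (N ^ (1 / 16 : ℝ)) 2, ← Real.rpow_mul hN0.le]
      refine Real.rpow_le_rpow_of_exponent_le hN ?_
      push_cast
      nlinarith [mul_nonneg (sub_nonneg.2 h1) hd0.le]
    have h8 := sq_exp (y := N ^ (1 / 16 : ℝ)) (by positivity)
    calc w ^ (s - 2) * Real.exp (-(w * Real.sqrt N * (η * η ^ 2) / M)) ≤
        w ^ (s - 2) * Real.exp (-(N ^ (1 / 16 : ℝ) / 12800)) :=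
          mul_le_mul_of_nonneg_left e6 (Real.rpow_nonneg hw0.le _)
      _ = (N ^ ((3 - s) * d) * Real.exp (-(N ^ (1 / 16 : ℝ) / 12800))) * N ^ (-d) := by
          rw [h6]; ring
      _ ≤ ((N ^ (1 / 16 : ℝ)) ^ 2 * Real.exp (-(N ^ (1 / 16 : ℝ) / 12800))) * N ^ (-d) := by
          refine mul_le_mul_of_nonneg_right ?_ (by positivity)
          exact mul_le_mul_of_nonneg_right h7 (Real.exp_pos _).le
      _ ≤ 327680000 * N ^ (-d) := mul_le_mul_of_nonneg_right h8 (by positivity)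
  rw [e1]
  have h9 : 0 < N ^ (-d) := by positivity
  have h10 : w = N ^ (-d) := hw
  linarith

/-- **The rate of convergence.** -/
theorem rate_f {s : ℝ} (h1 : 1 ≤ s) (h2 : s < 2) {c : ℝ} (hc0 : c < 0)
    (hc : Tendsto (fN s) atTop (𝓝 c)) {d : ℝ} (hd0 : 0 < d) (hd1 : d ≤ 1 / 16)
    (hd2 : d ≤ (2 - s) / 4) : ∃ B : ℝ, 0 < B ∧ ∀ N : ℕ, 1 ≤ N →
      |fN s N - c| ≤ B * (N : ℝ) ^ (-d) := by
  have h0 : 0 < s := by linarith
  obtain ⟨C₁, hC₁, H₁⟩ := dir1 h1 h2 hc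
  obtain ⟨C₂, A, hC₂, hA, H₂⟩ := dir2 h1 h2 hc0 hc
  set K₀ : ℝ := 400000000 with hK₀
  refine ⟨C₁ * K₀ + C₂ * (A + K₀) + 8 * A * |c|, by positivity, fun N hN => ?_⟩
  have hN1 : (1 : ℝ) ≤ N := by exact_mod_cast hN
  have hN0 : (0 : ℝ) < N := by linarith
  set w : ℝ := (N : ℝ) ^ (-d) with hw
  set η : ℝ := (N : ℝ) ^ (-((3 - s) * d)) / 2 with hη
  obtain ⟨hw0, hη0, hη2, hE1⟩ := err_N h1 h2 hN1 (M := 400) (by norm_num) (by norm_num) hd0 hd1 hw hη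
  obtain ⟨-, -, -, hE2⟩ := err_N h1 h2 hN1 (M := 1600) (by norm_num) (by norm_num) hd0 hd1 hw hη
  have hX0 : 0 < (N : ℝ) ^ (-d) := by positivity
  have low : c - fN s N ≤ C₁ * K₀ * (N : ℝ) ^ (-d) := by
    have h3 := H₁ η η w hη0 hη2 hη0 hη2 hw0 N hN
    have h4 := mul_le_mul_of_nonneg_left hE1 hC₁.le
    linarith
  have up : fN s N - c ≤ (C₂ * (A + K₀) + 8 * A * |c|) * (N : ℝ) ^ (-d) := by
    set δ : ℝ := A * (N : ℝ) ^ (-((2 - s) / 4)) with hδ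
    have hδ0 : 0 < δ := by positivity
    rcases le_or_gt δ (1 / 8) with h5 | h5
    · have h6 : A ≤ δ * (N : ℝ) ^ ((2 - s) / 4) := by
        rw [hδ, mul_assoc, ← Real.rpow_add hN0, neg_add_cancel, Real.rpow_zero, mul_one]
      have h7 := H₂ δ η η w hδ0 h5 hη0 hη2 hη0 hη2 hw0 N hN h6
      have h8 : δ ≤ A * (N : ℝ) ^ (-d) := by
        rw [hδ]
        refine mul_le_mul_of_nonneg_left ?_ (by positivity)
        exact Real.rpow_le_rpow_of_exponent_le hN1 (by linarith)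
      have h9 := mul_le_mul_of_nonneg_left (add_le_add h8 hE2) hC₂.le
      have h10 : 0 ≤ 8 * A * |c| * (N : ℝ) ^ (-d) := by positivity
      have h11 : (C₂ * (A + K₀) + 8 * A * |c|) * (N : ℝ) ^ (-d) =
          C₂ * (A * (N : ℝ) ^ (-d) + K₀ * (N : ℝ) ^ (-d)) + 8 * A * |c| * (N : ℝ) ^ (-d) := by
        ring
      rw [h11]
      linarith
    · have h6 : 1 ≤ 8 * A * (N : ℝ) ^ (-d) := by
        have h7 : (N : ℝ) ^ (-((2 - s) / 4)) ≤ (N : ℝ) ^ (-d) :=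
          Real.rpow_le_rpow_of_exponent_le hN1 (by linarith)
        have h8 : δ ≤ A * (N : ℝ) ^ (-d) := by
          rw [hδ]
          exact mul_le_mul_of_nonneg_left h7 (by positivity)
        linarith
      have h7 := fN_nonpos h0 h2 hN
      have h8 : |c| ≤ 8 * A * (N : ℝ) ^ (-d) * |c| := le_mul_of_one_le_left (abs_nonneg c) h6
      have h9 : -c ≤ |c| := neg_le_abs c
      have h10 : 0 ≤ C₂ * (A + K₀) * (N : ℝ) ^ (-d) := by positivity
      have h11 : (C₂ * (A + K₀) + 8 * A * |c|) * (N : ℝ) ^ (-d) =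
          C₂ * (A + K₀) * (N : ℝ) ^ (-d) + 8 * A * (N : ℝ) ^ (-d) * |c| := by ring
      rw [h11]
      linarith
  rw [abs_le]
  have h12 : 0 ≤ (C₂ * (A + K₀) + 8 * A * |c|) * (N : ℝ) ^ (-d) := by positivity
  have h13 : 0 ≤ C₁ * K₀ * (N : ℝ) ^ (-d) := by positivity
  have h14 : (C₁ * K₀ + C₂ * (A + K₀) + 8 * A * |c|) * (N : ℝ) ^ (-d) =
      C₁ * K₀ * (N : ℝ) ^ (-d) + (C₂ * (A + K₀) + 8 * A * |c|) * (N : ℝ) ^ (-d) := by ring
  rw [h14]
  constructor <;> linarith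

theorem rate {s : ℝ} (h1 : 1 ≤ s) (h2 : s < 2) : ∃ c B : ℝ, c < 0 ∧ 0 < B ∧
    Tendsto (fN s) atTop (𝓝 c) ∧ ∀ N : ℕ, 1 ≤ N →
      |minE s N - Cc s * (N : ℝ) ^ 2 - c * (N : ℝ) ^ (1 + s / 2)| ≤
        B * (N : ℝ) ^ (1 + s / 2 - min (1 / 16) ((2 - s) / 4)) := by
  have h0 : 0 < s := by linarith
  obtain ⟨c, hc0, hc⟩ := exists_limit h0 h2
  have hc' : Tendsto (fN s) atTop (𝓝 c) := hc
  set d : ℝ := min (1 / 16) ((2 - s) / 4) with hd
  have hd0 : 0 < d := lt_min (by norm_num) (by linarith)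
  obtain ⟨B, hB, H⟩ := rate_f h1 h2 hc0 hc' hd0 (min_le_left _ _) (min_le_right _ _)
  refine ⟨c, B, hc0, hB, hc', fun N hN => ?_⟩
  have hN0 : (0 : ℝ) < N := by exact_mod_cast hN
  have hP : 0 < (N : ℝ) ^ (1 + s / 2) := by positivity
  have e1 : minE s N - Cc s * (N : ℝ) ^ 2 - c * (N : ℝ) ^ (1 + s / 2) =
      (fN s N - c) * (N : ℝ) ^ (1 + s / 2) := by
    rw [fN]
    field_simp
  rw [e1, abs_mul, abs_of_pos hP]
  have e2 : (N : ℝ) ^ (1 + s / 2 - d) = (N : ℝ) ^ (-d) * (N : ℝ) ^ (1 + s / 2) := by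
    rw [← Real.rpow_add hN0]
    congr 1
    ring
  rw [e2, ← mul_assoc]
  exact mul_le_mul_of_nonneg_right (H N hN) hP.le

end Pool.Agent.Helper51.RT
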