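import Pool.Agent.Helper51.RT.I4
import Pool.Agent.Helper51.RT.J

/-! # RT-J2: the rate of convergence for `0 < s < 2` -/

set_option autoImplicit false

open MeasureTheory Set Metric Filter Topology
open scoped ENNReal

namespace Pool.Agent.Helper51.RT

open Pool.Agent.Helper42.RZ Pool.Agent.Helper42.RZ2 Pool.Agent.Helper42.RZ.S15

/-- the choice of the parameters -/
theorem err_N2 {s : ℝ} (h0 : 0 < s) (h1 : s < 1) {N : ℝ} (hN : 1 ≤ N) {M : ℝ} (hM : 0 < M)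
    (hM2 : M ≤ 1600) {d w η : ℝ} (hd : d = s / 16) (hw : w = N ^ (-(1 / 16) : ℝ))
    (hη : η = N ^ (-(1 / 8) : ℝ) / 2) :
    0 < w ∧ 0 < η ∧ η ≤ 1 / 2 ∧ w ^ s + (η + η) * w ^ (s - 2) +
      w ^ (s - 2) * Real.exp (-(w * Real.sqrt N * (η * η ^ 2) / M)) ≤
      400000000 * N ^ (-d) := by
  have hN0 : 0 < N := by linarith
  have hw0 : 0 < w := by rw [hw]; positivity
  have hη0 : 0 < η := by rw [hη]; positivity
  have hη1 : η ≤ 1 / 2 := by
    have h3 : N ^ (-(1 / 8) : ℝ) ≤ 1 := Real.rpow_le_one_of_one_le_of_nonpos hN (by norm_num)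
    rw [hη]
    linarith
  refine ⟨hw0, hη0, hη1, ?_⟩
  have hws : w ^ (s - 2) = N ^ ((2 - s) / 16) := by
    rw [hw, ← Real.rpow_mul hN0.le]
    congr 1
    ring
  have e0 : w ^ s = N ^ (-d) := by
    rw [hw, ← Real.rpow_mul hN0.le, hd]
    congr 1
    ring
  have e1 : (η + η) * w ^ (s - 2) = N ^ (-d) := by
    rw [hws, hη, add_halves, ← Real.rpow_add hN0, hd]
    congr 1
    ring
  have e2 : w * Real.sqrt N * (η * η ^ 2) = N ^ (1 / 16 : ℝ) / 8 := by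
    have e3 : η * η ^ 2 = N ^ (-(3 / 8) : ℝ) / 8 := by
      have e4 : N ^ (-(3 / 8) : ℝ) = (N ^ (-(1 / 8) : ℝ)) ^ 3 := by
        rw [← Real.rpow_natCast (N ^ (-(1 / 8) : ℝ)) 3, ← Real.rpow_mul hN0.le]
        congr 1
        push_cast
        ring
      rw [e4, hη]
      ring
    rw [e3, hw, Real.sqrt_eq_rpow, ← Real.rpow_add hN0, ← mul_div_assoc, ← Real.rpow_add hN0]
    congr 2
    norm_num
  have e5 : N ^ (1 / 16 : ℝ) / 12800 ≤ w * Real.sqrt N * (η * η ^ 2) / M := by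
    rw [e2, div_div]
    refine div_le_div_of_nonneg_left (by positivity) (by positivity) ?_
    linarith
  have e6 : Real.exp (-(w * Real.sqrt N * (η * η ^ 2) / M)) ≤
      Real.exp (-(N ^ (1 / 16 : ℝ) / 12800)) := Real.exp_le_exp.2 (neg_le_neg e5)
  have e7 : w ^ (s - 2) * Real.exp (-(w * Real.sqrt N * (η * η ^ 2) / M)) ≤
      327680000 * N ^ (-d) := by
    have h6 : w ^ (s - 2) = (N ^ (1 / 16 : ℝ)) ^ 2 * N ^ (-d) := by
      rw [hws, ← Real.rpow_natCast (N ^ (1 / 16 : ℝ)) 2, ← Real.rpow_mul hN0.le,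
        ← Real.rpow_add hN0, hd]
      congr 1
      push_cast
      ring
    have h8 := sq_exp (y := N ^ (1 / 16 : ℝ)) (by positivity)
    calc w ^ (s - 2) * Real.exp (-(w * Real.sqrt N * (η * η ^ 2) / M)) ≤
        w ^ (s - 2) * Real.exp (-(N ^ (1 / 16 : ℝ) / 12800)) :=
          mul_le_mul_of_nonneg_left e6 (Real.rpow_nonneg hw0.le _)
      _ = ((N ^ (1 / 16 : ℝ)) ^ 2 * Real.exp (-(N ^ (1 / 16 : ℝ) / 12800))) * N ^ (-d) := by
          rw [h6]; ring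
      _ ≤ 327680000 * N ^ (-d) := mul_le_mul_of_nonneg_right h8 (by positivity)
  rw [e1, e0]
  have h9 : 0 < N ^ (-d) := by positivity
  linarith

/-- the rate of convergence, `s < 1` -/
theorem rate_f2 {s : ℝ} (h0 : 0 < s) (h1 : s < 1) {c : ℝ} (hc0 : c < 0)
    (hc : Tendsto (fN s) atTop (𝓝 c)) : ∃ B : ℝ, 0 < B ∧ ∀ N : ℕ, 1 ≤ N →
      |fN s N - c| ≤ B * (N : ℝ) ^ (-(s / 16)) := by
  have h2 : s < 2 := by linarith
  obtain ⟨C₁, hC₁, H₁⟩ := dir1b h0 h1 hc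
  obtain ⟨C₂, A, hC₂, hA, H₂⟩ := dir2b h0 h1 hc0 hc
  set K₀ : ℝ := 400000000 with hK₀
  refine ⟨C₁ * K₀ + C₂ * (A + K₀) + 8 * A * |c|, by positivity, fun N hN => ?_⟩
  have hN1 : (1 : ℝ) ≤ N := by exact_mod_cast hN
  have hN0 : (0 : ℝ) < N := by linarith
  set d : ℝ := s / 16 with hd
  set w : ℝ := (N : ℝ) ^ (-(1 / 16) : ℝ) with hw
  set η : ℝ := (N : ℝ) ^ (-(1 / 8) : ℝ) / 2 with hη
  obtain ⟨hw0, hη0, hη2, hE1⟩ := err_N2 h0 h1 hN1 (M := 400) (by norm_num) (by norm_num) hd hw hη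
  obtain ⟨-, -, -, hE2⟩ := err_N2 h0 h1 hN1 (M := 1600) (by norm_num) (by norm_num) hd hw hη
  have hX0 : 0 < (N : ℝ) ^ (-d) := by positivity
  have hd0 : 0 < d := by rw [hd]; linarith
  have low : c - fN s N ≤ C₁ * K₀ * (N : ℝ) ^ (-d) := by
    have h3 := H₁ η η w hη0 hη2 hη0 hη2 hw0 N hN
    have h4 := mul_le_mul_of_nonneg_left hE1 hC₁.le
    linarith
  have up : fN s N - c ≤ (C₂ * (A + K₀) + 8 * A * |c|) * (N : ℝ) ^ (-d) := by
    set δ : ℝ := A * (N : ℝ) ^ (-((2 - s) / 4)) with hδ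
    have hδ0 : 0 < δ := by positivity
    have hδ1 : δ ≤ A * (N : ℝ) ^ (-d) := by
      rw [hδ]
      refine mul_le_mul_of_nonneg_left ?_ (by positivity)
      exact Real.rpow_le_rpow_of_exponent_le hN1 (by rw [hd]; linarith)
    rcases le_or_gt δ (1 / 8) with h5 | h5
    · have h6 : A ≤ δ * (N : ℝ) ^ ((2 - s) / 4) := by
        rw [hδ, mul_assoc, ← Real.rpow_add hN0, neg_add_cancel, Real.rpow_zero, mul_one]
      have h7 := H₂ δ η η w hδ0 h5 hη0 hη2 hη0 hη2 hw0 N hN h6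
      have h9 := mul_le_mul_of_nonneg_left (add_le_add hδ1 hE2) hC₂.le
      have h10 : 0 ≤ 8 * A * |c| * (N : ℝ) ^ (-d) := by positivity
      have h11 : (C₂ * (A + K₀) + 8 * A * |c|) * (N : ℝ) ^ (-d) =
          C₂ * (A * (N : ℝ) ^ (-d) + K₀ * (N : ℝ) ^ (-d)) + 8 * A * |c| * (N : ℝ) ^ (-d) := by
        ring
      rw [h11]
      linarith
    · have h6 : 1 ≤ 8 * A * (N : ℝ) ^ (-d) := by linarith
      have h7 := fN_nonpos h0 h2 hN
      have h8 : |c| ≤ 8 * A * (N : ℝ) ^ (-d) * |c| := le_mul_of_one_le_left (abs_nonneg c) h6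
      have h9 : -c ≤ |c| := neg_le_abs c
      have h10 : 0 ≤ C₂ * (A + K₀) * (N : ℝ) ^ (-d) := by positivity
      have h11 : (C₂ * (A + K₀) + 8 * A * |c|) * (N : ℝ) ^ (-d) =
          C₂ * (A + K₀) * (N : ℝ) ^ (-d) + 8 * A * (N : ℝ) ^ (-d) * |c| := by ring
      rw [h11]
      linarith
  rw [abs_le]
  have h12 : 0 ≤ (C₂ * (A + K₀) + 8 * A * |c|) * (N : ℝ) ^ (-d) := by positivity
  have h13 : 0 ≤ C₁ * K₀ * (N : ℝ) ^ (-d) := by positivity
  have h14 : (C₁ * K₀ + C₂ * (A + K₀) + 8 * A * |c|) * (N : ℝ) ^ (-d) =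
      C₁ * K₀ * (N : ℝ) ^ (-d) + (C₂ * (A + K₀) + 8 * A * |c|) * (N : ℝ) ^ (-d) := by ring
  rw [h14]
  constructor <;> linarith

/-- **The power saving remainder.** -/
theorem rate_all {s : ℝ} (h0 : 0 < s) (h2 : s < 2) : ∃ c B : ℝ, c < 0 ∧ 0 < B ∧
    ∀ N : ℕ, 1 ≤ N →
      |minE s N - Cc s * (N : ℝ) ^ 2 - c * (N : ℝ) ^ (1 + s / 2)| ≤
        B * (N : ℝ) ^ (1 + s / 2 - min (min s 1 / 16) ((2 - s) / 4)) := by
  rcases le_or_gt 1 s with h1 | h1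
  · obtain ⟨c, B, hc, hB, -, H⟩ := rate h1 h2
    refine ⟨c, B, hc, hB, fun N hN => ?_⟩
    rw [min_eq_right h1]
    exact H N hN
  · obtain ⟨c, hc0, hc⟩ := exists_limit h0 h2
    have hc' : Tendsto (fN s) atTop (𝓝 c) := hc
    obtain ⟨B, hB, H⟩ := rate_f2 h0 h1 hc0 hc'
    refine ⟨c, B, hc0, hB, fun N hN => ?_⟩
    rw [min_eq_left h1.le, min_eq_left (by linarith)]
    have hN0 : (0 : ℝ) < N := by exact_mod_cast hN
    have hP : 0 < (N : ℝ) ^ (1 + s / 2) := by positivity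
    have e1 : minE s N - Cc s * (N : ℝ) ^ 2 - c * (N : ℝ) ^ (1 + s / 2) =
        (fN s N - c) * (N : ℝ) ^ (1 + s / 2) := by
      rw [fN]
      field_simp
    rw [e1, abs_mul, abs_of_pos hP]
    have e2 : (N : ℝ) ^ (1 + s / 2 - s / 16) =
        (N : ℝ) ^ (-(s / 16)) * (N : ℝ) ^ (1 + s / 2) := by
      rw [← Real.rpow_add hN0]
      congr 1
      ring
    rw [e2, ← mul_assoc]
    exact mul_le_mul_of_nonneg_right (H N hN) hP.le

end Pool.Agent.Helper51.RT
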