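import Pool.Agent.Helper51.RT.F

/-! # RT-L: the damped kernel for `s < 1` is a mixture of exponentially damped kernels -/

set_option autoImplicit false

open MeasureTheory Set Metric Filter Topology
open scoped ENNReal

namespace Pool.Agent.Helper51.RT

open Pool.Agent.Helper42.RZ

/-- `1 + a` for `0 < a` -/
noncomputable def bb (a : ℝ) : ℝ := 1 + max a 0

theorem bb_one (a : ℝ) : 1 ≤ bb a := by
  unfold bb
  have := le_max_right a 0
  linarith

theorem bb_pos (a : ℝ) : 0 < bb a := lt_of_lt_of_le one_pos (bb_one a)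

theorem bb_eq {a : ℝ} (h : 0 < a) : bb a = 1 + a := by
  rw [bb, max_eq_left h.le]

theorem bb_cont : Continuous bb := by
  unfold bb
  fun_prop

theorem bb_meas : Measurable bb := bb_cont.measurable

/-- the density of the mixing measure -/
noncomputable def ard (s a : ℝ) : ℝ := a ^ (-s) / ((1 + a) * (Real.Gamma s * Real.Gamma (1 - s)))

/-- the mixing measure -/
noncomputable def ars (s : ℝ) : Measure ℝ :=
  (volume.restrict (Ioi (0 : ℝ))).withDensity fun a => ENNReal.ofReal (ard s a)

theorem ard_meas (s : ℝ) : Measurable (ard s) := by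
  unfold ard
  fun_prop

theorem ard_nonneg {s : ℝ} (h0 : 0 < s) (h1 : s < 1) {a : ℝ} (ha : 0 < a) : 0 ≤ ard s a := by
  have hG : 0 < Real.Gamma s := Real.Gamma_pos_of_pos h0
  have hG1 : 0 < Real.Gamma (1 - s) := Real.Gamma_pos_of_pos (by linarith)
  unfold ard
  positivity

theorem ars_lint (s : ℝ) {f : ℝ → ℝ≥0∞} (hf : Measurable f) :
    ∫⁻ a, f a ∂(ars s) = ∫⁻ a in Ioi (0 : ℝ), ENNReal.ofReal (ard s a) * f a := by
  unfold ars
  rw [lintegral_withDensity_eq_lintegral_mul _ (ard_meas s).ennreal_ofReal hf]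
  rfl

theorem ars_exp {s : ℝ} (h0 : 0 < s) (h1 : s < 1) {r : ℝ} (hr : 0 < r) {w : ℝ} (hw : 0 ≤ w) :
    ∫⁻ a, ENNReal.ofReal (K s r * Real.exp (-(bb a * w) * r)) ∂(ars s) =
      ∫⁻ u in Ioi w, ENNReal.ofReal (u ^ (s - 1) / Real.Gamma s * Real.exp (-u * r)) := by
  have hG : 0 < Real.Gamma s := Real.Gamma_pos_of_pos h0
  have hG1 : 0 < Real.Gamma (1 - s) := Real.Gamma_pos_of_pos (by linarith)
  have hK : 0 < K s r := Real.rpow_pos_of_pos hr _
  have hbm := bb_meas
  rw [ars_lint s (by fun_prop)]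
  set C : ℝ := Real.Gamma s * Real.Gamma (1 - s) with hC
  have hC0 : 0 < C := by positivity
  have e1 : ∀ a ∈ Ioi (0 : ℝ), ENNReal.ofReal (ard s a) *
      ENNReal.ofReal (K s r * Real.exp (-(bb a * w) * r)) =
      ∫⁻ u in Ioi w, ENNReal.ofReal (K s r * (a ^ (-s) / C * (r * Real.exp (-((1 + a) * r) * u)))) := by
    intro a ha
    have ha0 : (0 : ℝ) < a := ha
    rw [bb_eq ha0, ← ENNReal.ofReal_mul (ard_nonneg h0 h1 ha0)]
    have hneg : -((1 + a) * r) < 0 := by
      have : 0 < (1 + a) * r := by positivity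
      linarith
    rw [← ofReal_integral_eq_lintegral_ofReal]
    · congr 1
      rw [integral_const_mul, integral_const_mul, integral_const_mul, integral_exp_mul_Ioi hneg,
        ard, ← hC]
      have e2 : -((1 + a) * w) * r = -((1 + a) * r) * w := by ring
      rw [e2]
      field_simp
    · exact (((integrableOn_exp_mul_Ioi hneg w).const_mul r).const_mul _).const_mul _
    · exact Eventually.of_forall fun u => by positivity
  rw [setLIntegral_congr_fun measurableSet_Ioi e1, lintegral_lintegral_swap]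
  · refine setLIntegral_congr_fun measurableSet_Ioi fun u hu => ?_
    have hu0 : 0 < u := lt_of_le_of_lt hw hu
    have hru : 0 < r * u := by positivity
    have h3 := Real.integral_rpow_mul_exp_neg_mul_Ioi (a := 1 - s) (r := r * u) (by linarith) hru
    have h4 : IntegrableOn (fun t : ℝ => t ^ (1 - s - 1) * Real.exp (-(r * u * t))) (Ioi 0) := by
      by_contra h
      rw [integral_undef h] at h3
      have : 0 < (1 / (r * u)) ^ (1 - s) * Real.Gamma (1 - s) := by positivity
      linarith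
    have e3 : ∀ a : ℝ, K s r * (a ^ (-s) / C * (r * Real.exp (-((1 + a) * r) * u))) =
        (K s r * (r * Real.exp (-u * r)) / C) * (a ^ (1 - s - 1) * Real.exp (-(r * u * a))) := by
      intro a
      have e4 : Real.exp (-((1 + a) * r) * u) = Real.exp (-u * r) * Real.exp (-(r * u * a)) := by
        rw [← Real.exp_add]
        congr 1
        ring
      rw [e4, show 1 - s - 1 = -s by ring]
      ring
    simp only [e3]
    rw [← ofReal_integral_eq_lintegral_ofReal (h4.const_mul _), integral_const_mul, h3]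
    · congr 1
      have e5 : (1 / (r * u)) ^ (1 - s) = r ^ s * u ^ (s - 1) * r⁻¹ := by
        rw [one_div, Real.inv_rpow hru.le, ← Real.rpow_neg hru.le, Real.mul_rpow hr.le hu0.le,
          show -(1 - s) = s - 1 by ring, Real.rpow_sub_one hr.ne' s]
        ring
      have e6 : K s r * r ^ s = 1 := by
        rw [K, ← Real.rpow_add hr]
        simp
      rw [e5, hC]
      have e7 : K s r * (r * Real.exp (-u * r)) / (Real.Gamma s * Real.Gamma (1 - s)) *
          (r ^ s * u ^ (s - 1) * r⁻¹ * Real.Gamma (1 - s)) =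
          (K s r * r ^ s) * (u ^ (s - 1) / Real.Gamma s * Real.exp (-u * r)) := by
        field_simp
      rw [e7, e6, one_mul]
    · refine (ae_restrict_iff' measurableSet_Ioi).2 (Eventually.of_forall fun a ha => ?_)
      have ha0 : (0 : ℝ) < a := ha
      simp only [Pi.zero_apply]
      positivity
  · apply Measurable.aemeasurable
    unfold Function.uncurry
    fun_prop

theorem int_gam {s : ℝ} (h0 : 0 < s) {r : ℝ} (hr : 0 < r) :
    IntegrableOn (fun u : ℝ => u ^ (s - 1) / Real.Gamma s * Real.exp (-u * r)) (Ioi 0) ∧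
      ∫ u in Ioi (0 : ℝ), u ^ (s - 1) / Real.Gamma s * Real.exp (-u * r) = K s r := by
  have hG : 0 < Real.Gamma s := Real.Gamma_pos_of_pos h0
  have h3 := Real.integral_rpow_mul_exp_neg_mul_Ioi (a := s) (r := r) h0 hr
  have h4 : IntegrableOn (fun t : ℝ => t ^ (s - 1) * Real.exp (-(r * t))) (Ioi 0) := by
    by_contra h
    rw [integral_undef h] at h3
    have : 0 < (1 / r) ^ s * Real.Gamma s := by positivity
    linarith
  have e : ∀ u : ℝ, u ^ (s - 1) / Real.Gamma s * Real.exp (-u * r) =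
      (Real.Gamma s)⁻¹ * (u ^ (s - 1) * Real.exp (-(r * u))) := by
    intro u
    rw [show -u * r = -(r * u) by ring]
    ring
  simp only [e]
  refine ⟨h4.const_mul _, ?_⟩
  rw [integral_const_mul, h3, K, one_div, Real.inv_rpow hr.le, Real.rpow_neg hr.le]
  field_simp

theorem ars_prob {s : ℝ} (h0 : 0 < s) (h1 : s < 1) : IsProbabilityMeasure (ars s) := by
  constructor
  have h := ars_exp h0 h1 (r := 1) one_pos (w := 0) le_rfl
  obtain ⟨h2, h3⟩ := int_gam h0 (r := 1) one_pos
  have e1 : ∫⁻ a, ENNReal.ofReal (K s 1 * Real.exp (-(bb a * 0) * 1)) ∂(ars s) = ars s univ := by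
    simp [K]
  rw [e1, ← ofReal_integral_eq_lintegral_ofReal h2, h3] at h
  · rw [h]
    simp [K]
  · refine (ae_restrict_iff' measurableSet_Ioi).2 (Eventually.of_forall fun a ha => ?_)
    have ha0 : (0 : ℝ) < a := ha
    have hG : 0 < Real.Gamma s := Real.Gamma_pos_of_pos h0
    simp only [Pi.zero_apply]
    positivity

/-- the damped kernel -/
noncomputable def kw (s w r : ℝ) : ℝ := ∫ a, K s r * Real.exp (-(bb a * w) * r) ∂(ars s)

theorem kw_int {s : ℝ} (h0 : 0 < s) (h1 : s < 1) {w r : ℝ} (hw : 0 ≤ w) (hr : 0 ≤ r) :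
    Integrable (fun a => K s r * Real.exp (-(bb a * w) * r)) (ars s) := by
  have := ars_prob h0 h1
  have hbm := bb_meas
  refine (integrable_const (K s r)).mono' (Measurable.aestronglyMeasurable (by fun_prop))
    (Eventually.of_forall fun a => ?_)
  have hK : 0 ≤ K s r := Real.rpow_nonneg hr _
  rw [Real.norm_eq_abs, abs_of_nonneg (by positivity)]
  refine mul_le_of_le_one_right hK ?_
  rw [Real.exp_le_one_iff]
  have h3 := bb_pos a
  have : 0 ≤ bb a * w * r := by positivity
  linarith

theorem kw_eq {s : ℝ} (h0 : 0 < s) (h1 : s < 1) {w r : ℝ} (hw : 0 ≤ w) (hr : 0 < r) :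
    kw s w r = ∫ u in Ioi w, u ^ (s - 1) / Real.Gamma s * Real.exp (-u * r) := by
  have hG : 0 < Real.Gamma s := Real.Gamma_pos_of_pos h0
  have hK : 0 < K s r := Real.rpow_pos_of_pos hr _
  obtain ⟨h2, h3⟩ := int_gam h0 hr
  rw [kw, integral_eq_lintegral_of_nonneg_ae, ars_exp h0 h1 hr hw,
    integral_eq_lintegral_of_nonneg_ae]
  · refine (ae_restrict_iff' measurableSet_Ioi).2 (Eventually.of_forall fun u hu => ?_)
    have hu0 : (0 : ℝ) < u := lt_of_le_of_lt hw hu
    simp only [Pi.zero_apply]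
    positivity
  · exact (h2.mono_set (Ioi_subset_Ioi hw)).aestronglyMeasurable
  · exact Eventually.of_forall fun a => by
      simp only [Pi.zero_apply]
      positivity
  · exact (kw_int h0 h1 hw hr.le).aestronglyMeasurable

theorem kw_diff {s : ℝ} (h0 : 0 < s) (h1 : s < 1) {w r : ℝ} (hw : 0 ≤ w) (hr : 0 < r) :
    K s r - kw s w r = ∫ u in Ioc 0 w, u ^ (s - 1) / Real.Gamma s * Real.exp (-u * r) := by
  obtain ⟨h2, h3⟩ := int_gam h0 hr
  rw [kw_eq h0 h1 hw hr, ← h3, ← Ioc_union_Ioi_eq_Ioi hw, setIntegral_union]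
  · ring
  · exact Set.disjoint_left.2 fun v hv hv' => absurd hv.2 (not_le.2 hv')
  · exact measurableSet_Ioi
  · exact h2.mono_set Ioc_subset_Ioi_self
  · exact h2.mono_set (Ioi_subset_Ioi hw)

theorem ae_ars (s : ℝ) : ∀ᵐ a ∂(ars s), 0 < a := by
  have : ars s ≪ volume.restrict (Ioi (0 : ℝ)) := withDensity_absolutelyContinuous _ _
  exact this.ae_le (ae_restrict_mem measurableSet_Ioi)

/-- the mean of the background -/
noncomputable def ms (s : ℝ) : ℝ := ∫ a, (bb a) ^ (s - 2) ∂(ars s)

theorem bb_pow_meas (e : ℝ) : Measurable fun a => (bb a) ^ e := by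
  have := bb_meas
  fun_prop

theorem bb_pow_le {e : ℝ} (he : e ≤ 0) (a : ℝ) : (bb a) ^ e ≤ 1 :=
  Real.rpow_le_one_of_one_le_of_nonpos (bb_one a) he

theorem ms_int {s : ℝ} (h0 : 0 < s) (h1 : s < 1) :
    Integrable (fun a => (bb a) ^ (s - 2)) (ars s) := by
  have := ars_prob h0 h1
  refine (integrable_const (1 : ℝ)).mono' (bb_pow_meas _).aestronglyMeasurable
    (Eventually.of_forall fun a => ?_)
  rw [Real.norm_eq_abs, abs_of_nonneg (Real.rpow_nonneg (bb_pos a).le _)]
  exact bb_pow_le (by linarith) a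

theorem ms_eq {s : ℝ} (h0 : 0 < s) (h1 : s < 1) :
    ms s * ((2 - s) * Real.Gamma s * Real.Gamma (2 - s)) = 1 := by
  have hG : 0 < Real.Gamma s := Real.Gamma_pos_of_pos h0
  have hG1 : 0 < Real.Gamma (1 - s) := Real.Gamma_pos_of_pos (by linarith)
  have h1s : 0 < 1 - s := by linarith
  have h2s : 0 < 2 - s := by linarith
  set C : ℝ := Real.Gamma s * Real.Gamma (1 - s) with hC
  have hC0 : 0 < C := by positivity
  set F : ℝ → ℝ := fun a => (a / (1 + a)) ^ (1 - s) / (1 - s) - (a / (1 + a)) ^ (2 - s) / (2 - s)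
    with hF
  have hcont : ContinuousWithinAt F (Ici 0) 0 := by
    have hq : ContinuousAt (fun a : ℝ => a / (1 + a)) 0 :=
      ContinuousAt.div (by fun_prop) (by fun_prop) (by norm_num)
    refine ContinuousAt.continuousWithinAt ?_
    refine ContinuousAt.sub ?_ ?_
    · exact (hq.rpow_const (Or.inr h1s.le)).div_const _
    · exact (hq.rpow_const (Or.inr h2s.le)).div_const _
  have hder : ∀ a ∈ Ioi (0 : ℝ), HasDerivAt F (a ^ (-s) * (1 + a) ^ (s - 3)) a := by
    intro a ha
    have ha0 : (0 : ℝ) < a := ha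
    have ha1 : 0 < 1 + a := by linarith
    have hq : HasDerivAt (fun a : ℝ => a / (1 + a)) (((1 + a) ^ 2)⁻¹) a := by
      have h3 : HasDerivAt (fun a : ℝ => 1 + a) 1 a := by
        simpa using (hasDerivAt_id a).const_add 1
      refine ((hasDerivAt_id a).div h3 ha1.ne').congr_deriv ?_
      simp only [id]
      field_simp
      ring
    have hq0 : 0 < a / (1 + a) := by positivity
    have h4 := (hq.rpow_const (p := 1 - s) (Or.inl hq0.ne')).div_const (1 - s)
    have h5 := (hq.rpow_const (p := 2 - s) (Or.inl hq0.ne')).div_const (2 - s)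
    refine (h4.sub h5).congr_deriv ?_
    have e1 : (a / (1 + a)) ^ (1 - s - 1) = a ^ (-s) * (1 + a) ^ s := by
      rw [show 1 - s - 1 = -s by ring, Real.div_rpow ha0.le ha1.le, Real.rpow_neg ha1.le s]
      field_simp
    have e2 : (a / (1 + a)) ^ (2 - s - 1) = a ^ (-s) * (1 + a) ^ s * (a / (1 + a)) := by
      rw [← e1, show 2 - s - 1 = (1 - s - 1) + 1 by ring, Real.rpow_add_one hq0.ne']
    have e3 : (1 + a) ^ (s - 3) = (1 + a) ^ s * ((1 + a) ^ 3)⁻¹ := by
      rw [Real.rpow_sub ha1, div_eq_mul_inv]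
      congr 2
      exact_mod_cast Real.rpow_natCast (1 + a) 3
    rw [e1, e2, e3]
    field_simp
    ring
  have hlim : Tendsto F atTop (𝓝 (1 / (1 - s) - 1 / (2 - s))) := by
    have hq : Tendsto (fun a : ℝ => a / (1 + a)) atTop (𝓝 1) := by
      have h3 : Tendsto (fun a : ℝ => 1 - 1 / (1 + a)) atTop (𝓝 (1 - 0)) := by
        refine Tendsto.sub tendsto_const_nhds ?_
        exact Tendsto.div_atTop tendsto_const_nhds (tendsto_atTop_add_const_left _ _ tendsto_id)
      rw [sub_zero] at h3
      refine h3.congr' ?_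
      filter_upwards [eventually_gt_atTop (0 : ℝ)] with a ha
      field_simp
      ring
    have h4 := (hq.rpow_const (p := 1 - s) (Or.inl one_ne_zero)).div_const (1 - s)
    have h5 := (hq.rpow_const (p := 2 - s) (Or.inl one_ne_zero)).div_const (2 - s)
    rw [Real.one_rpow] at h4 h5
    exact h4.sub h5
  have hF0 : F 0 = 0 := by
    simp only [hF, zero_div]
    rw [Real.zero_rpow h1s.ne', Real.zero_rpow h2s.ne']
    ring
  have hpos : ∀ a ∈ Ioi (0 : ℝ), 0 ≤ a ^ (-s) * (1 + a) ^ (s - 3) := by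
    intro a ha
    have ha0 : (0 : ℝ) < a := ha
    positivity
  have hI := integral_Ioi_of_hasDerivAt_of_nonneg hcont hder hpos hlim
  have hIi := integrableOn_Ioi_deriv_of_nonneg hcont hder hpos hlim
  rw [hF0, sub_zero] at hI
  have hms : ms s = C⁻¹ * (1 / (1 - s) - 1 / (2 - s)) := by
    rw [ms, integral_eq_lintegral_of_nonneg_ae (Eventually.of_forall fun a =>
      Real.rpow_nonneg (bb_pos a).le _) (bb_pow_meas _).aestronglyMeasurable,
      ars_lint s (bb_pow_meas _).ennreal_ofReal]
    have e1 : ∀ a ∈ Ioi (0 : ℝ), ENNReal.ofReal (ard s a) * ENNReal.ofReal ((bb a) ^ (s - 2)) =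
        ENNReal.ofReal (C⁻¹ * (a ^ (-s) * (1 + a) ^ (s - 3))) := by
      intro a ha
      have ha0 : (0 : ℝ) < a := ha
      have ha1 : 0 < 1 + a := by linarith
      rw [bb_eq ha0, ← ENNReal.ofReal_mul (ard_nonneg h0 h1 ha0), ard, ← hC]
      congr 1
      rw [show s - 3 = (s - 2) - 1 by ring, Real.rpow_sub_one ha1.ne']
      field_simp
    rw [setLIntegral_congr_fun measurableSet_Ioi e1,
      ← ofReal_integral_eq_lintegral_ofReal (hIi.const_mul _), integral_const_mul, hI,
      ENNReal.toReal_ofReal]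
    · refine mul_nonneg (by positivity) ?_
      rw [sub_nonneg]
      exact one_div_le_one_div_of_le h1s (by linarith)
    · refine (ae_restrict_iff' measurableSet_Ioi).2 (Eventually.of_forall fun a ha => ?_)
      have := hpos a ha
      simp only [Pi.zero_apply]
      positivity
  have hG2 : Real.Gamma (2 - s) = (1 - s) * Real.Gamma (1 - s) := by
    rw [show 2 - s = (1 - s) + 1 by ring]
    exact Real.Gamma_add_one h1s.ne'
  rw [hms, hG2, hC]
  field_simp
  ring

theorem ms_pos {s : ℝ} (h0 : 0 < s) (h1 : s < 1) : 0 < ms s := by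
  have hG : 0 < Real.Gamma s := Real.Gamma_pos_of_pos h0
  have hG2 : 0 < Real.Gamma (2 - s) := Real.Gamma_pos_of_pos (by linarith)
  have h2s : 0 < 2 - s := by linarith
  have h3 := ms_eq h0 h1
  have h4 : 0 < (2 - s) * Real.Gamma s * Real.Gamma (2 - s) := by positivity
  by_contra h
  have h5 : ms s * ((2 - s) * Real.Gamma s * Real.Gamma (2 - s)) ≤ 0 :=
    mul_nonpos_of_nonpos_of_nonneg (not_lt.1 h) h4.le
  linarith

theorem ms_le {s : ℝ} (h0 : 0 < s) (h1 : s < 1) : ms s ≤ 1 := by
  have := ars_prob h0 h1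
  have h3 : ms s ≤ ∫ _, (1 : ℝ) ∂(ars s) :=
    integral_mono (ms_int h0 h1) (integrable_const _) fun a => bb_pow_le (by linarith) a
  simpa using h3

end Pool.Agent.Helper51.RT
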